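import Mathlib

set_option autoImplicit false

namespace Pool.Agent.EH

/-- The elementary amenable groups: the smallest class of groups which contains the finite groups
and the abelian groups and is closed under extensions and directed unions. -/
inductive EA : (A : Type) → [Group A] → Prop
  | fin (A : Type) [Group A] [Finite A] : EA A
  | comm (A : Type) [Group A] (h : ∀ a b : A, a * b = b * a) : EA A
  | ext (A : Type) [Group A] (N : Subgroup A) [N.Normal] (h : EA N) (h' : EA (A ⧸ N)) : EA A
  | union (A : Type) [Group A] (H : Finset A → Subgroup A) (hH : ∀ F, ∀ g ∈ F, g ∈ H F)
      (h : ∀ F : Finset A, EA (H F)) : EA A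

/-- The smallest class of groups which contains the trivial groups and is closed under
* actions on trees without inversions (all vertex stabilisers belong to the class),
* extensions by elementary amenable groups (the preimages of all finite subgroups of the quotient
  belong to the class),
* directed unions. -/
inductive HierE : (G : Type) → [Group G] → Prop
  | triv (G : Type) [Group G] [Subsingleton G] : HierE G
  | tree (G V : Type) [Group G] [MulAction G V] (T : SimpleGraph V) (hT : T.IsTree)
      (hadj : ∀ (g : G) (u v : V), T.Adj u v → T.Adj (g • u) (g • v))
      (hinv : ∀ (g : G) (u v : V), T.Adj u v → ¬ (g • u = v ∧ g • v = u))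
      (h : ∀ v : V, HierE (MulAction.stabilizer G v)) : HierE G
  | ext (G A : Type) [Group G] [Group A] (p : G →* A) (hA : EA A)
      (h : ∀ F : Subgroup A, Finite F → HierE (F.comap p)) : HierE G
  | union (G : Type) [Group G] (H : Finset G → Subgroup G) (hH : ∀ F, ∀ g ∈ F, g ∈ H F)
      (h : ∀ F : Finset G, HierE (H F)) : HierE G

end Pool.Agent.EH
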