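import Pool.Agent.EH.Defs

set_option autoImplicit false
set_option linter.unusedSectionVars false

noncomputable section

open scoped InnerProductSpace ENNReal Topology
open Classical Filter ContinuousLinearMap

namespace Pool.Agent.EH

open Pool.Agent.VN Pool.Agent.LFT Pool.Agent.HI

section St

variable {k : Subring ℂ}

/-- P17: subgroups -/
theorem pb_of_inj {B B' : Type} [Group B] [Group B'] (f : B' →* B) (hf : Function.Injective f)
    (h : HE.PB k B) : HE.PB k B' := by
  intro G W _ _ c hc
  refine h G W (fun g w => f (c g w)) ⟨fun g g' w => ?_, fun g w h1 h2 => ?_⟩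
  · show f (c (g * g') w) = f (c g (g' • w)) * f (c g' w)
    rw [hc.mul, map_mul]
  · refine hc.inj g w h1 (hf ?_)
    rw [map_one]
    exact h2

/-- P17: finite groups -/
theorem st_finite (A : Type) [Group A] [Finite A] : St k A := by
  intro B _ p h
  have h1 := h ⊤ inferInstance
  refine pb_of_inj (MonoidHom.mk' (fun b : B => (⟨b, trivial⟩ : (⊤ : Subgroup A).comap p))
    fun a b => rfl) ?_ h1
  intro a b hab
  exact congrArg (fun x : (⊤ : Subgroup A).comap p => x.1) hab

lemma P17_fin_comap {A A' : Type} [Group A] [Group A'] (θ : A →* A') (hθ : Finite θ.ker)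
    (F : Subgroup A') (hF : Finite F) : Finite (F.comap θ) := by
  have h1 : (θ ⁻¹' (F : Set A')).Finite := by
    apply Set.Finite.preimage' (Set.toFinite _)
    intro b _
    by_cases hb : ∃ a0, θ a0 = b
    · obtain ⟨a0, ha0⟩ := hb
      have h2 : ((fun x => a0 * x) '' (θ.ker : Set A)).Finite := (Set.toFinite _).image _
      refine h2.subset ?_
      intro a ha
      refine ⟨a0⁻¹ * a, ?_, mul_inv_cancel_left _ _⟩
      show θ (a0⁻¹ * a) = 1
      have ha' : θ a = b := ha
      rw [map_mul, map_inv, ha0, ha', inv_mul_cancel]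
    · convert Set.finite_empty
      ext a
      simp only [Set.mem_preimage, Set.mem_singleton_iff, Set.mem_empty_iff_false, iff_false]
      exact fun h => hb ⟨a, h⟩
  exact h1.to_subtype

/-- P17: finite kernels -/
theorem st_finker {A A' : Type} [Group A] [Group A'] (θ : A →* A') (hθ : Finite θ.ker)
    (h : St k A') : St k A := by
  intro B _ p hp
  apply h B (θ.comp p)
  intro F hF
  exact hp (F.comap θ) (P17_fin_comap θ hθ F hF)

lemma P17_restrict {A B : Type} [Group A] [Group B] (p : B →* A) (A1 : Subgroup A) (h : St k A1)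
    (hp : ∀ F : Subgroup A, Finite F → HE.PB k (F.comap p)) : HE.PB k (A1.comap p) := by
  let p1 : A1.comap p →* A1 := MonoidHom.mk' (fun b => ⟨p b.1, b.2⟩) fun a b =>
    Subtype.ext (map_mul p _ _)
  apply h (A1.comap p) p1
  intro F1 hF1
  have hfin : Finite (F1.map A1.subtype) := by
    have h2 : ((A1.subtype : A1 → A) '' (F1 : Set A1)).Finite := (Set.toFinite _).image _
    exact h2.to_subtype
  refine pb_of_inj (MonoidHom.mk' (fun x : F1.comap p1 =>
    (⟨x.1.1, ⟨p1 x.1, x.2, rfl⟩⟩ : (F1.map A1.subtype).comap p)) fun a b => rfl) ?_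
    (hp _ hfin)
  intro a b hab
  exact Subtype.ext (Subtype.ext (congrArg (fun x : (F1.map A1.subtype).comap p => x.1) hab))

/-- P17: extensions -/
theorem st_ext {A : Type} [Group A] (N : Subgroup A) [N.Normal] (h : St k (A ⧸ N))
    (h' : ∀ F : Subgroup (A ⧸ N), Finite F → St k (F.comap (QuotientGroup.mk' N))) : St k A := by
  intro B _ p hp
  apply h B ((QuotientGroup.mk' N).comp p)
  intro F hF
  exact P17_restrict p (F.comap (QuotientGroup.mk' N)) (h' F hF) hp

/-- P17: unions -/
theorem st_union {A : Type} [Group A] (H : Finset A → Subgroup A) (hH : ∀ F, ∀ g ∈ F, g ∈ H F)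
    (h : ∀ F, St k (H F)) : St k A := by
  intro B _ p hp
  refine HE.pb_union k B (fun F => (H (F.image p)).comap p) ?_ ?_
  · intro F g hg
    exact hH _ _ (Finset.mem_image_of_mem p hg)
  · intro F
    exact P17_restrict p _ (h _) hp

end St

end Pool.Agent.EH
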