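import Pool.Agent.EH.Defs

set_option autoImplicit false
set_option linter.unusedSectionVars false

noncomputable section

open scoped InnerProductSpace ENNReal Topology
open Classical Filter ContinuousLinearMap

namespace Pool.Agent.EH

open Pool.Agent.VN Pool.Agent.LFT Pool.Agent.HI

section Exact

variable {G : Type} [Group G] {k : Subring ℂ} {D A B : Type} [MulAction G D] [MulAction G A]
  [MulAction G B]

/-- the dimension of an intersection is an integer -/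
lemma P6_int_inf {a : D → A} {b : D → B} (ha : Eqv G a) (hb : Eqv G b) (hAF : AF k G a b)
    (hIA : Int0 k G A) (hIB : Int0 k G B) {ι : Type} [Fintype ι] (d : ι → D)
    {L0 L1 : Submodule ℂ (L2 ι G)} (h0 : Rat k (fun i => a (d i)) L0)
    (h1 : Rat k (fun i => b (d i)) L1) : ∃ z : ℤ, dm (L0 ⊓ L1) = z := by
  apply int_of_lower
  intro ε hε
  obtain ⟨S, hS, hSe⟩ := hAF ι inferInstance d L0 L1 h0 h1 ε hε
  have hS0 : Rat k (fun i => a (d i)) S := hS.mapLab a ha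
  have hS1 : Rat k (fun i => b (d i)) S := hS.mapLab b hb
  obtain ⟨z0, hz0⟩ := hIA ι inferInstance _ _ (h0.inf hS0)
  obtain ⟨z1, hz1⟩ := hIB ι inferInstance _ _ (h1.inf hS1)
  obtain ⟨z2, hz2⟩ := hIA ι inferInstance _ _ hS0
  refine ⟨z0 + z1 - z2, ?_, ?_⟩
  · push_cast
    rw [← hz0, ← hz1, ← hz2]
    have h2 := dm_csup (h0.ci.inf hS.ci) (h1.ci.inf hS.ci)
    have h3 : csup (L0 ⊓ S) (L1 ⊓ S) ≤ S := csup_le hS.ci.cl inf_le_right inf_le_right
    have h4 : L0 ⊓ S ⊓ (L1 ⊓ S) ≤ L0 ⊓ L1 := inf_le_inf inf_le_left inf_le_left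
    have h5 := dm_mono h3
    have h6 := dm_mono h4
    linarith
  · push_cast
    rw [← hz0, ← hz1, ← hz2]
    linarith

/-- P6: if dimensions are integral, the approximate formula holds exactly -/
theorem af_exact {a : D → A} {b : D → B} (ha : Eqv G a) (hb : Eqv G b) (hAF : AF k G a b)
    (hIA : Int0 k G A) (hIB : Int0 k G B) {ι : Type} [Fintype ι] (d : ι → D)
    {K0 K1 : Submodule ℂ (L2 ι G)} (h0 : Rat k (fun i => a (d i)) K0)
    (h1 : Rat k (fun i => b (d i)) K1) :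
    ∃ S, Rat k d S ∧ K0 ⊓ K1 ≤ S ∧ S ≤ csup (K0 ⊓ S) (K1 ⊓ S) := by
  obtain ⟨z, hz⟩ := P6_int_inf ha hb hAF hIA hIB d h0 h1
  obtain ⟨S, hS, hSe⟩ := hAF ι inferInstance d K0 K1 h0 h1 (1 / 2) (by norm_num)
  refine ⟨S, hS, ?_⟩
  have hS0 : Rat k (fun i => a (d i)) S := hS.mapLab a ha
  have hS1 : Rat k (fun i => b (d i)) S := hS.mapLab b hb
  obtain ⟨z0, hz0⟩ := hIA ι inferInstance _ _ (h0.inf hS0)
  obtain ⟨z1, hz1⟩ := hIB ι inferInstance _ _ (h1.inf hS1)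
  obtain ⟨z2, hz2⟩ := hIA ι inferInstance _ _ hS0
  have c0 := h0.ci.inf hS.ci
  have c1 := h1.ci.inf hS.ci
  have h2 := dm_csup c0 c1
  have h3 : csup (K0 ⊓ S) (K1 ⊓ S) ≤ S := csup_le hS.ci.cl inf_le_right inf_le_right
  have e4 : K0 ⊓ S ⊓ (K1 ⊓ S) = K0 ⊓ K1 ⊓ S := by
    rw [inf_inf_inf_comm, inf_idem]
  rw [e4] at h2
  have h5 := dm_mono h3
  have h6 : dm (K0 ⊓ K1 ⊓ S) ≤ dm (K0 ⊓ K1) := dm_mono inf_le_left
  have h7 : (z : ℝ) = z0 + z1 - z2 := by
    have h8 : (z : ℝ) - 1 / 2 ≤ z0 + z1 - z2 := by linarith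
    have h9 : (z0 : ℝ) + z1 - z2 ≤ z := by linarith
    have h10 : z ≤ z0 + z1 - z2 := by
      have h11 : (z : ℝ) < ((z0 + z1 - z2 + 1 : ℤ) : ℝ) := by
        push_cast
        linarith
      have h12 := Int.cast_lt.1 h11
      omega
    have h11 : z0 + z1 - z2 ≤ z := by
      have h12 : ((z0 + z1 - z2 : ℤ) : ℝ) ≤ (z : ℝ) := by
        push_cast
        linarith
      exact Int.cast_le.1 h12
    have h12 : z = z0 + z1 - z2 := le_antisymm h10 h11
    rw [h12]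
    push_cast
    ring
  have cK := h0.ci.inf h1.ci
  have e1 : K0 ⊓ K1 ⊓ S = K0 ⊓ K1 := by
    refine eq_of_le_of_dm (cK.inf hS.ci) cK inf_le_left ?_
    linarith
  have e2 : csup (K0 ⊓ S) (K1 ⊓ S) = S := by
    refine eq_of_le_of_dm (CI.csup c0.inv c1.inv) hS.ci h3 ?_
    rw [e1] at h2
    linarith
  exact ⟨inf_eq_left.1 e1, e2.ge⟩

end Exact

end Pool.Agent.EH
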