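import Pool.Agent.EH.Defs

set_option autoImplicit false
set_option linter.unusedSectionVars false

noncomputable section

open scoped InnerProductSpace ENNReal Topology
open Classical Filter ContinuousLinearMap

namespace Pool.Agent.EH

open Pool.Agent.VN Pool.Agent.LFT Pool.Agent.HI

section Fam

variable {G : Type} [Group G] {ι κ μ M : Type} [Fintype ι] [Fintype κ] [Fintype μ] [MulAction G M]

lemma P2_ev_fA (p : κ → ι) (ℓ : κ → M) (A : μ → (ι × G →₀ ℂ)) (r : μ × M) (y : κ × G → ℂ)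
    (g : G) :
    ev (fA p ℓ A r) y g = ∑ u ∈ (A r.1).support, A r.1 u *
      ∑ a : κ, if p a = u.1 ∧ ℓ a = u.2 • r.2 then y (a, g * u.2⁻¹) else 0 := by
  unfold fA
  rw [ev_finsetSum]
  refine Finset.sum_congr rfl fun u _ => ?_
  rw [ev_finsetSum, Finset.mul_sum]
  refine Finset.sum_congr rfl fun a _ => ?_
  split_ifs
  · rw [ev_single]
  · rw [ev_zero, mul_zero]

lemma P2_inj (p : κ → ι) (ℓ : κ → M) (hinj : ∀ a b, p a = p b → ℓ a = ℓ b → a = b) (w : M) :
    Function.Injective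
      (fun q : {q : κ × G | q.2 • ℓ q.1 = w} => ((p q.1.1, q.1.2) : ι × G)) := by
  rintro ⟨⟨b, g⟩, hq⟩ ⟨⟨b', g'⟩, hq'⟩ heq
  simp only [Prod.mk.injEq] at heq
  obtain ⟨h1, h2⟩ := heq
  subst h2
  have h3 : g • ℓ b = w := hq
  have h4 : g • ℓ b' = w := hq'
  have h5 : ℓ b = ℓ b' := by
    have h6 : g • ℓ b = g • ℓ b' := h3.trans h4.symm
    exact smul_left_cancel g h6
  have h7 := hinj b b' h1 h5
  subst h7
  rfl

/-- the pull-back of a vector to the coordinates at one place -/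
def P2_y (p : κ → ι) (ℓ : κ → M) (hinj : ∀ a b, p a = p b → ℓ a = ℓ b → a = b) (w : M)
    (x : L2 ι G) : L2 κ G :=
  push (fun q : {q : κ × G | q.2 • ℓ q.1 = w} => q.1) Subtype.val_injective
    (pull _ (P2_inj p ℓ hinj w) x)

lemma P2_y_apply (p : κ → ι) (ℓ : κ → M) (hinj : ∀ a b, p a = p b → ℓ a = ℓ b → a = b) (w : M)
    (x : L2 ι G) (b : κ) (g : G) :
    P2_y p ℓ hinj w x (b, g) = if g • ℓ b = w then x (p b, g) else 0 := by
  unfold P2_y
  by_cases hq : g • ℓ b = w
  · rw [if_pos hq]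
    exact push_apply (fun q : {q : κ × G | q.2 • ℓ q.1 = w} => q.1) _ _ ⟨(b, g), hq⟩
  · rw [if_neg hq]
    apply push_apply_of_notMem
    rintro ⟨r, hr⟩ h'
    simp only at h'
    subst h'
    exact hq hr

lemma P2_norm_y (p : κ → ι) (ℓ : κ → M) (hinj : ∀ a b, p a = p b → ℓ a = ℓ b → a = b) (w : M)
    (x : L2 ι G) : ‖P2_y p ℓ hinj w x‖ ≤ ‖x‖ := by
  unfold P2_y
  refine le_trans ?_ (norm_pull_le _ (P2_inj p ℓ hinj w) x)
  have h1 : ‖push (fun q : {q : κ × G | q.2 • ℓ q.1 = w} => q.1) Subtype.val_injective‖ ≤ 1 := by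
    unfold push
    rw [LinearIsometryEquiv.norm_map]
    exact ContinuousLinearMap.opNorm_le_bound _ zero_le_one fun z => by
      rw [one_mul]
      exact norm_pull_le _ _ z
  have h2 := (push (fun q : {q : κ × G | q.2 • ℓ q.1 = w} => q.1)
    Subtype.val_injective).le_of_opNorm_le h1 (pull _ (P2_inj p ℓ hinj w) x)
  rwa [one_mul] at h2

/-- the rows which are not boundary rows -/
def P2_row (p : κ → ι) (ℓ : κ → M) (A : μ → (ι × G →₀ ℂ)) (C : Finset M) (r : μ × C) :
    κ × G →₀ ℂ :=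
  if r ∈ bdC p ℓ A C then 0 else fAC p ℓ A C r

lemma P2_mem (p : κ → ι) (ℓ : κ → M) (hinj : ∀ a b, p a = p b → ℓ a = ℓ b → a = b)
    (A : μ → (ι × G →₀ ℂ)) (C : Finset M) (w : M) {x : L2 ι G} (hx : x ∈ kr (mulR A)) :
    P2_y p ℓ hinj w x ∈ kr (mulR (P2_row p ℓ A C)) := by
  rw [mem_kr]
  ext ⟨⟨j, c⟩, g⟩
  rw [mulR_apply]
  show ev (P2_row p ℓ A C (j, c)) (P2_y p ℓ hinj w x) g = 0
  unfold P2_row
  split_ifs with hr
  · rw [ev_zero]
  · show ev (fA p ℓ A (j, c.1)) (P2_y p ℓ hinj w x) g = 0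
    rw [P2_ev_fA]
    simp only
    have hr' : ¬ ((∃ u ∈ (A j).support, ∃ a, p a = u.1 ∧ ℓ a = u.2 • c.1) ∧
      ∃ u ∈ (A j).support, ¬ ∃ a, p a = u.1 ∧ ℓ a = u.2 • c.1) := by
      intro h
      apply hr
      simp only [bdC, Finset.mem_filter, Finset.mem_univ, true_and]
      exact h
    by_cases h1 : ∃ u ∈ (A j).support, ∃ a, p a = u.1 ∧ ℓ a = u.2 • c.1
    · have h2 : ∀ u ∈ (A j).support, ∃ a, p a = u.1 ∧ ℓ a = u.2 • c.1 := by
        intro u hu
        by_contra h3
        exact hr' ⟨h1, u, hu, h3⟩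
      by_cases hg : g • c.1 = w
      · have h3 : (mulR A x) (j, g) = 0 := by
          rw [mem_kr] at hx
          rw [hx]
          rfl
        rw [mulR_apply, ev_def] at h3
        refine Eq.trans ?_ h3
        refine Finset.sum_congr rfl fun u hu => ?_
        congr 1
        obtain ⟨b, hb1, hb2⟩ := h2 u hu
        have e1 : (g * u.2⁻¹) • ℓ b = w := by
          rw [hb2, smul_smul, inv_mul_cancel_right]
          exact hg
        rw [Finset.sum_eq_single b]
        · rw [if_pos ⟨hb1, hb2⟩, P2_y_apply, if_pos e1, hb1]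
        · intro b' _ hb'
          rw [if_neg]
          rintro ⟨h4, h5⟩
          exact hb' (hinj b' b (h4.trans hb1.symm) (h5.trans hb2.symm))
        · intro h
          exact absurd (Finset.mem_univ _) h
      · refine Finset.sum_eq_zero fun u _ => ?_
        rw [Finset.sum_eq_zero, mul_zero]
        intro b _
        split_ifs with hb
        · rw [P2_y_apply, if_neg]
          rw [hb.2, smul_smul, inv_mul_cancel_right]
          exact hg
        · rfl
    · refine Finset.sum_eq_zero fun u hu => ?_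
      rw [Finset.sum_eq_zero, mul_zero]
      intro b _
      rw [if_neg]
      intro hb
      exact h1 ⟨u, hu, b, hb⟩

lemma P2_ltr {ι : Type} (K : Submodule ℂ (L2 ι G)) [K.HasOrthogonalProjection] (q : ι × G) :
    ltr K q = ‖K.starProjection (dl q)‖ ^ 2 := by
  unfold ltr
  rw [infDist_eq_norm, norm_sub_proj_sq, norm_dl]
  ring

lemma P2_le (p : κ → ι) (ℓ : κ → M) (hinj : ∀ a b, p a = p b → ℓ a = ℓ b → a = b)
    (A : μ → (ι × G →₀ ℂ)) (C : Finset M) (a : κ) :
    ltr (kr (mulR A)) (p a, 1) ≤ ltr (kr (mulR (P2_row p ℓ A C))) (a, 1) := by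
  have c1 : CompleteSpace (kr (mulR A)) := (kr_closed (mulR A)).completeSpace_coe
  have c2 : CompleteSpace (kr (mulR (P2_row p ℓ A C))) :=
    (kr_closed (mulR (P2_row p ℓ A C))).completeSpace_coe
  rw [P2_ltr, P2_ltr]
  set x := (kr (mulR A)).starProjection (dl (p a, (1 : G))) with hx
  set Y := kr (mulR (P2_row p ℓ A C)) with hY
  set z := Y.starProjection (dl (a, (1 : G))) with hz
  have hxm : x ∈ kr (mulR A) := Submodule.starProjection_apply_mem _ _
  have h1 : x (p a, 1) = ((‖x‖ ^ 2 : ℝ) : ℂ) := by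
    have h := inner_proj (kr (mulR A)) (dl (p a, (1 : G)))
    rw [← hx, inner_dl_left] at h
    exact h
  have hy : P2_y p ℓ hinj (ℓ a) x ∈ Y := P2_mem p ℓ hinj A C (ℓ a) hxm
  have h2 : ⟪z, P2_y p ℓ hinj (ℓ a) x⟫_ℂ = ((‖x‖ ^ 2 : ℝ) : ℂ) := by
    have h := Y.starProjection_inner_eq_zero (dl (a, (1 : G))) _ hy
    rw [inner_sub_left, sub_eq_zero, ← hz, inner_dl_left, P2_y_apply, one_smul, if_pos rfl,
      h1] at h
    exact h.symm
  have h3 : ‖x‖ ^ 2 ≤ ‖z‖ * ‖x‖ := by
    have h4 := norm_inner_le_norm (𝕜 := ℂ) z (P2_y p ℓ hinj (ℓ a) x)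
    rw [h2, Complex.norm_real, Real.norm_of_nonneg (by positivity)] at h4
    exact h4.trans (mul_le_mul_of_nonneg_left (P2_norm_y p ℓ hinj (ℓ a) x) (norm_nonneg _))
  rcases (norm_nonneg x).eq_or_lt with h5 | h5
  · have h6 : ‖x‖ ^ 2 = 0 := by rw [← h5]; norm_num
    rw [h6]
    positivity
  · have h6 : ‖x‖ ≤ ‖z‖ := by
      rw [sq] at h3
      exact le_of_mul_le_mul_right h3 h5
    exact pow_le_pow_left₀ (norm_nonneg _) h6 2

/-- P2: lower bound for the dimension of a family -/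
theorem fam_lower (p : κ → ι) (ℓ : κ → M) (hinj : ∀ a b, p a = p b → ℓ a = ℓ b → a = b)
    (A : μ → (ι × G →₀ ℂ)) (C : Finset M) :
    ∑ a, ltr (kr (mulR A)) (p a, 1) - (bdC p ℓ A C).card ≤ dm (kr (mulR (fAC p ℓ A C))) := by
  set Y := kr (mulR (P2_row p ℓ A C)) with hY
  have hYci : CI Y := CI.kr (mulR_equivar _)
  let T : L2 κ G →L[ℂ] L2 (bdC p ℓ A C) G :=
    mulR fun r : (bdC p ℓ A C) => fAC p ℓ A C r.1
  have hT : Equivar T := mulR_equivar _
  have h1 := dm_imc hT hYci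
  have h2 : dm (imc T Y) ≤ (bdC p ℓ A C).card := by
    refine (dm_le_card _).trans ?_
    rw [Fintype.card_coe]
  have h3 : Y ⊓ kr T = kr (mulR (fAC p ℓ A C)) := by
    ext y
    rw [Submodule.mem_inf, mem_kr]
    constructor
    · rintro ⟨h4, h5⟩
      have h4 : mulR (P2_row p ℓ A C) y = 0 := h4
      have h5 : T y = 0 := h5
      show mulR (fAC p ℓ A C) y = 0
      ext ⟨r, g⟩
      rw [mulR_apply]
      show ev (fAC p ℓ A C r) y g = 0
      by_cases hr : r ∈ bdC p ℓ A C
      · have h6 : (T y) (⟨r, hr⟩, g) = 0 := by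
          rw [h5]
          rfl
        rw [mulR_apply] at h6
        exact h6
      · have h6 : (mulR (P2_row p ℓ A C) y) (r, g) = 0 := by
          rw [h4]
          rfl
        rw [mulR_apply] at h6
        unfold P2_row at h6
        rw [if_neg hr] at h6
        exact h6
    · intro h4
      have h4 : mulR (fAC p ℓ A C) y = 0 := h4
      have h5 : ∀ (r : μ × C) (g : G), ev (fAC p ℓ A C r) y g = 0 := by
        intro r g
        have h6 : (mulR (fAC p ℓ A C) y) (r, g) = 0 := by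
          rw [h4]
          rfl
        rw [mulR_apply] at h6
        exact h6
      constructor
      · show mulR (P2_row p ℓ A C) y = 0
        ext ⟨r, g⟩
        rw [mulR_apply]
        show ev (P2_row p ℓ A C r) y g = 0
        unfold P2_row
        split_ifs
        · rw [ev_zero]
        · exact h5 r g
      · show T y = 0
        ext ⟨r, g⟩
        rw [mulR_apply]
        exact h5 r.1 g
  rw [h3] at h1
  have h4 : ∑ a, ltr (kr (mulR A)) (p a, 1) ≤ dm Y :=
    Finset.sum_le_sum fun a _ => P2_le p ℓ hinj A C a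
  linarith

end Fam

end Pool.Agent.EH
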