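import Pool.Agent.EH.Defs

set_option autoImplicit false
set_option linter.unusedSectionVars false

noncomputable section

open scoped InnerProductSpace ENNReal Topology
open Classical Filter ContinuousLinearMap

namespace Pool.Agent.EH

open Pool.Agent.VN Pool.Agent.LFT Pool.Agent.HI

section Fam

variable {G : Type} [Group G] {ι κ μ M : Type} [Fintype ι] [Fintype κ] [Fintype μ] [MulAction G M]

lemma P3_fT_apply (p : κ → ι) (y : L2 κ G) (i : ι) (g : G) :
    fT p y (i, g) = ∑ b : κ, if p b = i then y (b, g) else 0 := by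
  unfold fT
  rw [mulR_apply, ev_finsetSum]
  refine Finset.sum_congr rfl fun b _ => ?_
  split_ifs with h
  · rw [ev_single, inv_one, mul_one, one_mul]
  · rw [ev_zero]

lemma P3_ev_fA (p : κ → ι) (ℓ : κ → M) (A : μ → (ι × G →₀ ℂ)) (j : μ) (c : M) (y : L2 κ G) (g : G) :
    ev (fA p ℓ A (j, c)) y g = ∑ u ∈ (A j).support, ∑ a : κ,
      if p a = u.1 ∧ ℓ a = u.2 • c then A j u * y (a, g * u.2⁻¹) else 0 := by
  unfold fA
  rw [ev_finsetSum]
  refine Finset.sum_congr rfl fun u _ => ?_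
  rw [ev_finsetSum]
  refine Finset.sum_congr rfl fun a _ => ?_
  split_ifs with h
  · rw [ev_single]
  · rw [ev_zero]

lemma P3_key (p : κ → ι) (ℓ : κ → M) (A : μ → (ι × G →₀ ℂ)) (j : μ) (c : M) (y : L2 κ G) (g : G) :
    ev (A j) (fT p (cutF (pV ℓ) (g • c) y)) g = ev (fA p ℓ A (j, c)) y g := by
  rw [P3_ev_fA, ev_def]
  refine Finset.sum_congr rfl fun u _ => ?_
  rw [P3_fT_apply, Finset.mul_sum]
  refine Finset.sum_congr rfl fun a _ => ?_
  have h1 : pV ℓ (a, g * u.2⁻¹) = g • c ↔ ℓ a = u.2 • c := by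
    show (g * u.2⁻¹) • ℓ a = g • c ↔ _
    rw [mul_smul, smul_left_cancel_iff, inv_smul_eq_iff]
  rw [cutF_apply]
  by_cases h2 : p a = u.1
  · by_cases h3 : ℓ a = u.2 • c
    · rw [if_pos h2, if_pos (h1.2 h3), if_pos ⟨h2, h3⟩]
    · rw [if_pos h2, if_neg (fun h => h3 (h1.1 h)), if_neg (fun h => h3 h.2), mul_zero]
  · rw [if_neg h2, if_neg (fun h => h2 h.1), mul_zero]

lemma P3_out (p : κ → ι) (ℓ : κ → M) (A : μ → (ι × G →₀ ℂ)) {C : Finset M} (hC : CovC p ℓ A C)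
    (j : μ) {c : M} (hc : c ∉ C) (y : L2 κ G) (g : G) : ev (fA p ℓ A (j, c)) y g = 0 := by
  rw [P3_ev_fA]
  refine Finset.sum_eq_zero fun u hu => Finset.sum_eq_zero fun a _ => ?_
  rw [if_neg]
  rintro ⟨h1, h2⟩
  have h3 := hC j u hu a h1
  rw [h2, inv_smul_smul] at h3
  exact hc h3

lemma P3_mem (p : κ → ι) (ℓ : κ → M) (A : μ → (ι × G →₀ ℂ)) (C : Finset M) (y : L2 κ G) :
    y ∈ kr (mulR (fAC p ℓ A C)) ↔ ∀ (j : μ) (c : M), c ∈ C → ∀ g, ev (fA p ℓ A (j, c)) y g = 0 := by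
  constructor
  · intro h j c hc g
    have h1 : mulR (fAC p ℓ A C) y = 0 := h
    have h2 := mulR_apply (fAC p ℓ A C) y ((j, ⟨c, hc⟩), g)
    rw [h1] at h2
    exact h2.symm
  · intro h
    show mulR (fAC p ℓ A C) y = 0
    ext q
    rw [mulR_apply]
    exact h q.1.1 q.1.2.1 q.1.2.2 q.2

/-- P3: the description of families by equations -/
theorem mem_fam (p : κ → ι) (ℓ : κ → M) (hinj : ∀ a b, p a = p b → ℓ a = ℓ b → a = b)
    (A : μ → (ι × G →₀ ℂ)) {C : Finset M} (hC : CovC p ℓ A C) (y : L2 κ G) :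
    y ∈ kr (mulR (fAC p ℓ A C)) ↔ ∀ c, fT p (cutF (pV ℓ) c y) ∈ kr (mulR A) := by
  rw [P3_mem]
  constructor
  · intro h c0
    show mulR A (fT p (cutF (pV ℓ) c0 y)) = 0
    ext q
    obtain ⟨j, g⟩ := q
    rw [mulR_apply]
    show ev (A j) (fT p (cutF (pV ℓ) c0 y)) g = 0
    have h1 : c0 = g • (g⁻¹ • c0) := (smul_inv_smul g c0).symm
    rw [h1, P3_key]
    by_cases h2 : g⁻¹ • c0 ∈ C
    · exact h j _ h2 g
    · exact P3_out p ℓ A hC j h2 y g
  · intro h j c _ g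
    have h1 : mulR A (fT p (cutF (pV ℓ) (g • c) y)) = 0 := h (g • c)
    have h2 := mulR_apply A (fT p (cutF (pV ℓ) (g • c) y)) (j, g)
    rw [h1] at h2
    rw [← P3_key]
    exact h2.symm

/-- P3 -/
theorem sum_fam (p : κ → ι) (ℓ : κ → M) (hinj : ∀ a b, p a = p b → ℓ a = ℓ b → a = b)
    (A : μ → (ι × G →₀ ℂ)) {C : Finset M} (hC : CovC p ℓ A C) {y : L2 κ G}
    (hy : y ∈ kr (mulR (fAC p ℓ A C))) : fT p y ∈ kr (mulR A) := by
  rw [P3_mem] at hy
  show mulR A (fT p y) = 0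
  ext q
  obtain ⟨j, g⟩ := q
  rw [mulR_apply]
  show ev (A j) (fT p y) g = 0
  have h1 : ev (A j) (fT p y) g = ∑ c ∈ C, ev (fA p ℓ A (j, c)) y g := by
    simp only [P3_ev_fA]
    rw [ev_def, Finset.sum_comm]
    refine Finset.sum_congr rfl fun u hu => ?_
    rw [P3_fT_apply, Finset.mul_sum, Finset.sum_comm]
    refine Finset.sum_congr rfl fun a _ => ?_
    by_cases h2 : p a = u.1
    · rw [if_pos h2, Finset.sum_eq_single (u.2⁻¹ • ℓ a)]
      · rw [if_pos ⟨h2, (smul_inv_smul u.2 (ℓ a)).symm⟩]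
      · intro c _ hc
        rw [if_neg]
        rintro ⟨_, h3⟩
        apply hc
        rw [h3, inv_smul_smul]
      · intro h3
        exact absurd (hC j u hu a h2) h3
    · rw [if_neg h2, mul_zero]
      refine (Finset.sum_eq_zero fun c _ => ?_).symm
      rw [if_neg (fun h => h2 h.1)]
  rw [h1]
  exact Finset.sum_eq_zero fun c hc => hy j c hc g

/-- P3 -/
theorem fam_loc {k : Subring ℂ} {N' : Type} [MulAction G N'] (p : κ → ι) (ℓ : κ → M)
    (A : μ → (ι × G →₀ ℂ)) (C : Finset M) (lab : ι → N') (lab' : μ → N')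
    (hA1 : ∀ j, CoefIn k (A j)) (hA2 : ∀ j, ∀ u ∈ (A j).support, u.2⁻¹ • lab u.1 = lab' j) :
    LocOp k (fun a => (lab (p a), ℓ a)) (fun r : μ × C => (lab' r.1, r.2.1))
      (mulR (fAC p ℓ A C)) := by
  refine ⟨fAC p ℓ A C, ?_, ?_, rfl⟩
  · intro r
    unfold fAC fA
    refine coefIn_sum _ _ _ fun u _ => coefIn_sum _ _ _ fun a _ => ?_
    split_ifs with h
    · exact coefIn_single _ _ _ (hA1 _ _)
    · intro q
      rw [Finsupp.zero_apply]
      exact k.zero_mem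
  · intro r q hq
    have h1 : ∃ u ∈ (A r.1).support, ∃ a : κ, (p a = u.1 ∧ ℓ a = u.2 • r.2.1) ∧ q = (a, u.2) := by
      by_contra hne
      push Not at hne
      rw [Finsupp.mem_support_iff] at hq
      apply hq
      unfold fAC fA
      rw [Finsupp.finsetSum_apply]
      refine Finset.sum_eq_zero fun u hu => ?_
      rw [Finsupp.finsetSum_apply]
      refine Finset.sum_eq_zero fun a _ => ?_
      split_ifs with h
      · rw [Finsupp.single_apply, if_neg]
        intro h2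
        exact hne u hu a h h2.symm
      · rfl
    obtain ⟨u, hu, a, ⟨h2, h3⟩, rfl⟩ := h1
    refine Prod.ext ?_ ?_
    · show u.2⁻¹ • lab (p a) = lab' r.1
      rw [h2]
      exact hA2 r.1 u hu
    · show u.2⁻¹ • ℓ a = r.2.1
      rw [h3, inv_smul_smul]

end Fam

end Pool.Agent.EH
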