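import Pool.Agent.EH.P1
import Pool.Agent.EH.P2
import Pool.Agent.EH.P3

set_option autoImplicit false
set_option linter.unusedSectionVars false

noncomputable section

open scoped InnerProductSpace ENNReal Topology
open Classical Filter ContinuousLinearMap

namespace Pool.Agent.EH

open Pool.Agent.VN Pool.Agent.LFT Pool.Agent.HI

section P7aux

variable {G : Type} [Group G] {k : Subring ℂ}

lemma P7_fT_apply {ι κ : Type} [Fintype ι] [Fintype κ] (p : κ → ι) (x : L2 κ G) (q : ι × G) :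
    fT p x q = ∑ a : κ, if p a = q.1 then x (a, q.2) else 0 := by
  unfold fT
  rw [mulR_apply, ev_finsetSum]
  refine Finset.sum_congr rfl fun a _ => ?_
  by_cases h : p a = q.1
  · rw [if_pos h, if_pos h, ev_single]
    simp
  · rw [if_neg h, if_neg h, ev_zero]

lemma P7_fT_fst {ι : Type} [Fintype ι] {N : ℕ} (x : L2 (ι × Fin N) G) (i : ι) (g : G) :
    fT (Prod.fst : ι × Fin N → ι) x (i, g) = ∑ r, x ((i, r), g) := by
  rw [P7_fT_apply, Fintype.sum_prod_type, Finset.sum_eq_single i]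
  · exact Finset.sum_congr rfl fun r _ => if_pos rfl
  · intro b _ hb
    exact Finset.sum_eq_zero fun r _ => if_neg hb
  · intro h
    exact absurd (Finset.mem_univ _) h

/-- the operator between the copies of the coordinates -/
def P7B {ι κ W W1 : Type} [MulAction G W1] {N : ℕ} (B : ι → (κ × G →₀ ℂ)) (wi : ι → W)
    (wk : κ → W) (q : W → Fin N → W1) (a : ι × Fin N) : (κ × Fin N) × G →₀ ℂ :=
  ∑ u ∈ (B a.1).support, ∑ r' : Fin N,
    if q (wk u.1) r' = u.2 • q (wi a.1) a.2 then Finsupp.single ((u.1, r'), u.2) (B a.1 u) else 0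

lemma P7B_apply {ι κ W W1 : Type} [Fintype ι] [Fintype κ] [MulAction G W1] {N : ℕ}
    (B : ι → (κ × G →₀ ℂ)) (wi : ι → W) (wk : κ → W) (q : W → Fin N → W1)
    (y : L2 (κ × Fin N) G) (i : ι) (r : Fin N) (g : G) :
    mulR (P7B B wi wk q) y ((i, r), g) = ∑ u ∈ (B i).support, ∑ r' : Fin N,
      if q (wk u.1) r' = u.2 • q (wi i) r then B i u * y ((u.1, r'), g * u.2⁻¹) else 0 := by
  rw [mulR_apply]
  unfold P7B
  rw [ev_finsetSum]
  refine Finset.sum_congr rfl fun u _ => ?_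
  rw [ev_finsetSum]
  refine Finset.sum_congr rfl fun r' _ => ?_
  by_cases h : q (wk u.1) r' = u.2 • q (wi i) r
  · rw [if_pos h, if_pos h, ev_single]
  · rw [if_neg h, if_neg h, ev_zero]

lemma P7_comm {ι κ W W1 : Type} [Fintype ι] [Fintype κ] [MulAction G W1] {N : ℕ}
    (B : ι → (κ × G →₀ ℂ)) (wi : ι → W) (wk : κ → W) (q : W → Fin N → W1)
    (hq : ∀ w, Function.Injective (q w)) (y : L2 (κ × Fin N) G)
    (hy : ∀ i, ∀ u ∈ (B i).support, ∀ r', u.2⁻¹ • q (wk u.1) r' ∉ Set.range (q (wi i)) →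
      ∀ g, y ((u.1, r'), g) = 0) :
    fT (Prod.fst : ι × Fin N → ι) (mulR (P7B B wi wk q) y) =
      mulR B (fT (Prod.fst : κ × Fin N → κ) y) := by
  ext ⟨i, g⟩
  rw [P7_fT_fst, mulR_apply, ev_def]
  simp only [P7B_apply]
  rw [Finset.sum_comm]
  refine Finset.sum_congr rfl fun u hu => ?_
  rw [Finset.sum_comm, P7_fT_fst, Finset.mul_sum]
  refine Finset.sum_congr rfl fun r' _ => ?_
  by_cases h : u.2⁻¹ • q (wk u.1) r' ∈ Set.range (q (wi i))
  · obtain ⟨r0, hr0⟩ := h
    have h1 : ∀ r, q (wk u.1) r' = u.2 • q (wi i) r ↔ r = r0 := by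
      intro r
      constructor
      · intro h2
        apply hq (wi i)
        rw [hr0, h2, inv_smul_smul]
      · intro h2
        rw [h2, hr0, smul_inv_smul]
    simp only [h1]
    rw [Finset.sum_ite_eq']
    rw [if_pos (Finset.mem_univ _)]
  · rw [hy i u hu r' h, mul_zero]
    exact Finset.sum_eq_zero fun r _ => ite_self _

lemma P7B_loc {M ι κ W W1 : Type} [Fintype ι] [Fintype κ] [MulAction G M] [MulAction G W]
    [MulAction G W1] {N : ℕ}
    (B : ι → (κ × G →₀ ℂ)) (lab : ι → M × W) (labk : κ → M × W) (q : W → Fin N → W1)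
    (hB1 : ∀ i, CoefIn k (B i)) (hB2 : ∀ i, ∀ u ∈ (B i).support, u.2⁻¹ • labk u.1 = lab i) :
    LocOp k (fun a : κ × Fin N => ((labk a.1).1, q (labk a.1).2 a.2))
      (fun a : ι × Fin N => ((lab a.1).1, q (lab a.1).2 a.2))
      (mulR (P7B B (fun i => (lab i).2) (fun i => (labk i).2) q)) := by
  refine ⟨_, fun a => ?_, fun a v hv => ?_, rfl⟩
  · refine coefIn_sum _ _ _ fun u _ => coefIn_sum _ _ _ fun r' _ => ?_
    split_ifs
    · exact coefIn_single _ _ _ (hB1 a.1 u)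
    · exact fun _ => k.zero_mem
  · unfold P7B at hv
    rw [Finsupp.mem_support_iff, Finsupp.finsetSum_apply] at hv
    obtain ⟨u, hu, h1⟩ := Finset.exists_ne_zero_of_sum_ne_zero hv
    rw [Finsupp.finsetSum_apply] at h1
    obtain ⟨r', _, h2⟩ := Finset.exists_ne_zero_of_sum_ne_zero h1
    by_cases h3 : q (labk u.1).2 r' = u.2 • q (lab a.1).2 a.2
    · rw [if_pos h3, Finsupp.single_apply] at h2
      by_cases h4 : ((u.1, r'), u.2) = v
      · subst h4
        have h5 := congrArg Prod.fst (hB2 a.1 u hu)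
        rw [Prod.smul_fst] at h5
        refine Prod.ext ?_ ?_
        · exact h5
        · show u.2⁻¹ • q (labk u.1).2 r' = q (lab a.1).2 a.2
          rw [h3, inv_smul_smul]
      · rw [if_neg h4] at h2
        exact absurd rfl h2
    · rw [if_neg h3] at h2
      exact absurd rfl h2

lemma P7_sum {ι : Type} [Fintype ι] (N : ℕ) (X : Submodule ℂ (L2 ι G)) :
    ∑ a : ι × Fin N, ltr X ((Prod.fst a : ι), (1 : G)) = N * dm X := by
  rw [Fintype.sum_prod_type]
  simp only [Finset.sum_const, Finset.card_univ, Fintype.card_fin, nsmul_eq_mul]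
  rw [← Finset.mul_sum]
  rfl

end P7aux

section Foel

variable {G : Type} [Group G] {k : Subring ℂ} {M W W1 : Type} [MulAction G M] [MulAction G W]
  [MulAction G W1]

lemma P7_mem_bdC {ι κ μ M : Type} [Fintype μ] [MulAction G M] {p : κ → ι} {ℓ : κ → M}
    {A : μ → (ι × G →₀ ℂ)} {C : Finset M} {r : μ × C} (hr : r ∈ bdC p ℓ A C) :
    (∃ u ∈ (A r.1).support, ∃ a, p a = u.1 ∧ ℓ a = u.2 • r.2.1) ∧
      ∃ u ∈ (A r.1).support, ¬ ∃ a, p a = u.1 ∧ ℓ a = u.2 • r.2.1 :=
  (Finset.mem_filter.mp hr).2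

/-- counting the boundary rows -/
lemma P7_count_bd {κ μ : Type} [Fintype κ] [Fintype μ] (labk : κ → M × W) (labm : μ → M × W)
    (A : μ → (κ × G →₀ ℂ)) (hA2 : ∀ j, ∀ u ∈ (A j).support, u.2⁻¹ • labk u.1 = labm j)
    {N : ℕ} (q : W → Fin N → W1) (ε : ℝ) (C : Finset W1)
    (h : ∀ j, ∀ u ∈ (A j).support, ∀ u' ∈ (A j).support,
      (((Finset.univ.filter fun r : Fin N => (u'.2 * u.2⁻¹) • q (labk u.1).2 r ∉
        Set.range (q ((u'.2 * u.2⁻¹) • (labk u.1).2))).card : ℕ) : ℝ) ≤ ε * N) :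
    ((bdC (Prod.fst : κ × Fin N → κ) (fun a => q (labk a.1).2 a.2) A C).card : ℝ) ≤
      (∑ j, ((A j).support.card : ℝ) * ((A j).support.card : ℝ)) * (ε * N) := by
  have h1 : ((bdC (Prod.fst : κ × Fin N → κ) (fun a => q (labk a.1).2 a.2) A C).image
      fun r => ((r.1, r.2.1) : μ × W1)) ⊆ (Finset.univ : Finset μ).biUnion fun j =>
        ((A j).support ×ˢ (A j).support).biUnion fun uu => (Finset.univ.filter fun r : Fin N =>
          (uu.2.2 * uu.1.2⁻¹) • q (labk uu.1.1).2 r ∉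
            Set.range (q ((uu.2.2 * uu.1.2⁻¹) • (labk uu.1.1).2))).image
              fun r => ((j, uu.1.2⁻¹ • q (labk uu.1.1).2 r) : μ × W1) := by
    intro x hx
    obtain ⟨⟨j, c⟩, hr, rfl⟩ := Finset.mem_image.mp hx
    obtain ⟨⟨u, hu, ⟨b, r⟩, hb, hc⟩, ⟨u', hu', hn⟩⟩ := P7_mem_bdC hr
    simp only at hb hc
    subst hb
    refine Finset.mem_biUnion.mpr ⟨j, Finset.mem_univ _, ?_⟩
    refine Finset.mem_biUnion.mpr ⟨(u, u'), Finset.mem_product.mpr ⟨hu, hu'⟩, ?_⟩
    refine Finset.mem_image.mpr ⟨r, Finset.mem_filter.mpr ⟨Finset.mem_univ _, ?_⟩, ?_⟩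
    · rintro ⟨r', hr'⟩
      apply hn
      refine ⟨(u'.1, r'), rfl, ?_⟩
      simp only at hr' ⊢
      have e1 : (u'.2 * u.2⁻¹) • (labk u.1).2 = (labk u'.1).2 := by
        have h2 := congrArg Prod.snd (hA2 j u hu)
        have h3 := congrArg Prod.snd (hA2 j u' hu')
        rw [Prod.smul_snd] at h2 h3
        rw [mul_smul, h2, ← h3, smul_inv_smul]
      rw [e1, hc, mul_smul, inv_smul_smul] at hr'
      exact hr'
    · simp only
      rw [hc, inv_smul_smul]
  have hinj : Function.Injective fun r : μ × C => ((r.1, r.2.1) : μ × W1) := by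
    rintro ⟨j, c⟩ ⟨j', c'⟩ h2
    simp only [Prod.mk.injEq] at h2
    exact Prod.ext h2.1 (Subtype.ext h2.2)
  rw [← Finset.card_image_of_injective _ hinj]
  have h2 := (Finset.card_le_card h1).trans Finset.card_biUnion_le
  have h3 : ((((bdC (Prod.fst : κ × Fin N → κ) (fun a => q (labk a.1).2 a.2) A C).image
      fun r => ((r.1, r.2.1) : μ × W1)).card : ℕ) : ℝ) ≤ _ := Nat.cast_le.mpr h2
  refine h3.trans ?_
  rw [Nat.cast_sum, Finset.sum_mul]
  refine Finset.sum_le_sum fun j _ => ?_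
  refine (Nat.cast_le.mpr Finset.card_biUnion_le).trans ?_
  rw [Nat.cast_sum]
  have h4 : ∀ uu ∈ (A j).support ×ˢ (A j).support, ((((Finset.univ.filter fun r : Fin N =>
          (uu.2.2 * uu.1.2⁻¹) • q (labk uu.1.1).2 r ∉
            Set.range (q ((uu.2.2 * uu.1.2⁻¹) • (labk uu.1.1).2))).image
              fun r => ((j, uu.1.2⁻¹ • q (labk uu.1.1).2 r) : μ × W1)).card : ℕ) : ℝ) ≤ ε * N := by
    intro uu huu
    refine (Nat.cast_le.mpr Finset.card_image_le).trans ?_
    exact h j uu.1 (Finset.mem_product.mp huu).1 uu.2 (Finset.mem_product.mp huu).2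
  refine (Finset.sum_le_sum h4).trans ?_
  rw [Finset.sum_const, Finset.card_product, nsmul_eq_mul, Nat.cast_mul]

/-- counting the coordinates which are not interior -/
lemma P7_count_int {ι κ : Type} [Fintype ι] [Fintype κ] (lab : ι → M × W) (labk : κ → M × W)
    (B : ι → (κ × G →₀ ℂ)) (hB2 : ∀ i, ∀ u ∈ (B i).support, u.2⁻¹ • labk u.1 = lab i)
    {N : ℕ} (q : W → Fin N → W1) (ε : ℝ)
    (h : ∀ i, ∀ u ∈ (B i).support,
      (((Finset.univ.filter fun r : Fin N => u.2⁻¹ • q (labk u.1).2 r ∉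
        Set.range (q (u.2⁻¹ • (labk u.1).2))).card : ℕ) : ℝ) ≤ ε * N) :
    (((Finset.univ.filter fun a : κ × Fin N => ∃ i, ∃ u ∈ (B i).support, u.1 = a.1 ∧
      u.2⁻¹ • q (labk u.1).2 a.2 ∉ Set.range (q (lab i).2)).card : ℕ) : ℝ) ≤
      (∑ i, ((B i).support.card : ℝ)) * (ε * N) := by
  have h1 : (Finset.univ.filter fun a : κ × Fin N => ∃ i, ∃ u ∈ (B i).support, u.1 = a.1 ∧
      u.2⁻¹ • q (labk u.1).2 a.2 ∉ Set.range (q (lab i).2)) ⊆
      (Finset.univ : Finset ι).biUnion fun i => (B i).support.biUnion fun u =>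
        (Finset.univ.filter fun r : Fin N => u.2⁻¹ • q (labk u.1).2 r ∉
        Set.range (q (u.2⁻¹ • (labk u.1).2))).image fun r => ((u.1, r) : κ × Fin N) := by
    rintro ⟨b, r⟩ hx
    obtain ⟨-, i, u, hu, hb, hn⟩ := Finset.mem_filter.mp hx
    simp only at hb hn
    subst hb
    refine Finset.mem_biUnion.mpr ⟨i, Finset.mem_univ _, ?_⟩
    refine Finset.mem_biUnion.mpr ⟨u, hu, ?_⟩
    refine Finset.mem_image.mpr ⟨r, Finset.mem_filter.mpr ⟨Finset.mem_univ _, ?_⟩, rfl⟩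
    have h2 := congrArg Prod.snd (hB2 i u hu)
    rw [Prod.smul_snd] at h2
    rw [h2]
    exact hn
  refine (Nat.cast_le.mpr ((Finset.card_le_card h1).trans Finset.card_biUnion_le)).trans ?_
  rw [Nat.cast_sum, Finset.sum_mul]
  refine Finset.sum_le_sum fun i _ => ?_
  refine (Nat.cast_le.mpr Finset.card_biUnion_le).trans ?_
  rw [Nat.cast_sum]
  refine (Finset.sum_le_sum fun u hu =>
    (Nat.cast_le.mpr Finset.card_image_le).trans (h i u hu)).trans ?_
  rw [Finset.sum_const, nsmul_eq_mul]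

/-- P7: approximation of a rational subspace by rational subspaces along almost invariant subsets
of the fibres -/
theorem rat_foel {ϖ : W1 → W} (hϖ : Eqv G ϖ) {ι : Type} [Fintype ι] {lab : ι → M × W}
    {X : Submodule ℂ (L2 ι G)} (hX : Rat k lab X) :
    ∃ (T : Finset W) (F : Finset G) (c : ℝ), 0 ≤ c ∧
      ∀ (N : ℕ) (q : W → Fin N → W1) (ε : ℝ), (∀ w r, ϖ (q w r) = w) →
        (∀ w, Function.Injective (q w)) →
        (∀ g ∈ F, ∀ w ∈ T, g • w ∈ T →
          (((Finset.univ.filter fun r : Fin N => g • q w r ∉ Set.range (q (g • w))).card : ℕ) : ℝ)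
            ≤ ε * N) →
        ∃ X' : Submodule ℂ (L2 (ι × Fin N) G),
          Rat k (fun a : ι × Fin N => ((lab a.1).1, q (lab a.1).2 a.2)) X' ∧
          (∀ y ∈ X', fT (Prod.fst : ι × Fin N → ι) y ∈ X) ∧ N * (dm X - c * ε) ≤ dm X' := by
  obtain ⟨κ, μ, _, _, labk, labm, S0, T0, ⟨A, hA1, hA2, rfl⟩, ⟨B, hB1, hB2, rfl⟩, rfl⟩ := hX
  refine ⟨(Finset.univ.image fun b => (labk b).2) ∪ ((Finset.univ.image fun b => (labm b).2) ∪
      (Finset.univ.image fun b => (lab b).2)),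
    ((Finset.univ : Finset μ).biUnion fun j => ((A j).support ×ˢ (A j).support).image
      fun uu => uu.2.2 * uu.1.2⁻¹) ∪ ((Finset.univ : Finset ι).biUnion fun i =>
        (B i).support.image fun u => u.2⁻¹),
    (∑ j, ((A j).support.card : ℝ) * ((A j).support.card : ℝ)) + ∑ i, ((B i).support.card : ℝ),
    by positivity, ?_⟩
  intro N q ε hq1 hq2 hq3
  obtain ⟨ℓ, hℓ⟩ : ∃ ℓ : κ × Fin N → W1, ℓ = fun a => q (labk a.1).2 a.2 := ⟨_, rfl⟩
  have hinj : ∀ x y : κ × Fin N, Prod.fst x = Prod.fst y → ℓ x = ℓ y → x = y := by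
    rintro ⟨x1, x2⟩ ⟨y1, y2⟩ h3 h4
    simp only at h3
    subst h3
    rw [hℓ] at h4
    simp only at h4
    rw [hq2 _ h4]
  obtain ⟨C, hC⟩ : ∃ C : Finset W1, CovC (Prod.fst : κ × Fin N → κ) ℓ A C := by
    refine ⟨(Finset.univ : Finset μ).biUnion fun j => (A j).support.biUnion fun u =>
      Finset.univ.image fun a => u.2⁻¹ • ℓ a, ?_⟩
    intro j u hu a _
    exact Finset.mem_biUnion.mpr ⟨j, Finset.mem_univ _, Finset.mem_biUnion.mpr ⟨u, hu,
      Finset.mem_image.mpr ⟨a, Finset.mem_univ _, rfl⟩⟩⟩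
  have hS' : LocOp k (fun a : κ × Fin N => ((labk a.1).1, ℓ a))
      (fun r : μ × C => ((labm r.1).1, r.2.1)) (mulR (fAC (Prod.fst : κ × Fin N → κ) ℓ A C)) :=
    fam_loc (Prod.fst : κ × Fin N → κ) ℓ A C (fun b => (labk b).1) (fun j => (labm j).1) hA1
      fun j u hu => congrArg Prod.fst (hA2 j u hu)
  have hT' := P7B_loc (k := k) B lab labk q hB1 hB2
  -- the coordinates which are not interior
  obtain ⟨NI, hNI⟩ : ∃ NI : Finset (κ × Fin N), NI = Finset.univ.filter fun a : κ × Fin N =>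
      ∃ i, ∃ u ∈ (B i).support, u.1 = a.1 ∧
        u.2⁻¹ • q (labk u.1).2 a.2 ∉ Set.range (q (lab i).2) := ⟨_, rfl⟩
  have hZ : LocOp k (fun a : κ × Fin N => ((labk a.1).1, q (labk a.1).2 a.2))
      (fun a : NI => ((labk a.1.1).1, q (labk a.1.1).2 a.1.2))
      (LFT.crd (G := G) (fun a : NI => a.1) Set.univ) := LocOp.crd _ _ fun a _ => rfl
  have hZ0 : ∀ y : L2 (κ × Fin N) G, y ∈ kr (LFT.crd (G := G) (fun a : NI => a.1) Set.univ) →
      ∀ i, ∀ u ∈ (B i).support, ∀ r', u.2⁻¹ • q (labk u.1).2 r' ∉ Set.range (q (lab i).2) →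
      ∀ g, y ((u.1, r'), g) = 0 := by
    intro y hy i u hu r' hn g
    have h1 : (u.1, r') ∈ NI := by
      rw [hNI]
      exact Finset.mem_filter.mpr ⟨Finset.mem_univ _, i, u, hu, rfl, hn⟩
    have h2 : LFT.crd (G := G) (fun a : NI => a.1) Set.univ y (⟨(u.1, r'), h1⟩, g) = 0 := by
      rw [mem_kr.mp hy]
      rfl
    rw [crd_apply, if_pos (Set.mem_univ _)] at h2
    exact h2
  have hcomm : ∀ y : L2 (κ × Fin N) G, y ∈ kr (LFT.crd (G := G) (fun a : NI => a.1) Set.univ) →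
      fT (Prod.fst : ι × Fin N → ι) (mulR (P7B B (fun i => (lab i).2) (fun i => (labk i).2) q) y) =
      mulR B (fT (Prod.fst : κ × Fin N → κ) y) := fun y hy =>
    P7_comm B (fun i => (lab i).2) (fun i => (labk i).2) q hq2 y (hZ0 y hy)
  have hlabE : (fun a : κ × Fin N => ((labk a.1).1, ℓ a)) =
      fun a : κ × Fin N => ((labk a.1).1, q (labk a.1).2 a.2) := by
    rw [hℓ]
  rw [hlabE] at hS'
  have cS := CI.kr hS'.equivar
  have cZ := CI.kr hZ.equivar
  have cT := CI.kr hT'.equivar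
  refine ⟨imc (mulR (P7B B (fun i => (lab i).2) (fun i => (labk i).2) q))
    (kr (mulR (fAC (Prod.fst : κ × Fin N → κ) ℓ A C)) ⊓
      kr (LFT.crd (G := G) (fun a : NI => a.1) Set.univ)),
    Rat.imc hT' (Rat.inf (Rat.kr hS') (Rat.kr hZ)), ?_, ?_⟩
  · have h1 : imc (mulR (P7B B (fun i => (lab i).2) (fun i => (labk i).2) q))
      (kr (mulR (fAC (Prod.fst : κ × Fin N → κ) ℓ A C)) ⊓
        kr (LFT.crd (G := G) (fun a : NI => a.1) Set.univ)) ≤
      (imc (mulR B) (kr (mulR A))).comap (fT (Prod.fst : ι × Fin N → ι)).toLinearMap := by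
      apply imc_le
      · exact (Submodule.isClosed_topologicalClosure _).preimage (fT _).continuous
      · intro y hy
        show fT _ _ ∈ imc (mulR B) (kr (mulR A))
        rw [hcomm y hy.2]
        exact mem_imc _ (sum_fam _ _ hinj A hC hy.1)
    exact fun y hy => h1 hy
  · have e1 := dm_imc hT'.equivar (cS.inf cZ)
    have cT0 : CI (kr (mulR B)) := CI.kr (mulR_equivar B)
    have cS0 : CI (kr (mulR A)) := CI.kr (mulR_equivar A)
    have lS : Loc (pV ℓ) (kr (mulR (fAC (Prod.fst : κ × Fin N → κ) ℓ A C))) := by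
      have h3 := HI.loc_map (Prod.snd : M × W1 → W1) (fun _ _ => rfl) cS (loc_kr hS')
      rw [hℓ] at h3 ⊢
      exact h3
    have lZ : Loc (pV ℓ) (kr (LFT.crd (G := G) (fun a : NI => a.1) Set.univ)) := by
      have h3 := HI.loc_map (Prod.snd : M × W1 → W1) (fun _ _ => rfl) cZ (loc_kr hZ)
      rw [hℓ]
      exact h3
    have lT : Loc (pV ℓ) (kr (mulR (P7B B (fun i => (lab i).2) (fun i => (labk i).2) q))) := by
      have h3 := HI.loc_map (Prod.snd : M × W1 → W1) (fun _ _ => rfl) cT (loc_kr hT')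
      rw [hℓ]
      exact h3
    have e2 := fam_upper (Prod.fst : κ × Fin N → κ) ℓ hinj ((cS.inf cZ).inf cT)
      (fun x hx w => ⟨⟨lS x hx.1.1 w, lZ x hx.1.2 w⟩, lT x hx.2 w⟩) (cS0.inf cT0)
      (fun z hz => ⟨sum_fam _ _ hinj A hC hz.1.1, by
        show mulR B (fT (Prod.fst : κ × Fin N → κ) z) = 0
        rw [← hcomm z hz.1.2, mem_kr.mp hz.2, map_zero]⟩)
    rw [P7_sum] at e2
    have e3 := fam_lower (Prod.fst : κ × Fin N → κ) ℓ hinj A C
    rw [P7_sum] at e3
    have e4 := dm_imc hZ.equivar cS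
    have e5 := dm_le_card (imc (LFT.crd (G := G) (fun a : NI => a.1) Set.univ)
      (kr (mulR (fAC (Prod.fst : κ × Fin N → κ) ℓ A C))))
    have e6 := dm_imc (mulR_equivar B) cS0
    have e7 : ((bdC (Prod.fst : κ × Fin N → κ) ℓ A C).card : ℝ) ≤
        (∑ j, ((A j).support.card : ℝ) * ((A j).support.card : ℝ)) * (ε * N) := by
      rw [hℓ]
      apply P7_count_bd labk labm A hA2 q ε C
      intro j u hu u' hu'
      apply hq3
      · apply Finset.mem_union_left
        exact Finset.mem_biUnion.mpr ⟨j, Finset.mem_univ _, Finset.mem_image.mpr ⟨(u, u'),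
          Finset.mem_product.mpr ⟨hu, hu'⟩, rfl⟩⟩
      · apply Finset.mem_union_left
        exact Finset.mem_image.mpr ⟨u.1, Finset.mem_univ _, rfl⟩
      · apply Finset.mem_union_left
        have h2 := congrArg Prod.snd (hA2 j u hu)
        have h3 := congrArg Prod.snd (hA2 j u' hu')
        rw [Prod.smul_snd] at h2 h3
        refine Finset.mem_image.mpr ⟨u'.1, Finset.mem_univ _, ?_⟩
        rw [mul_smul, h2, ← h3, smul_inv_smul]
    have e8 : (NI.card : ℝ) ≤ (∑ i, ((B i).support.card : ℝ)) * (ε * N) := by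
      rw [hNI]
      apply P7_count_int lab labk B hB2 q ε
      intro i u hu
      apply hq3
      · apply Finset.mem_union_right
        exact Finset.mem_biUnion.mpr ⟨i, Finset.mem_univ _, Finset.mem_image.mpr ⟨u, hu, rfl⟩⟩
      · apply Finset.mem_union_left
        exact Finset.mem_image.mpr ⟨u.1, Finset.mem_univ _, rfl⟩
      · apply Finset.mem_union_right
        apply Finset.mem_union_right
        have h2 := congrArg Prod.snd (hB2 i u hu)
        rw [Prod.smul_snd] at h2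
        exact Finset.mem_image.mpr ⟨i, Finset.mem_univ _, h2.symm⟩
    have e9 : (Fintype.card NI : ℝ) = NI.card := by
      rw [Fintype.card_coe]
    rw [e9] at e5
    have e10 : (N : ℝ) * (dm (imc (mulR B) (kr (mulR A))) + dm (kr (mulR A) ⊓ kr (mulR B))) =
        N * dm (kr (mulR A)) := by rw [e6]
    nlinarith [e1, e2, e3, e4, e5, e7, e8, e10]

end Foel

end Pool.Agent.EH
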