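import Pool.Agent.EH.P1
import Pool.Agent.EH.P6
import Pool.Agent.EH.P7

set_option autoImplicit false
set_option linter.unusedSectionVars false

noncomputable section

open scoped InnerProductSpace ENNReal Topology
open Classical Filter ContinuousLinearMap

namespace Pool.Agent.EH

open Pool.Agent.VN Pool.Agent.LFT Pool.Agent.HI

section P8aux

variable {G : Type} [Group G] {k : Subring ℂ}

/-- the sum over the fibres is local -/
lemma P8_fT_loc {M ι κ : Type} [MulAction G M] [Fintype ι] [Fintype κ] (p : κ → ι) (lab : ι → M) :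
    LocOp k (fun a => lab (p a)) lab (fT (G := G) p) := by
  refine ⟨_, fun i => ?_, fun i q hq => ?_, rfl⟩
  · refine coefIn_sum _ _ _ fun a _ => ?_
    by_cases h : p a = i
    · rw [if_pos h]
      exact coefIn_single _ _ _ k.one_mem
    · rw [if_neg h]
      exact fun _ => k.zero_mem
  · rw [Finsupp.mem_support_iff, Finsupp.finsetSum_apply] at hq
    obtain ⟨a, _, ha⟩ := Finset.exists_ne_zero_of_sum_ne_zero hq
    by_cases h : p a = i
    · rw [if_pos h, Finsupp.single_apply] at ha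
      by_cases h2 : (a, (1 : G)) = q
      · subst h2
        show (1 : G)⁻¹ • lab (p a) = lab i
        rw [inv_one, one_smul, h]
      · rw [if_neg h2] at ha
        exact absurd rfl ha
    · rw [if_neg h] at ha
      exact absurd rfl ha

/-- the sum of the local traces over copies of the coordinates -/
lemma P8_sum {ι : Type} [Fintype ι] (N : ℕ) (X : Submodule ℂ (L2 ι G)) :
    ∑ a : ι × Fin N, ltr X ((Prod.fst a : ι), (1 : G)) = N * dm X := by
  rw [Fintype.sum_prod_type]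
  simp only [Finset.sum_const, Finset.card_univ, Fintype.card_fin, nsmul_eq_mul]
  rw [← Finset.mul_sum]
  rfl

/-- closed sums of local subspaces are local -/
lemma P8_loc_csup {ι M : Type} [MulAction G M] {lab : ι → M} {X Y : Submodule ℂ (L2 ι G)}
    (hX : Loc (pV lab) X) (hY : Loc (pV lab) Y) : Loc (pV lab) (csup X Y) := by
  apply loc_closure
  intro x hx m
  obtain ⟨y, hy, z, hz, rfl⟩ := Submodule.mem_sup.mp hx
  exact Submodule.mem_sup.mpr ⟨_, hX y hy m, _, hY z hz m, by rw [map_add]⟩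

/-- images of closed sums -/
lemma P8_csup_maps {ι κ : Type} (T : L2 κ G →L[ℂ] L2 ι G) {X Y : Submodule ℂ (L2 κ G)}
    {X' Y' : Submodule ℂ (L2 ι G)} (hX : ∀ x ∈ X, T x ∈ X') (hY : ∀ y ∈ Y, T y ∈ Y') :
    ∀ z ∈ csup X Y, T z ∈ csup X' Y' := by
  have h3 : csup X Y ≤ (csup X' Y').comap T.toLinearMap := by
    apply csup_le
    · exact (Submodule.isClosed_topologicalClosure (X' ⊔ Y')).preimage T.continuous
    · intro y hy
      exact le_csup_left _ _ (hX y hy)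
    · intro y hy
      exact le_csup_right _ _ (hY y hy)
  intro z hz
  exact h3 hz

end P8aux

section Foel

variable {G : Type} [Group G] {k : Subring ℂ} {D A B W W1 : Type} [MulAction G D] [MulAction G A]
  [MulAction G B] [MulAction G W] [MulAction G W1]

/-- P8: the formula passes along maps with almost invariant subsets of the fibres -/
theorem af_foel {a : D → A} {b : D → B} (ha : Eqv G a) (hb : Eqv G b) {ϖ : W1 → W}
    (hϖ : Eqv G ϖ) (hF : Foel G ϖ)
    (hAF : AF k G (Prod.map a id : D × W1 → A × W1) (Prod.map b id : D × W1 → B × W1))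
    (hIA : Int0 k G (A × W1)) (hIB : Int0 k G (B × W1)) :
    AF k G (Prod.map a id : D × W → A × W) (Prod.map b id : D × W → B × W) := by
  intro ι _ d K0 K1 h0 h1 ε hε
  obtain ⟨T0, F0, c0, hc0, H0⟩ := rat_foel (M := A) hϖ h0
  obtain ⟨T1, F1, c1, hc1, H1⟩ := rat_foel (M := B) hϖ h1
  obtain ⟨ε', hε'⟩ : ∃ ε' : ℝ, ε' = ε / (c0 + c1 + 1) := ⟨_, rfl⟩
  have hpos : 0 < c0 + c1 + 1 := by linarith
  have he' : 0 < ε' := by
    rw [hε']
    exact div_pos hε hpos
  have hee : ε' * (c0 + c1 + 1) = ε := by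
    rw [hε']
    exact div_mul_cancel₀ _ hpos.ne'
  obtain ⟨N, q, hN, hq1, hq2, hq3⟩ := hF (T0 ∪ T1) (F0 ∪ F1) ε' he'
  obtain ⟨K0', hK0, hs0, hd0⟩ := H0 N q ε' hq1 hq2 (fun g hg w hw hgw =>
    hq3 g (Finset.mem_union_left _ hg) w (Finset.mem_union_left _ hw)
      (Finset.mem_union_left _ hgw))
  obtain ⟨K1', hK1, hs1, hd1⟩ := H1 N q ε' hq1 hq2 (fun g hg w hw hgw =>
    hq3 g (Finset.mem_union_right _ hg) w (Finset.mem_union_right _ hw)
      (Finset.mem_union_right _ hgw))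
  have ha' : Eqv G (Prod.map a id : D × W1 → A × W1) := fun g m => Prod.ext (ha g m.1) rfl
  have hb' : Eqv G (Prod.map b id : D × W1 → B × W1) := fun g m => Prod.ext (hb g m.1) rfl
  obtain ⟨S', hS', hle, hle2⟩ := af_exact ha' hb' hAF hIA hIB
    (fun x : ι × Fin N => ((d x.1).1, q (d x.1).2 x.2)) (K0 := K0') (K1 := K1') hK0 hK1
  obtain ⟨p, hp⟩ : ∃ p : ι × Fin N → ι, p = Prod.fst := ⟨_, rfl⟩
  have hloc : LocOp k (fun x : ι × Fin N => d (p x)) d (fT (G := G) p) := P8_fT_loc p d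
  have hrS : Rat k (fun x : ι × Fin N => d (p x)) S' := by
    have h3 := hS'.mapLab (Prod.map id ϖ : D × W1 → D × W) (fun g m => Prod.ext rfl (hϖ g m.2))
    have e : (fun x : ι × Fin N => (Prod.map id ϖ : D × W1 → D × W)
        ((d x.1).1, q (d x.1).2 x.2)) = fun x => d (p x) := by
      funext x
      rw [hp]
      exact Prod.ext rfl (hq1 _ _)
    rw [e] at h3
    exact h3
  have hRS := Rat.imc hloc hrS
  refine ⟨imc (fT p) S', hRS, ?_⟩
  obtain ⟨S, hS⟩ : ∃ S : Submodule ℂ (L2 ι G), S = imc (fT p) S' := ⟨_, rfl⟩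
  rw [← hS] at hRS ⊢
  have cS : CI S := hRS.ci
  have cK0 : CI K0 := h0.ci
  have cK1 : CI K1 := h1.ci
  have cK0' : CI K0' := hK0.ci
  have cK1' : CI K1' := hK1.ci
  rw [← hp] at hs0 hs1
  have hSm : ∀ y ∈ S', fT p y ∈ S := fun y hy => by
    rw [hS]
    exact mem_imc _ hy
  -- step 1
  have e1 : S ≤ csup (K0 ⊓ S) (K1 ⊓ S) := by
    rw [hS]
    apply imc_le (CI.csup (cK0.inf (hS ▸ cS)).inv (cK1.inf (hS ▸ cS)).inv).cl
    intro x hx
    rw [← hS]
    exact P8_csup_maps (fT p) (X := K0' ⊓ S') (Y := K1' ⊓ S') (X' := K0 ⊓ S) (Y' := K1 ⊓ S)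
      (fun y hy => ⟨hs0 y hy.1, hSm y hy.2⟩) (fun y hy => ⟨hs1 y hy.1, hSm y hy.2⟩) x (hle2 hx)
  have e2 := dm_csup (cK0.inf cS) (cK1.inf cS)
  have e3 := dm_mono e1
  -- step 2
  obtain ⟨ℓ, hℓ⟩ : ∃ ℓ : ι × Fin N → W1, ℓ = fun x => q (d x.1).2 x.2 := ⟨_, rfl⟩
  have hinj : ∀ x y, p x = p y → ℓ x = ℓ y → x = y := by
    rintro ⟨x1, x2⟩ ⟨y1, y2⟩ h3 h4
    rw [hp] at h3
    simp only at h3
    subst h3
    rw [hℓ] at h4
    simp only at h4
    rw [hq2 _ h4]
  have l0 : Loc (pV ℓ) K0' := by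
    have h3 := HI.loc_map (Prod.snd : A × W1 → W1) (fun _ _ => rfl) cK0' hK0.loc
    rw [hℓ]
    exact h3
  have l1 : Loc (pV ℓ) K1' := by
    have h3 := HI.loc_map (Prod.snd : B × W1 → W1) (fun _ _ => rfl) cK1' hK1.loc
    rw [hℓ]
    exact h3
  have e4 := fam_upper p ℓ hinj (cK0'.inf cK1')
    (fun x hx w => ⟨l0 x hx.1 w, l1 x hx.2 w⟩) ((cK0.inf cS).inf (cK1.inf cS))
    (fun z hz => ⟨⟨hs0 z hz.1, hSm z (hle hz)⟩, ⟨hs1 z hz.2, hSm z (hle hz)⟩⟩)
  have e5 := fam_upper p ℓ hinj (CI.csup cK0'.inv cK1'.inv) (P8_loc_csup l0 l1)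
    (CI.csup cK0.inv cK1.inv) (P8_csup_maps (fT p) hs0 hs1)
  rw [hp, P8_sum] at e4 e5
  have e6 := dm_csup cK0' cK1'
  have e7 := dm_csup cK0 cK1
  have hN' : (0 : ℝ) < N := by exact_mod_cast hN
  have e8 : (N : ℝ) * (dm (K0 ⊓ K1) - (c0 + c1) * ε') ≤
      N * dm ((K0 ⊓ S) ⊓ (K1 ⊓ S)) := by
    refine le_trans ?_ e4
    have e9 : dm (K0' ⊓ K1') = dm K0' + dm K1' - dm (csup K0' K1') := by linarith
    have e10 : dm (K0 ⊓ K1) = dm K0 + dm K1 - dm (csup K0 K1) := by linarith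
    rw [e9, e10]
    nlinarith [hd0, hd1, e5]
  have e9 := le_of_mul_le_mul_left e8 hN'
  have e10 : (c0 + c1) * ε' ≤ ε := by nlinarith [hee, he']
  linarith

end Foel

end Pool.Agent.EH
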