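import Pool.Agent.EH.Defs

set_option autoImplicit false
set_option linter.unusedSectionVars false

noncomputable section

open scoped InnerProductSpace ENNReal Topology
open Classical Filter ContinuousLinearMap

namespace Pool.Agent.EH

open Pool.Agent.VN Pool.Agent.LFT Pool.Agent.HI

section VAb

/-- a finitely generated commutative group maps to a free abelian group of finite rank with
finite kernel -/
private lemma P18_free {A : Type} [CommGroup A] (hfg : Group.FG A) :
    ∃ (m : ℕ) (φ : A →* Multiplicative (Fin m → ℤ)), Finite φ.ker := by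
  obtain ⟨n, ι, hι, p, hp, e, ⟨f⟩⟩ := AddCommGroup.equiv_free_prod_directSum_zmod (Additive A)
  refine ⟨n, AddMonoidHom.toMultiplicativeRight
    ((Finsupp.coeFnAddHom (ι := Fin n) (M := ℤ)).comp
      ((AddMonoidHom.fst (Fin n →₀ ℤ) (DirectSum ι fun i => ZMod (p i ^ e i))).comp
        f.toAddMonoidHom)), ?_⟩
  haveI : ∀ i, NeZero (p i ^ e i) := fun i => ⟨pow_ne_zero _ (hp i).ne_zero⟩
  haveI : Finite (DirectSum ι fun i => ZMod (p i ^ e i)) :=
    Finite.of_equiv _ (DirectSum.addEquivProd (fun i => ZMod (p i ^ e i))).symm.toEquiv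
  refine Finite.of_injective (fun x => (f (Additive.ofMul x.1)).2) ?_
  intro x y hxy
  have hx : (f (Additive.ofMul x.1)).1 = 0 := by
    have h := MonoidHom.mem_ker.mp x.2
    exact DFunLike.coe_injective h
  have hy : (f (Additive.ofMul y.1)).1 = 0 := by
    have h := MonoidHom.mem_ker.mp y.2
    exact DFunLike.coe_injective h
  apply Subtype.ext
  have h2 : f (Additive.ofMul x.1) = f (Additive.ofMul y.1) := Prod.ext (hx.trans hy.symm) hxy
  exact f.injective h2

/-- the cocycle of the left cosets of a subgroup -/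
private def P18_c {G : Type} [Group G] (C : Subgroup G) (g : G) (x : G ⧸ C) : C :=
  ⟨(Quotient.out (g • x))⁻¹ * (g * Quotient.out x), by
    rw [← QuotientGroup.eq, QuotientGroup.out_eq']
    conv_lhs => rw [← QuotientGroup.out_eq' x]
    rfl⟩

private lemma P18_c_mul {G : Type} [Group G] (C : Subgroup G) (g h : G) (x : G ⧸ C) :
    P18_c C (g * h) x = P18_c C g (h • x) * P18_c C h x := by
  apply Subtype.ext
  show (Quotient.out ((g * h) • x))⁻¹ * ((g * h) * Quotient.out x)
    = ((Quotient.out (g • h • x))⁻¹ * (g * Quotient.out (h • x))) *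
      ((Quotient.out (h • x))⁻¹ * (h * Quotient.out x))
  rw [mul_smul]
  group

/-- P18: finitely generated virtually abelian groups map to affine permutations with finite
kernel -/
theorem exists_af {C' : Type} [Group C'] (hfg : Group.FG C') (C : Subgroup C')
    (hC : C.index ≠ 0) (hcomm : ∀ a ∈ C, ∀ b ∈ C, a * b = b * a) :
    ∃ (n : ℕ) (θ : C' →* Af n), Finite θ.ker := by
  haveI : C.FiniteIndex := ⟨hC⟩
  haveI : Group.FG C := Subgroup.fg_of_index_ne_zero C
  letI : CommGroup C :=
    { (inferInstance : Group C) with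
      mul_comm := fun a b => Subtype.ext (hcomm a.1 a.2 b.1 b.2) }
  obtain ⟨m, φ, hφ⟩ := P18_free (A := C) inferInstance
  haveI : Finite (C' ⧸ C) := Subgroup.finite_quotient_of_finiteIndex
  haveI : Fintype (C' ⧸ C) := Fintype.ofFinite _
  let J : Type := (C' ⧸ C) × Option (Fin m)
  let E : J ≃ Fin (Fintype.card J) := Fintype.equivFin J
  let f : C → Option (Fin m) → ℤ := fun c o => o.elim 0 (Multiplicative.toAdd (φ c))
  have hf1 : ∀ (a b : C) (o : Option (Fin m)), f (a * b) o = f a o + f b o := by
    intro a b o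
    cases o with
    | none => rfl
    | some j =>
      show Multiplicative.toAdd (φ (a * b)) j = _
      rw [map_mul]
      rfl
  have hf0 : ∀ a : C, (∀ o, f a o = 0) → a ∈ φ.ker := by
    intro a ha
    rw [MonoidHom.mem_ker]
    exact funext fun j => ha (some j)
  let pp : C' → Equiv.Perm J := fun g =>
    Equiv.prodCongr (MulAction.toPerm g : Equiv.Perm (C' ⧸ C)) (Equiv.refl _)
  let P : C' → Equiv.Perm (Fin (Fintype.card J)) := fun g => (E.symm.trans (pp g)).trans E
  let T : C' → Fin (Fintype.card J) → ℤ := fun g i =>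
    f (P18_c C g (g⁻¹ • (E.symm i).1)) (E.symm i).2
  let θ : C' →* Af (Fintype.card J) := MonoidHom.mk' (fun g => ⟨T g, P g⟩) (by
    intro g h
    apply Af.ext
    · funext i
      show f (P18_c C (g * h) ((g * h)⁻¹ • (E.symm i).1)) (E.symm i).2
        = f (P18_c C g (g⁻¹ • (E.symm i).1)) (E.symm i).2 +
          f (P18_c C h (h⁻¹ • (E.symm ((P g).symm i)).1)) (E.symm ((P g).symm i)).2
      have h1 : E.symm ((P g).symm i) = (g⁻¹ • (E.symm i).1, (E.symm i).2) := by
        show E.symm (E ((pp g).symm (E.symm i))) = _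
        rw [Equiv.symm_apply_apply]
        rfl
      rw [h1, P18_c_mul, hf1]
      simp only [mul_inv_rev, mul_smul, smul_inv_smul]
    · show P (g * h) = P g * P h
      ext i
      have h1 : P (g * h) i = P g (P h i) := by
        show E (pp (g * h) (E.symm i)) = E (pp g (E.symm (E (pp h (E.symm i)))))
        rw [Equiv.symm_apply_apply]
        congr 1
        exact Prod.ext (mul_smul g h _) rfl
      rw [h1]
      rfl)
  refine ⟨Fintype.card J, θ, ?_⟩
  let x0 : C' ⧸ C := ((1 : C') : C' ⧸ C)
  have hfix : ∀ g ∈ θ.ker, g • x0 = x0 := by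
    intro g hg
    have h1 : P g = 1 := congrArg Af.pm (MonoidHom.mem_ker.mp hg)
    have h2 : E (pp g (E.symm (E (x0, none)))) = E (x0, none) :=
      congrArg (fun s : Equiv.Perm (Fin (Fintype.card J)) => s (E (x0, none))) h1
    rw [Equiv.symm_apply_apply] at h2
    exact congrArg Prod.fst (E.injective h2)
  have hmem : ∀ g ∈ θ.ker, P18_c C g x0 ∈ φ.ker := by
    intro g hg
    apply hf0
    intro o
    have h1 : T g = fun _ => 0 := congrArg Af.tr (MonoidHom.mem_ker.mp hg)
    have h2 : f (P18_c C g (g⁻¹ • (E.symm (E (x0, o))).1)) (E.symm (E (x0, o))).2 = 0 :=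
      congrFun h1 (E (x0, o))
    rw [Equiv.symm_apply_apply] at h2
    have h3 : g⁻¹ • x0 = x0 := by
      rw [inv_smul_eq_iff]
      exact (hfix g hg).symm
    rw [← h3]
    exact h2
  refine Finite.of_injective (fun g : θ.ker => (⟨P18_c C g.1 x0, hmem g.1 g.2⟩ : φ.ker)) ?_
  intro g h hgh
  have h1 : P18_c C g.1 x0 = P18_c C h.1 x0 := congrArg Subtype.val hgh
  have h2 : (Quotient.out (g.1 • x0))⁻¹ * (g.1 * Quotient.out x0)
      = (Quotient.out (h.1 • x0))⁻¹ * (h.1 * Quotient.out x0) := congrArg Subtype.val h1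
  rw [hfix g.1 g.2, hfix h.1 h.2] at h2
  exact Subtype.ext (mul_right_cancel (mul_left_cancel h2))

end VAb

end Pool.Agent.EH
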