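import Pool.Agent.EH.P17
import Pool.Agent.EH.P18

set_option autoImplicit false
set_option linter.unusedSectionVars false

noncomputable section

open scoped InnerProductSpace ENNReal Topology
open Classical Filter ContinuousLinearMap

namespace Pool.Agent.EH

open Pool.Agent.VN Pool.Agent.LFT Pool.Agent.HI

section EAst

variable {k : Subring ℂ}

private lemma P19_finite {C' : Type} [Group C'] (C : Subgroup C') (hC : C.index ≠ 0)
    (h : Finite C) : Finite C' :=
  C.finite_iff_finite_and_finiteIndex.2 ⟨h, ⟨hC⟩⟩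

/-- a version with an arbitrary finite index type -/
private def P19_P (k : Subring ℂ) (A : Type) [Group A] : Prop :=
  ∀ (C' : Type) [Group C'] (C : Subgroup C') [C.Normal] (_ : C.index ≠ 0) (s : ℕ)
      (f : C →* (Fin s → A)), Function.Injective f → St k C'

private lemma P19_of_finite {A : Type} [Group A] (h : P19_P k A) (C' : Type) [Group C']
    (C : Subgroup C') [C.Normal] (hC : C.index ≠ 0) (T : Type) [Finite T] (f : C →* (T → A))
    (hf : Function.Injective f) : St k C' := by
  obtain ⟨n, ⟨e⟩⟩ := Finite.exists_equiv_fin T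
  refine h C' C hC n ⟨⟨fun c t => f c (e.symm t), ?_⟩, ?_⟩ ?_
  · funext t
    rw [map_one]
    rfl
  · intro a b
    funext t
    show f (a * b) (e.symm t) = f a (e.symm t) * f b (e.symm t)
    rw [map_mul]
    rfl
  · intro a b hab
    apply hf
    funext t
    have h1 := congrFun hab (e t)
    simpa using h1

private lemma P19_fin (A : Type) [Group A] [Finite A] : P19_P k A := by
  intro C' _ C _ hC s f hf
  have h1 : Finite C := Finite.of_injective f hf
  have h2 : Finite C' := P19_finite C hC h1
  exact st_finite C'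

private lemma P19_comm (haf : ∀ n, St k (Af n)) (A : Type) [Group A]
    (h : ∀ a b : A, a * b = b * a) : P19_P k A := by
  intro C' _ C _ hC s f hf
  refine st_union (fun F : Finset C' => Subgroup.closure (F : Set C'))
    (fun F g hg => Subgroup.subset_closure hg) fun F => ?_
  have hfi : C.FiniteIndex := ⟨hC⟩
  have hfg : Group.FG (Subgroup.closure (F : Set C')) := Group.closure_finset_fg F
  obtain ⟨n, θ, hθ⟩ := exists_af hfg (C.subgroupOf (Subgroup.closure (F : Set C')))
    Subgroup.FiniteIndex.index_ne_zero (by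
      intro a ha b hb
      have h1 : (⟨(a : C'), ha⟩ : C) * ⟨(b : C'), hb⟩ = ⟨(b : C'), hb⟩ * ⟨(a : C'), ha⟩ := by
        apply hf
        rw [map_mul, map_mul]
        funext t
        exact h _ _
      have h2 := congrArg (fun c : C => (c : C')) h1
      exact Subtype.ext h2)
  exact st_finker θ hθ (haf n)

private lemma P19_union (A : Type) [Group A] (H : Finset A → Subgroup A)
    (hH : ∀ F, ∀ g ∈ F, g ∈ H F) (h : ∀ F, P19_P k (H F)) : P19_P k A := by
  intro C' _ C _ hC s f hf
  refine st_union (fun F : Finset C' => Subgroup.closure (F : Set C'))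
    (fun F g hg => Subgroup.subset_closure hg) fun F => ?_
  have hfi : C.FiniteIndex := ⟨hC⟩
  have hfg : Group.FG (Subgroup.closure (F : Set C')) := Group.closure_finset_fg F
  set D := Subgroup.closure (F : Set C') with hD
  have hfg2 : Group.FG (C.subgroupOf D) := inferInstance
  obtain ⟨S, hS⟩ := (Group.fg_def.1 hfg2)
  let j : C.subgroupOf D →* C := ⟨⟨fun c => ⟨(c : D), c.2⟩, rfl⟩, fun a b => rfl⟩
  have hj : Function.Injective j := by
    intro a b hab
    have h1 := congrArg (fun c : C => (c : C')) hab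
    exact Subtype.ext (Subtype.ext h1)
  let F1 : Finset A := (S ×ˢ (Finset.univ : Finset (Fin s))).image fun u => f (j u.1) u.2
  let T : Subgroup (C.subgroupOf D) :=
    { carrier := {c | ∀ t, f (j c) t ∈ H F1}
      mul_mem' := by
        intro a b ha hb t
        rw [map_mul, map_mul]
        exact (H F1).mul_mem (ha t) (hb t)
      one_mem' := by
        intro t
        rw [map_one, map_one]
        exact (H F1).one_mem
      inv_mem' := by
        intro a ha t
        rw [map_inv, map_inv]
        exact (H F1).inv_mem (ha t) }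
  have hT : ∀ c, c ∈ T := by
    have h1 : Subgroup.closure (S : Set (C.subgroupOf D)) ≤ T := by
      rw [Subgroup.closure_le]
      intro c hc t
      exact hH F1 _ (Finset.mem_image.2 ⟨(c, t), Finset.mem_product.2 ⟨hc, Finset.mem_univ _⟩, rfl⟩)
    intro c
    rw [hS] at h1
    exact h1 (Subgroup.mem_top c)
  refine h F1 D (C.subgroupOf D) Subgroup.FiniteIndex.index_ne_zero s
    ⟨⟨fun c t => ⟨f (j c) t, hT c t⟩, ?_⟩, ?_⟩ ?_
  · funext t
    apply Subtype.ext
    show f (j 1) t = 1
    rw [map_one, map_one]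
    rfl
  · intro a b
    funext t
    apply Subtype.ext
    show f (j (a * b)) t = f (j a) t * f (j b) t
    rw [map_mul, map_mul]
    rfl
  · intro a b hab
    apply hj
    apply hf
    funext t
    have h1 := congrFun hab t
    exact congrArg (fun x : H F1 => (x : A)) h1

private lemma P19_ext (A : Type) [Group A] (N : Subgroup A) [N.Normal] (h : P19_P k N)
    (h' : P19_P k (A ⧸ N)) : P19_P k A := by
  intro C' _ C hCn hC s f hf
  have hfi : C.FiniteIndex := ⟨hC⟩
  -- the homomorphism to the quotients
  let φ : C →* ((C' ⧸ C) × Fin s → A ⧸ N) := MonoidHom.pi fun u =>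
    (QuotientGroup.mk' N).comp ((Pi.evalMonoidHom (fun _ : Fin s => A) u.2).comp
      (f.comp (MulAut.conjNormal (Quotient.out u.1)⁻¹ : C ≃* C).toMonoidHom))
  have hφ : ∀ c u, φ c u = ((f (MulAut.conjNormal (Quotient.out u.1)⁻¹ c) u.2 : A) : A ⧸ N) :=
    fun c u => rfl
  have hker : ∀ c, φ c = 1 → ∀ (g : C') (t : Fin s), f (MulAut.conjNormal g c) t ∈ N := by
    intro c hc g t
    have h1 := congrFun hc ((g⁻¹ : C' ⧸ C), t)
    rw [hφ, Pi.one_apply, QuotientGroup.eq_one_iff] at h1
    set σ : C' := Quotient.out ((g⁻¹ : C') : C' ⧸ C) with hσ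
    have h2 : σ⁻¹ * g⁻¹ ∈ C := by
      rw [← QuotientGroup.eq, hσ]
      exact Quotient.out_eq _
    have h3 : MulAut.conjNormal g c =
        (⟨σ⁻¹ * g⁻¹, h2⟩ : C)⁻¹ * MulAut.conjNormal σ⁻¹ c * ⟨σ⁻¹ * g⁻¹, h2⟩ := by
      apply Subtype.ext
      simp only [Subgroup.coe_mul, Subgroup.coe_inv, MulAut.conjNormal_apply]
      group
    rw [h3, map_mul, map_mul, map_inv]
    have h4 := Subgroup.Normal.conj_mem inferInstance _ h1 ((f ⟨σ⁻¹ * g⁻¹, h2⟩ t)⁻¹)
    rw [inv_inv] at h4
    exact h4
  have hker' : ∀ c, (∀ (g : C') (t : Fin s), f (MulAut.conjNormal g c) t ∈ N) → φ c = 1 := by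
    intro c hc
    funext u
    rw [hφ, Pi.one_apply, QuotientGroup.eq_one_iff]
    exact hc _ _
  let C1 : Subgroup C' := φ.ker.map C.subtype
  have hC1 : ∀ x, x ∈ C1 ↔ ∃ c : C, φ c = 1 ∧ (c : C') = x := by
    intro x
    constructor
    · rintro ⟨c, hc, rfl⟩
      exact ⟨c, MonoidHom.mem_ker.1 hc, rfl⟩
    · rintro ⟨c, hc, rfl⟩
      exact ⟨c, MonoidHom.mem_ker.2 hc, rfl⟩
  have hC1n : C1.Normal := by
    refine ⟨fun x hx g => ?_⟩
    obtain ⟨c, hc, rfl⟩ := (hC1 x).1 hx
    refine (hC1 _).2 ⟨MulAut.conjNormal g c, ?_, MulAut.conjNormal_apply g c⟩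
    apply hker'
    intro g' t
    have h1 := hker c hc (g' * g) t
    rw [map_mul] at h1
    exact h1
  refine st_ext C1 ?_ ?_
  · -- the quotient
    have hn : (C.map (QuotientGroup.mk' C1)).Normal :=
      Subgroup.Normal.map hCn _ (QuotientGroup.mk'_surjective C1)
    have hi : (C.map (QuotientGroup.mk' C1)).index ≠ 0 := by
      intro h0
      have h1 := Subgroup.index_map_dvd C (QuotientGroup.mk'_surjective C1)
      rw [h0, zero_dvd_iff] at h1
      exact hC h1
    let π := (QuotientGroup.mk' C1).subgroupMap C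
    have hπ : Function.Surjective π := (QuotientGroup.mk' C1).subgroupMap_surjective C
    have hπk : ∀ c, π c = 1 ↔ φ c = 1 := by
      intro c
      have h1 : π c = 1 ↔ ((c : C') : C' ⧸ C1) = 1 := by
        constructor
        · intro h
          exact congrArg (fun x : C.map (QuotientGroup.mk' C1) => (x : C' ⧸ C1)) h
        · intro h
          exact Subtype.ext h
      rw [h1, QuotientGroup.eq_one_iff, hC1]
      constructor
      · rintro ⟨c', hc', h2⟩
        rwa [Subtype.ext h2] at hc'
      · intro h
        exact ⟨c, h, rfl⟩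
    have hle : π.ker ≤ φ.ker := fun c hc =>
      MonoidHom.mem_ker.2 ((hπk c).1 (MonoidHom.mem_ker.1 hc))
    let ψ := π.liftOfSurjective hπ ⟨φ, hle⟩
    have hψ : ∀ c, ψ (π c) = φ c := fun c =>
      π.liftOfRightInverse_comp_apply _ (Function.rightInverse_surjInv hπ) ⟨φ, hle⟩ c
    refine P19_of_finite h' (C' ⧸ C1) (C.map (QuotientGroup.mk' C1)) hi ((C' ⧸ C) × Fin s) ψ ?_
    rw [injective_iff_map_eq_one]
    intro x hx
    obtain ⟨c, rfl⟩ := hπ x
    rw [hψ] at hx
    exact (hπk c).2 hx
  · intro F hF
    have hfin : (C1.subgroupOf (F.comap (QuotientGroup.mk' C1))).index ≠ 0 := by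
      have h1 : ((QuotientGroup.mk' C1).subgroupComap F).ker =
          C1.subgroupOf (F.comap (QuotientGroup.mk' C1)) := by
        ext x
        rw [MonoidHom.mem_ker, Subgroup.mem_subgroupOf, ← QuotientGroup.eq_one_iff]
        constructor
        · intro h
          exact congrArg (fun y : F => (y : C' ⧸ C1)) h
        · intro h
          exact Subtype.ext h
      rw [← h1]
      exact Subgroup.FiniteIndex.index_ne_zero
    have hmem : ∀ x : C1.subgroupOf (F.comap (QuotientGroup.mk' C1)), ((x : _) : C') ∈ C := by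
      intro x
      obtain ⟨c, hc, h1⟩ := (hC1 _).1 (Subgroup.mem_subgroupOf.1 x.2)
      rw [← h1]
      exact c.2
    let j : C1.subgroupOf (F.comap (QuotientGroup.mk' C1)) →* C :=
      ⟨⟨fun x => ⟨((x : _) : C'), hmem x⟩, rfl⟩, fun a b => rfl⟩
    have hj : Function.Injective j := by
      intro a b hab
      have h1 := congrArg (fun c : C => (c : C')) hab
      exact Subtype.ext (Subtype.ext h1)
    have hjN : ∀ x t, f (j x) t ∈ N := by
      intro x t
      obtain ⟨c, hc, h1⟩ := (hC1 _).1 (Subgroup.mem_subgroupOf.1 x.2)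
      have h2 : j x = c := Subtype.ext h1.symm
      have h3 := hker c hc 1 t
      rw [map_one] at h3
      rw [h2]
      exact h3
    refine h _ (C1.subgroupOf (F.comap (QuotientGroup.mk' C1))) hfin s
      ⟨⟨fun c t => ⟨f (j c) t, hjN c t⟩, ?_⟩, ?_⟩ ?_
    · funext t
      apply Subtype.ext
      show f (j 1) t = 1
      rw [map_one, map_one]
      rfl
    · intro a b
      funext t
      apply Subtype.ext
      show f (j (a * b)) t = f (j a) t * f (j b) t
      rw [map_mul, map_mul]
      rfl
    · intro a b hab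
      apply hj
      apply hf
      funext t
      have h1 := congrFun hab t
      exact congrArg (fun x : N => (x : A)) h1

/-- P19: induction over elementary amenable groups -/
theorem st_ea (haf : ∀ n, St k (Af n)) {A : Type} [Group A] (hA : EA A) :
    ∀ (C' : Type) [Group C'] (C : Subgroup C') [C.Normal] (_ : C.index ≠ 0) (s : ℕ)
      (f : C →* (Fin s → A)), Function.Injective f → St k C' := by
  show P19_P k A
  induction hA with
  | fin A => exact P19_fin A
  | comm A h => exact P19_comm haf A h
  | ext A N h h' ih ih' => exact P19_ext A N ih ih'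
  | union A H hH h ih => exact P19_union A H hH ih

end EAst

end Pool.Agent.EH
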