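import Pool.Agent.EH.P16
import Pool.Agent.EH.P19

set_option autoImplicit false
set_option linter.unusedSectionVars false

noncomputable section

open scoped InnerProductSpace ENNReal Topology
open Classical Filter ContinuousLinearMap

namespace Pool.Agent.EH

open Pool.Agent.VN Pool.Agent.LFT Pool.Agent.HI

section Fin

variable {k : Subring ℂ}

theorem st_of_ea {A : Type} [Group A] (hA : EA A) : St k A := by
  refine st_ea (k := k) st_af hA A ⊤ (by simp) 1
    { toFun := fun c _ => c.1
      map_one' := rfl
      map_mul' := fun _ _ => rfl } ?_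
  intro a b hab
  exact Subtype.ext (congrFun hab 0)

theorem pb_of_hierE (k : Subring ℂ) (G : Type) [inst : Group G] (h : HierE G) :
    Pool.Agent.HE.PB k G := by
  induction h with
  | triv G => exact Pool.Agent.HE.pb_triv k G
  | tree G V T hT hadj hinv _ ih => exact Pool.Agent.HE.pb_tree k T hT hadj hinv ih
  | ext G A p hA _ ih => exact st_of_ea hA G p ih
  | union G H hH _ ih => exact Pool.Agent.HE.pb_union k G H hH ih

/-- extensions with quotient in the class -/
theorem atiyah_of_hierE (k : Subring ℂ) (G Q : Type) [Group G] [Group Q] (f : G →* Q)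
    (h : HierE Q) (hf : AtiyahOver k f.ker) : AtiyahOver k G :=
  atiyah_of_pb (pb_of_hierE k Q h) f hf

end Fin

end Pool.Agent.EH
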