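import Pool.Agent.HE.Groups
import Pool.Agent.EH.HierDef

set_option autoImplicit false
set_option linter.unusedSectionVars false

noncomputable section

open scoped InnerProductSpace ENNReal Topology
open Classical Filter ContinuousLinearMap

/-!
Families of subspaces, affine permutations of the lattice, equivariant maps with invariant means
along the fibres: basic definitions.
-/

namespace Pool.Agent.EH

open Pool.Agent.VN Pool.Agent.LFT Pool.Agent.HI

section Fam

variable {G : Type} [Group G]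

/-- the local trace of the projection to a subspace at a coordinate -/
def ltr {ι : Type} (K : Submodule ℂ (L2 ι G)) (q : ι × G) : ℝ :=
  1 - Metric.infDist (dl q) (K : Set (L2 ι G)) ^ 2

/-- the sum over the fibres of a map of the sets of coordinates -/
def fT {ι κ : Type} [Fintype ι] [Fintype κ] (p : κ → ι) : L2 κ G →L[ℂ] L2 ι G :=
  mulR fun i => ∑ a : κ, if p a = i then Finsupp.single (a, (1 : G)) 1 else 0

/-- The row `(j, c)` of the matrix which describes the families, indexed by the places `c : M`, of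
elements of the kernel of right multiplication by `A` such that the coordinate `(i, g)` of the
member with index `c` vanishes unless `c = g • ℓ a` for some `a` with `p a = i`. -/
def fA {ι κ μ M : Type} [Fintype κ] [MulAction G M] (p : κ → ι) (ℓ : κ → M)
    (A : μ → (ι × G →₀ ℂ)) (r : μ × M) : κ × G →₀ ℂ :=
  ∑ u ∈ (A r.1).support, ∑ a : κ,
    if p a = u.1 ∧ ℓ a = u.2 • r.2 then Finsupp.single (a, u.2) (A r.1 u) else 0

/-- the rows for the places in a finite set -/
def fAC {ι κ μ M : Type} [Fintype κ] [MulAction G M] (p : κ → ι) (ℓ : κ → M)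
    (A : μ → (ι × G →₀ ℂ)) (C : Finset M) (r : μ × C) : κ × G →₀ ℂ :=
  fA p ℓ A (r.1, r.2.1)

/-- the rows which involve coordinates inside and outside the family -/
def bdC {ι κ μ M : Type} [Fintype μ] [MulAction G M] (p : κ → ι) (ℓ : κ → M)
    (A : μ → (ι × G →₀ ℂ)) (C : Finset M) : Finset (μ × C) :=
  Finset.univ.filter fun r : μ × C =>
    (∃ u ∈ (A r.1).support, ∃ a, p a = u.1 ∧ ℓ a = u.2 • r.2.1) ∧
      ∃ u ∈ (A r.1).support, ¬ ∃ a, p a = u.1 ∧ ℓ a = u.2 • r.2.1

/-- a finite set of places is large enough -/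
def CovC {ι κ μ M : Type} [MulAction G M] (p : κ → ι) (ℓ : κ → M) (A : μ → (ι × G →₀ ℂ))
    (C : Finset M) : Prop :=
  ∀ j, ∀ u ∈ (A j).support, ∀ a : κ, p a = u.1 → u.2⁻¹ • ℓ a ∈ C

/-- the elements of a subspace supported at the coordinates which occur at the place `c` -/
def XR {ι κ M : Type} [MulAction G M] (X : Submodule ℂ (L2 ι G)) (p : κ → ι) (ℓ : κ → M) (c : M) :
    Submodule ℂ (L2 ι G) where
  carrier := {x | x ∈ X ∧ ∀ q : ι × G, x q ≠ 0 → ∃ a, p a = q.1 ∧ q.2 • ℓ a = c}
  add_mem' := by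
    rintro x y ⟨hx, hx'⟩ ⟨hy, hy'⟩
    refine ⟨X.add_mem hx hy, fun q hq => ?_⟩
    by_cases h1 : x q = 0
    · apply hy'
      intro h2
      apply hq
      rw [lp.coeFn_add, Pi.add_apply, h1, h2, add_zero]
    · exact hx' q h1
  zero_mem' := ⟨X.zero_mem, fun q hq => absurd rfl hq⟩
  smul_mem' := by
    rintro c x ⟨hx, hx'⟩
    refine ⟨X.smul_mem c hx, fun q hq => hx' q fun h => hq ?_⟩
    rw [lp.coeFn_smul, Pi.smul_apply, h, smul_zero]

end Fam

section Af

/-- affine permutations of the lattice `ℤⁿ`: a translation vector and a permutation of the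
coordinates -/
@[ext] structure Af (n : ℕ) : Type where
  tr : Fin n → ℤ
  pm : Equiv.Perm (Fin n)

variable {n : ℕ}

instance : Mul (Af n) := ⟨fun a b => ⟨fun i => a.tr i + b.tr (a.pm.symm i), a.pm * b.pm⟩⟩
instance : One (Af n) := ⟨⟨fun _ => 0, 1⟩⟩
instance : Inv (Af n) := ⟨fun a => ⟨fun i => - a.tr (a.pm i), a.pm⁻¹⟩⟩

lemma af_mul_tr (a b : Af n) (i : Fin n) : (a * b).tr i = a.tr i + b.tr (a.pm.symm i) := rfl
lemma af_mul_pm (a b : Af n) : (a * b).pm = a.pm * b.pm := rfl
lemma af_one_tr (i : Fin n) : (1 : Af n).tr i = 0 := rfl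
lemma af_one_pm : (1 : Af n).pm = 1 := rfl
lemma af_inv_tr (a : Af n) (i : Fin n) : (a⁻¹).tr i = - a.tr (a.pm i) := rfl
lemma af_inv_pm (a : Af n) : (a⁻¹).pm = a.pm⁻¹ := rfl

instance : Group (Af n) where
  mul_assoc a b c := by
    refine Af.ext (funext fun i => ?_) (mul_assoc _ _ _)
    rw [af_mul_tr, af_mul_tr, af_mul_tr, af_mul_tr, add_assoc]
    rfl
  one_mul a := by
    refine Af.ext (funext fun i => ?_) (one_mul _)
    rw [af_mul_tr, af_one_tr, zero_add]
    rfl
  mul_one a := by
    refine Af.ext (funext fun i => ?_) (mul_one _)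
    rw [af_mul_tr, af_one_tr, add_zero]
  inv_mul_cancel a := by
    refine Af.ext (funext fun i => ?_) (inv_mul_cancel _)
    rw [af_mul_tr, af_inv_tr, af_one_tr, af_inv_pm]
    show - a.tr (a.pm i) + a.tr ((a.pm⁻¹).symm i) = 0
    rw [show (a.pm⁻¹).symm = a.pm from rfl]
    ring

/-- the vertices of the cubulation of `ℝⁿ` -/
def Pt (n : ℕ) : Type := Fin n → ℤ

/-- the cells of the cubulation of `ℝⁿ`: the smallest vertex and the set of directions -/
def Cell (n : ℕ) : Type := Pt n × Finset (Fin n)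

instance : MulAction (Af n) (Pt n) where
  smul a x := fun i => a.tr i + x (a.pm.symm i)
  one_smul x := by
    funext i
    show (1 : Af n).tr i + x ((1 : Af n).pm.symm i) = x i
    rw [af_one_tr, zero_add]
    rfl
  mul_smul a b x := by
    funext i
    show (a * b).tr i + x ((a * b).pm.symm i) = a.tr i + (b.tr (a.pm.symm i) +
      x (b.pm.symm (a.pm.symm i)))
    rw [af_mul_tr, add_assoc]
    rfl

lemma pt_smul (a : Af n) (x : Pt n) (i : Fin n) : (a • x) i = a.tr i + x (a.pm.symm i) := rfl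

instance : MulAction (Af n) (Cell n) where
  smul a x := ((a • x.1, x.2.map a.pm.toEmbedding) : Pt n × Finset (Fin n))
  one_smul x := by
    show (((1 : Af n) • x.1, x.2.map (1 : Af n).pm.toEmbedding) : Pt n × Finset (Fin n)) = x
    rw [one_smul]
    refine Prod.ext rfl ?_
    show x.2.map (Equiv.refl _).toEmbedding = x.2
    simp
  mul_smul a b x := by
    show (((a * b) • x.1, x.2.map (a * b).pm.toEmbedding) : Pt n × Finset (Fin n))
      = ((a • b • x.1, (x.2.map b.pm.toEmbedding).map a.pm.toEmbedding) : Pt n × Finset (Fin n))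
    rw [mul_smul, Finset.map_map]
    rfl

/-- the elements of a subspace supported in the box `[-α, β]` around the origin -/
def bx {Λ ι : Type} [Group Λ] (θ : Λ →* Af n) (X : Submodule ℂ (L2 ι Λ)) (α β : Fin n → ℕ) :
    Submodule ℂ (L2 ι Λ) where
  carrier := {x | x ∈ X ∧ ∀ q : ι × Λ, x q ≠ 0 → ∀ i, -(α i : ℤ) ≤ (θ q.2).tr i ∧
    (θ q.2).tr i ≤ β i}
  add_mem' := by
    rintro x y ⟨hx, hx'⟩ ⟨hy, hy'⟩
    refine ⟨X.add_mem hx hy, fun q hq => ?_⟩
    by_cases h1 : x q = 0
    · apply hy'
      intro h2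
      apply hq
      rw [lp.coeFn_add, Pi.add_apply, h1, h2, add_zero]
    · exact hx' q h1
  zero_mem' := ⟨X.zero_mem, fun q hq => absurd rfl hq⟩
  smul_mem' := by
    rintro c x ⟨hx, hx'⟩
    refine ⟨X.smul_mem c hx, fun q hq => hx' q fun h => hq ?_⟩
    rw [lp.coeFn_smul, Pi.smul_apply, h, smul_zero]

/-- the vectors `α` with `0 ≤ α ≤ m` -/
def Bx (m : Fin n → ℕ) : Finset (Fin n → ℕ) := Fintype.piFinset fun i => Finset.range (m i + 1)

/-- the sum of the local traces over the positions in a box with side lengths `m` -/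
def FF {Λ ι : Type} [Group Λ] [Fintype ι] (θ : Λ →* Af n) (X : Submodule ℂ (L2 ι Λ))
    (m : Fin n → ℕ) : ℝ :=
  ∑ α ∈ Bx m, ∑ i : ι, ltr (bx θ X α fun l => m l - α l) (i, 1)

/-- the side lengths of the boxes of the cells with directions `J` -/
def mJ (R : ℕ) (J : Finset (Fin n)) (i : Fin n) : ℕ := if i ∈ J then 2 * R + 1 else 2 * R + 2

/-- sets of pairs of vectors which are closed under enlarging the vectors -/
def UpC (E : (Fin n → ℕ) → (Fin n → ℕ) → Prop) : Prop :=
  ∀ α β α' β', α ≤ α' → β ≤ β' → E α β → E α' β'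

/-- the number of the pairs in `E` with sum `m` -/
def cnt (E : (Fin n → ℕ) → (Fin n → ℕ) → Prop) (m : Fin n → ℕ) : ℕ :=
  ((Bx m).filter fun α => E α fun l => m l - α l).card

end Af

section Foel

/-- equivariant maps with finite almost invariant subsets of the fibres -/
def Foel (G : Type) [Group G] {W1 W : Type} [MulAction G W1] [MulAction G W] (ϖ : W1 → W) :
    Prop :=
  ∀ (T : Finset W) (F : Finset G) (ε : ℝ), 0 < ε → ∃ (N : ℕ) (q : W → Fin N → W1), 0 < N ∧
    (∀ w r, ϖ (q w r) = w) ∧ (∀ w, Function.Injective (q w)) ∧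
    ∀ g ∈ F, ∀ w ∈ T, g • w ∈ T →
      (((Finset.univ.filter fun r : Fin N => g • q w r ∉ Set.range (q (g • w))).card : ℕ) : ℝ)
        ≤ ε * N

end Foel

section Ext

/-- the inductive property passes along homomorphisms to `A` -/
def St (k : Subring ℂ) (A : Type) [Group A] : Prop :=
  ∀ (B : Type) [Group B] (p : B →* A),
    (∀ F : Subgroup A, Finite F → Pool.Agent.HE.PB k (F.comap p)) → Pool.Agent.HE.PB k B

end Ext

end Pool.Agent.EH
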