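import Mathlib

/-!
End-homogeneous sequences (Erdos-Rado), for ternary functions Q.
-/

set_option autoImplicit false

open Cardinal Order

namespace Pool.Agent.EH

/-- recursion with existence -/
theorem exists_rec {Th C : Type} (r : Th → Th → Prop) (wf : WellFounded r)
    (P : ∀ xi : Th, (∀ eta, r eta xi → C) → C → Prop)
    (h : ∀ xi g, ∃ c, P xi g c) : ∃ x : Th → C, ∀ xi, P xi (fun eta _ => x eta) (x xi) := by
  choose F hF using h
  refine ⟨wf.fix (fun xi g => F xi g), ?_⟩
  intro xi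
  have h1 := hF xi (fun eta _ => wf.fix (fun xi g => F xi g) eta)
  have h2 : wf.fix (fun xi g => F xi g) xi = F xi (fun eta _ => wf.fix (fun xi g => F xi g) eta) :=
    wf.fix_eq _ xi
  rw [← h2] at h1
  exact h1

/-- arities -/
def Ar (R A : Type) : Option (R → R → A) → Type
  | none => Empty
  | some _ => R

theorem card_W (R A : Type) (hR : ℵ₀ ≤ #R) (hA : #A ≤ 2 ^ #R) :
    #(WType (Ar R A)) ≤ 2 ^ #R := by
  have hinf : ℵ₀ ≤ (2 : Cardinal) ^ #R := hR.trans (cantor _).le
  have hRR : #R * #R = #R := mul_eq_self hR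
  have hTp : #(R → R → A) ≤ 2 ^ #R := by
    calc #(R → R → A) = (#A ^ #R) ^ #R := by simp
      _ ≤ ((2 ^ #R) ^ #R) ^ #R := by
          exact power_le_power_right (power_le_power_right hA)
      _ = 2 ^ #R := by rw [← power_mul, ← power_mul, hRR, hRR]
  have hOpt : #(Option (R → R → A)) ≤ 2 ^ #R := by
    rw [mk_option]
    exact add_le_of_le hinf hTp (one_le_aleph0.trans hinf)
  apply WType.cardinalMk_le_of_le
  refine (sum_le_sum _ (fun _ => 2 ^ #R) ?_).trans ?_
  · intro a
    cases a with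
    | none =>
      change (2 ^ #R) ^ #Empty ≤ _
      simp only [mk_eq_zero, power_zero]
      exact one_le_aleph0.trans hinf
    | some t =>
      change (2 ^ #R) ^ #R ≤ _
      rw [← power_mul, hRR]
  · rw [sum_const', mul_comm]
    exact mul_le_of_le hinf le_rfl hOpt

/-- closure under types -/
theorem exists_closed {R X A : Type} [LinearOrder X] (x0 : X) (hR : ℵ₀ ≤ #R) (hA : #A ≤ 2 ^ #R)
    (Q : X → X → X → A) : ∃ C : Set X, #C ≤ 2 ^ #R ∧ x0 ∈ C ∧
      ∀ (sg : R → X) (y : X), (∀ r, sg r ∈ C) → (∀ r, sg r < y) →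
        ∃ x ∈ C, (∀ r, sg r < x) ∧ ∀ r r', Q (sg r) (sg r') x = Q (sg r) (sg r') y := by
  classical
  let ev : (Σ a : Option (R → R → A), Ar R A a → X) → X := fun p =>
    match p with
    | ⟨none, _⟩ => x0
    | ⟨some t, sg⟩ => if h : ∃ x, (∀ r : R, sg r < x) ∧ ∀ r r' : R, Q (sg r) (sg r') x = t r r' then
        h.choose else x0
  let E : WType (Ar R A) → X := WType.elim X ev
  refine ⟨Set.range E, ?_, ?_, ?_⟩
  · exact mk_range_le.trans (card_W R A hR hA)
  · exact ⟨WType.mk none (fun e => e.elim), rfl⟩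
  · intro sg y hsg hy
    choose t ht using hsg
    let T : R → R → A := fun r r' => Q (sg r) (sg r') y
    have hT : ∃ x, (∀ r : R, sg r < x) ∧ ∀ r r' : R, Q (sg r) (sg r') x = T r r' :=
      ⟨y, hy, fun _ _ => rfl⟩
    have hE : E (WType.mk (some T) t) = hT.choose := by
      have e1 : E (WType.mk (some T) t) = ev ⟨some T, fun r : R => E (t r)⟩ := rfl
      have e2 : (fun r : R => E (t r)) = sg := funext ht
      have e3 : ev ⟨some T, fun r : R => E (t r)⟩ = ev ⟨some T, sg⟩ := by
        rw [e2]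
      have e4 : ev ⟨some T, sg⟩ = (if h : ∃ x, (∀ r : R, sg r < x) ∧
        ∀ r r' : R, Q (sg r) (sg r') x = T r r' then h.choose else x0) := rfl
      rw [e1, e3, e4, dif_pos hT]
    refine ⟨_, ⟨WType.mk (some T) t, rfl⟩, ?_⟩
    rw [hE]
    exact hT.choose_spec

theorem end_homog {R X A : Type} [LinearOrder X] (hR : ℵ₀ ≤ #R) (hA : #A ≤ 2 ^ #R)
    (hb : ∀ S : Set X, #S ≤ 2 ^ #R → ∃ z, ∀ s ∈ S, s < z) (Q : X → X → X → A) :
    ∃ (z : X) (x : (succ #R).ord.ToType → X), (∀ xi, x xi < z) ∧ (StrictMono x) ∧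
      ∀ xi eta eta', eta < xi → eta' < xi → Q (x eta) (x eta') (x xi) = Q (x eta) (x eta') z := by
  classical
  obtain ⟨x0, -⟩ := hb ∅ (by simp)
  obtain ⟨C, hC, hx0, hcl⟩ := exists_closed x0 hR hA Q
  obtain ⟨z, hz⟩ := hb C hC
  have hrec := exists_rec (Th := (succ #R).ord.ToType) (C := C) (· < ·) wellFounded_lt
    (fun xi g c => ∀ eta (h : eta < xi), ((g eta h : C) : X) < c ∧
      ∀ eta' (h' : eta' < xi), Q (g eta h) (g eta' h') c = Q (g eta h) (g eta' h') z) ?_
  · obtain ⟨x, hx⟩ := hrec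
    refine ⟨z, fun xi => x xi, fun xi => hz _ (x xi).2, ?_, ?_⟩
    · intro a b hab
      exact (hx b a hab).1
    · intro xi eta eta' h h'
      exact (hx xi eta h).2 eta' h'
  · intro xi g
    by_cases hne : Nonempty (Set.Iio xi)
    · have hle : #(Set.Iio xi) ≤ #R := by
        have h1 : #(Set.Iio xi) < succ #R := by
          have h2 := Cardinal.mk_Iio_lt xi (by simp)
          simpa using h2
        exact lt_succ_iff.mp h1
      obtain ⟨emb⟩ := (Cardinal.le_def _ _).mp hle
      have hsurj : Function.Surjective (Function.invFun emb) := Function.invFun_surjective emb.injective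
      let s : R → Set.Iio xi := Function.invFun emb
      obtain ⟨x, hxC, hx1, hx2⟩ := hcl (fun r => (g (s r).1 (s r).2 : C)) z
        (fun r => (g (s r).1 (s r).2).2) (fun r => hz _ (g (s r).1 (s r).2).2)
      refine ⟨⟨x, hxC⟩, ?_⟩
      intro eta h
      obtain ⟨r, hr⟩ := hsurj ⟨eta, h⟩
      have hr1 : s r = ⟨eta, h⟩ := hr
      constructor
      · have := hx1 r
        simp only [hr1] at this
        exact this
      · intro eta' h'
        obtain ⟨r', hr'⟩ := hsurj ⟨eta', h'⟩
        have hr1' : s r' = ⟨eta', h'⟩ := hr'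
        have := hx2 r r'
        simp only [hr1, hr1'] at this
        exact this
    · refine ⟨⟨x0, hx0⟩, ?_⟩
      intro eta h
      exact absurd ⟨⟨eta, h⟩⟩ hne

end Pool.Agent.EH
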