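import Pool.Agent.EH.Uni

/-!
The graph-theoretic argument: a partition lemma for a well ordered type La gives
a K4-free graph which is not a countable union of triangle-free graphs.
-/

set_option autoImplicit false

namespace Pool.Agent.EH

/-- The partition property of a ternary relation T on a linear order. -/
def PartProp {La : Type} [LinearOrder La] (T : La → La → La → Prop) : Prop :=
  ∀ F : La → La → Set ℕ, ∃ (c : La) (e : Set La) (S : Set ℕ), ¬ e.Countable ∧
    (∀ a ∈ e, c < a) ∧ (∀ a ∈ e, F c a = S) ∧ (∀ a ∈ e, ∀ b ∈ e, a < b → F a b = S) ∧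
    (∀ y ∈ e, ∀ z ∈ e, y < z → T c y z) ∧
    (∀ x ∈ e, ∀ y ∈ e, ∀ z ∈ e, x < y → y < z → ¬ T x y z)

/-- The set of admissible pairs. -/
def Valid {La : Type} [LinearOrder La] (T : La → La → La → Prop) (c : La) (e : Set La) : Prop :=
  (∀ a ∈ e, c < a) ∧ (∀ y ∈ e, ∀ z ∈ e, y < z → T c y z) ∧
    (∀ x ∈ e, ∀ y ∈ e, ∀ z ∈ e, x < y → y < z → ¬ T x y z)

inductive Idx (La : Type) : Type
  | nil : Idx La
  | mk (c : La) (e : Set La) (b : Set (La × ℕ)) (w : La × ℕ → Idx La) : Idx La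

def eOf {La : Type} : Idx La → Set La
  | .nil => ∅
  | .mk _ e _ _ => e

def tOf {La : Type} : Idx La → WithBot La
  | .nil => ⊥
  | .mk c _ _ _ => c

section

variable {La VV : Type} [LinearOrder La]

/-- The condition on the vertex chosen at index j, given the earlier choices u. -/
def Cond (T : La → La → La → Prop) (A : VV → VV → Prop) (col : Sym2 VV → ℕ)
    (r : Idx La → Idx La → Prop) (j : Idx La) (u : ∀ j', r j' j → Option VV) (y : VV) : Prop :=
  ∃ c e b w, j = Idx.mk c e b w ∧ Valid T c e ∧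
    (∀ j' (h : r j' j) y', u j' h = some y' → y ≠ y' ∧ (A y' y ↔ c ∈ eOf j')) ∧
    ∀ p ∈ b, ∃ (h : r (w p) j) (y' : VV), u (w p) h = some y' ∧ col s(y', y) = p.2

open Classical in
/-- the chosen vertices -/
noncomputable def vv (T : La → La → La → Prop) (A : VV → VV → Prop) (col : Sym2 VV → ℕ)
    {r : Idx La → Idx La → Prop} (wf : WellFounded r) : Idx La → Option VV :=
  wf.fix (fun j u => if h : ∃ y, Cond T A col r j u y then some h.choose else none)

theorem vv_spec (T : La → La → La → Prop) (A : VV → VV → Prop) (col : Sym2 VV → ℕ)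
    {r : Idx La → Idx La → Prop} (wf : WellFounded r) (j : Idx La) (y : VV)
    (h : vv T A col wf j = some y) : Cond T A col r j (fun j' _ => vv T A col wf j') y := by
  unfold vv at h
  rw [WellFounded.fix_eq] at h
  split_ifs at h with h1
  have h2 := h1.choose_spec
  cases h
  exact h2

theorem vv_exists (T : La → La → La → Prop) (A : VV → VV → Prop) (col : Sym2 VV → ℕ)
    {r : Idx La → Idx La → Prop} (wf : WellFounded r) (j : Idx La) (y : VV)
    (h : Cond T A col r j (fun j' _ => vv T A col wf j') y) : ∃ y', vv T A col wf j = some y' := by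
  unfold vv at h ⊢
  rw [WellFounded.fix_eq]
  rw [dif_pos ⟨y, h⟩]
  exact ⟨_, rfl⟩

end

theorem main_of_partition {La : Type} [LinearOrder La] [WellFoundedLT La]
    (T : La → La → La → Prop) (hT : PartProp T) :
    ∃ (V : Type) (G : SimpleGraph V), G.CliqueFree 4 ∧ ∀ c : Sym2 V → ℕ, ∃ x y z : V,
      G.Adj x y ∧ G.Adj y z ∧ G.Adj x z ∧ c s(x, y) = c s(y, z) ∧ c s(y, z) = c s(x, z) := by
  classical
  refine ⟨V (Idx La) (Set (Idx La × Option (Idx La))), G _ _, cliqueFree, ?_⟩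
  intro col
  by_contra hno
  have hno' : ∀ x y z, (G (Idx La) (Set (Idx La × Option (Idx La)))).Adj x y →
      (G (Idx La) (Set (Idx La × Option (Idx La)))).Adj y z →
      (G (Idx La) (Set (Idx La × Option (Idx La)))).Adj x z →
      col s(x, y) = col s(y, z) → col s(y, z) = col s(x, z) → False := by
    intro x y z h1 h2 h3 h4 h5
    exact hno ⟨x, y, z, h1, h2, h3, h4, h5⟩
  set GG := G (Idx La) (Set (Idx La × Option (Idx La))) with hGG
  -- the well order on the index type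
  obtain ⟨lo, hlo⟩ := exists_wellFoundedLT (Idx La)
  let key : Idx La → (WithBot La) ×ₗ (Idx La) := fun j => toLex (tOf j, j)
  have hkey : Function.Injective key := by
    intro a b h
    have := congrArg (fun p => (ofLex p).2) h
    exact this
  let r : Idx La → Idx La → Prop := fun j' j => key j' < key j
  have wf : WellFounded r := InvImage.wf key wellFounded_lt
  have htri : ∀ j j', r j j' ∨ j = j' ∨ r j' j := by
    intro j j'
    rcases lt_trichotomy (key j) (key j') with h | h | h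
    · exact Or.inl h
    · exact Or.inr (Or.inl (hkey h))
    · exact Or.inr (Or.inr h)
  set v := vv T GG.Adj col wf with hv
  have spec := vv_spec T GG.Adj col wf
  -- adjacency of chosen vertices
  have hadj : ∀ j' j y' y, r j' j → v j' = some y' → v j = some y →
      y ≠ y' ∧ (GG.Adj y' y ↔ ∃ c : La, tOf j = (c : WithBot La) ∧ c ∈ eOf j') := by
    intro j' j y' y hr h1 h2
    obtain ⟨c, e, b, w, rfl, hval, h3, h4⟩ := spec j y h2
    obtain ⟨h5, h6⟩ := h3 j' hr y' h1
    refine ⟨h5, h6.trans ⟨fun h => ⟨c, rfl, h⟩, ?_⟩⟩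
    rintro ⟨c', hc', h⟩
    simp only [tOf, WithBot.coe_inj] at hc'
    rwa [hc']
  have hvalid : ∀ j y, v j = some y → ∃ c : La, tOf j = (c : WithBot La) ∧ Valid T c (eOf j) := by
    intro j y h
    obtain ⟨c, e, b, w, rfl, hval, -⟩ := spec j y h
    exact ⟨c, rfl, hval⟩
  have hinj : ∀ j j' y, v j = some y → v j' = some y → j = j' := by
    intro j j' y h1 h2
    rcases htri j j' with h | h | h
    · exact absurd rfl (hadj j j' y y h h1 h2).1
    · exact h
    · exact absurd rfl (hadj j' j y y h h2 h1).1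
  -- no triangle in A_a
  have htf1 : ∀ a j1 j2 j3 y1 y2 y3, r j1 j2 → r j2 j3 → v j1 = some y1 → v j2 = some y2 →
      v j3 = some y3 → a ∈ eOf j1 → a ∈ eOf j2 → a ∈ eOf j3 → GG.Adj y1 y2 → GG.Adj y1 y3 →
      GG.Adj y2 y3 → False := by
    intro a j1 j2 j3 y1 y2 y3 h12 h23 h1 h2 h3 a1 a2 a3 g12 g13 g23
    have h13 : r j1 j3 := lt_trans h12 h23
    obtain ⟨c2, e2, m2⟩ := (hadj j1 j2 y1 y2 h12 h1 h2).2.mp g12
    obtain ⟨c3, e3, m3⟩ := (hadj j1 j3 y1 y3 h13 h1 h3).2.mp g13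
    obtain ⟨c3', e3', m3'⟩ := (hadj j2 j3 y2 y3 h23 h2 h3).2.mp g23
    obtain rfl : c3 = c3' := by
      rw [e3] at e3'
      exact WithBot.coe_inj.mp e3'
    obtain ⟨d1, f1, val1⟩ := hvalid j1 y1 h1
    obtain ⟨d2, f2, val2⟩ := hvalid j2 y2 h2
    obtain ⟨d3, f3, val3⟩ := hvalid j3 y3 h3
    obtain rfl : c2 = d2 := by
      rw [e2] at f2
      exact WithBot.coe_inj.mp f2
    obtain rfl : c3 = d3 := by
      rw [e3] at f3
      exact WithBot.coe_inj.mp f3
    have hlt1 : c2 < c3 := val2.1 c3 m3'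
    have hlt2 : c3 < a := val3.1 a a3
    exact val1.2.2 c2 m2 c3 m3 a a1 hlt1 hlt2 (val2.2.1 c3 m3' a a2 hlt2)
  have htf : ∀ a j1 j2 j3 y1 y2 y3, v j1 = some y1 → v j2 = some y2 →
      v j3 = some y3 → a ∈ eOf j1 → a ∈ eOf j2 → a ∈ eOf j3 → GG.Adj y1 y2 → GG.Adj y1 y3 →
      GG.Adj y2 y3 → False := by
    intro a j1 j2 j3 y1 y2 y3 h1 h2 h3 a1 a2 a3 g12 g13 g23
    have n12 : j1 ≠ j2 := by
      rintro rfl
      rw [h1] at h2
      cases h2
      exact GG.loopless.irrefl _ g12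
    have n13 : j1 ≠ j3 := by
      rintro rfl
      rw [h1] at h3
      cases h3
      exact GG.loopless.irrefl _ g13
    have n23 : j2 ≠ j3 := by
      rintro rfl
      rw [h2] at h3
      cases h3
      exact GG.loopless.irrefl _ g23
    rcases htri j1 j2 with r12 | h | r21
    · rcases htri j2 j3 with r23 | h | r32
      · exact htf1 a j1 j2 j3 y1 y2 y3 r12 r23 h1 h2 h3 a1 a2 a3 g12 g13 g23
      · exact n23 h
      · rcases htri j1 j3 with r13 | h | r31
        · exact htf1 a j1 j3 j2 y1 y3 y2 r13 r32 h1 h3 h2 a1 a3 a2 g13 g12 g23.symm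
        · exact n13 h
        · exact htf1 a j3 j1 j2 y3 y1 y2 r31 r12 h3 h1 h2 a3 a1 a2 g13.symm g23.symm g12
    · exact n12 h
    · rcases htri j1 j3 with r13 | h | r31
      · exact htf1 a j2 j1 j3 y2 y1 y3 r21 r13 h2 h1 h3 a2 a1 a3 g12.symm g23 g13
      · exact n13 h
      · rcases htri j2 j3 with r23 | h | r32
        · exact htf1 a j2 j3 j1 y2 y3 y1 r23 r31 h2 h3 h1 a2 a3 a1 g23 g12.symm g13.symm
        · exact n23 h
        · exact htf1 a j3 j2 j1 y3 y2 y1 r32 r21 h3 h2 h1 a3 a2 a1 g23.symm g13.symm g12.symm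
  -- the vertices delta_a
  have hdel : ∀ a : La, ∃ d, ∀ j y, v j = some y → d ≠ y ∧ (GG.Adj y d ↔ a ∈ eOf j) := by
    intro a
    let f : Idx La → V (Idx La) (Set (Idx La × Option (Idx La))) :=
      fun j => (v j).getD (V.leaf ∅)
    let S : Set (Idx La) := {j | (∃ y, v j = some y) ∧ a ∈ eOf j}
    have hS : ¬ ∃ i ∈ S, ∃ j ∈ S, ∃ k ∈ S, GG.Adj (f i) (f j) ∧ GG.Adj (f i) (f k) ∧
        GG.Adj (f j) (f k) := by
      rintro ⟨i, ⟨⟨y1, h1⟩, a1⟩, j, ⟨⟨y2, h2⟩, a2⟩, k, ⟨⟨y3, h3⟩, a3⟩, g1, g2, g3⟩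
      have e1 : f i = y1 := by simp [f, h1]
      have e2 : f j = y2 := by simp [f, h2]
      have e3 : f k = y3 := by simp [f, h3]
      rw [e1, e2] at g1
      rw [e1, e3] at g2
      rw [e2, e3] at g3
      exact htf a i j k y1 y2 y3 h1 h2 h3 a1 a2 a3 g1 g2 g3
    obtain ⟨d, hd1, hd2⟩ := exists_ext f S hS
    refine ⟨d, ?_⟩
    intro j y hj
    have e1 : f j = y := by simp [f, hj]
    refine ⟨by rw [← e1]; exact hd1 j, ?_⟩
    rw [← e1]
    refine (hd2 j).trans ?_
    constructor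
    · rintro ⟨i, ⟨⟨y1, h1⟩, a1⟩, h2⟩
      have e2 : f i = y1 := by simp [f, h1]
      rw [e1, e2] at h2
      subst h2
      rwa [hinj j i y hj h1]
    · intro h
      exact ⟨j, ⟨⟨y, hj⟩, h⟩, rfl⟩
  choose de hde using hdel
  -- agreement sets
  let F : La → La → Set ℕ := fun c a => {n | ∃ j y, v j = some y ∧ c ∈ eOf j ∧ a ∈ eOf j ∧
    col s(y, de c) = n ∧ col s(y, de a) = n}
  obtain ⟨c, e, Sg, hunc, hlt, hF1, hF2, hT1, hT2⟩ := hT F
  have hval : Valid T c e := ⟨hlt, hT1, hT2⟩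
  -- witnesses
  have hw : ∀ p : La × ℕ, ∃ j : Idx La, (p.1 ∈ e ∧ p.2 ∈ Sg) → ∃ y, v j = some y ∧ c ∈ eOf j ∧
      p.1 ∈ eOf j ∧ col s(y, de c) = p.2 ∧ col s(y, de p.1) = p.2 := by
    intro p
    by_cases hp : p.1 ∈ e ∧ p.2 ∈ Sg
    · have : p.2 ∈ F c p.1 := by
        rw [hF1 p.1 hp.1]
        exact hp.2
      obtain ⟨j, hj⟩ := this
      exact ⟨j, fun _ => hj⟩
    · exact ⟨Idx.nil, fun h => absurd h hp⟩
  choose w hw using hw
  let jj : Idx La := Idx.mk c e {p | p.1 ∈ e ∧ p.2 ∈ Sg} w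
  have hcond : Cond T GG.Adj col r jj (fun j' _ => v j') (de c) := by
    refine ⟨c, e, _, w, rfl, hval, ?_, ?_⟩
    · intro j' _ y' hy'
      exact hde c j' y' hy'
    · intro p hp
      obtain ⟨y, h1, h2, h3, h4, h5⟩ := hw p hp
      have hr : r (w p) jj := by
        obtain ⟨cw, hcw, hvw⟩ := hvalid (w p) y h1
        change toLex (tOf (w p), w p) < toLex (tOf jj, jj)
        rw [Prod.Lex.toLex_lt_toLex]
        left
        change tOf (w p) < ((c : La) : WithBot La)
        rw [hcw]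
        exact WithBot.coe_lt_coe.mpr (hvw.1 c h2)
      exact ⟨hr, y, h1, h4⟩
  obtain ⟨i, hi⟩ := vv_exists T GG.Adj col wf jj (de c) hcond
  change v jj = some i at hi
  obtain ⟨c', e', b', w', hjj, -, hi1, hi2⟩ := spec jj i hi
  have hjj' : c' = c ∧ e' = e ∧ b' = {p | p.1 ∈ e ∧ p.2 ∈ Sg} ∧ w' = w := by
    have := hjj
    simp only [jj, Idx.mk.injEq] at this
    exact ⟨this.1.symm, this.2.1.symm, this.2.2.1.symm, this.2.2.2.symm⟩
  obtain ⟨rfl, rfl, rfl, rfl⟩ := hjj'
  -- the colour of i delta_a is not in Sg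
  have hnot : ∀ a ∈ e', col s(i, de a) ∉ Sg := by
    intro a ha hmem
    set n := col s(i, de a) with hn
    obtain ⟨y, h1, h2, h3, h4, h5⟩ := hw (a, n) ⟨ha, hmem⟩
    obtain ⟨hr, y', h6, h7⟩ := hi2 (a, n) ⟨ha, hmem⟩
    have hyy : y' = y := by
      have : some y' = some y := h6.symm.trans h1
      exact Option.some.inj this
    subst hyy
    have g1 : GG.Adj y' i := ((hi1 _ hr y' h1).2).mpr h2
    have g2 : GG.Adj y' (de a) := ((hde a _ y' h1).2).mpr h3
    have g3 : GG.Adj i (de a) := ((hde a _ i hi).2).mpr ha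
    refine hno' y' i (de a) g1 g3 g2 ?_ ?_
    · rw [h7]
    · rw [h5]
  -- pigeonhole
  have : ¬ Set.InjOn (fun a => col s(i, de a)) e' := by
    intro hinj
    exact hunc (Set.MapsTo.countable_of_injOn (Set.mapsTo_univ _ _) hinj Set.countable_univ)
  rw [Set.InjOn] at this
  push Not at this
  obtain ⟨a, ha, b, hb, hab, hne⟩ := this
  have hfin : ∀ a ∈ e', ∀ b ∈ e', a < b → col s(i, de a) = col s(i, de b) → False := by
    intro a ha b hb hlt hab
    have hm : col s(i, de a) ∈ F a b := ⟨jj, i, hi, ha, hb, rfl, hab.symm⟩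
    rw [hF2 a ha b hb hlt] at hm
    exact hnot a ha hm
  rcases lt_or_gt_of_ne hne with h | h
  · exact hfin a ha b hb h hab
  · exact hfin b hb a ha h hab.symm

end Pool.Agent.EH
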