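import Pool.Agent.EH.Defs

set_option autoImplicit false
set_option linter.unusedSectionVars false

noncomputable section

open scoped InnerProductSpace ENNReal Topology
open Classical Filter ContinuousLinearMap

namespace Pool.Agent.EH

open Pool.Agent.VN Pool.Agent.LFT Pool.Agent.HI

section Fam

variable {G : Type} [Group G] {ι κ μ M : Type} [Fintype ι] [Fintype κ] [Fintype μ] [MulAction G M]

lemma P1_fT_apply (p : κ → ι) (x : L2 κ G) (q : ι × G) :
    fT p x q = ∑ a : κ, if p a = q.1 then x (a, q.2) else 0 := by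
  unfold fT
  rw [mulR_apply, ev_finsetSum]
  refine Finset.sum_congr rfl fun a _ => ?_
  by_cases h : p a = q.1
  · rw [if_pos h, if_pos h, ev_single]
    simp
  · rw [if_neg h, if_neg h, ev_zero]

lemma P1_ltr {ι' : Type} (X : Submodule ℂ (L2 ι' G)) [X.HasOrthogonalProjection] (q : ι' × G) :
    ltr X q = ‖X.starProjection (dl q)‖ ^ 2 := by
  unfold ltr
  rw [infDist_eq_norm, norm_sub_proj_sq, norm_dl]
  ring

/-- the sum over the fibres is a contraction on the elements supported at one place -/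
lemma P1_norm (p : κ → ι) (ℓ : κ → M) (hinj : ∀ a b, p a = p b → ℓ a = ℓ b → a = b) (w : M)
    (z : L2 κ G) (hz : ∀ q : κ × G, z q ≠ 0 → q.2 • ℓ q.1 = w) : ‖fT p z‖ ≤ ‖z‖ := by
  have hj : Function.Injective
      (fun q : ((pV (G := G) ℓ) ⁻¹' {w}) => ((p q.1.1, q.1.2) : ι × G)) := by
    rintro ⟨⟨b, g⟩, hq⟩ ⟨⟨b', g'⟩, hq'⟩ heq
    simp only [Prod.mk.injEq] at heq
    obtain ⟨h1, h2⟩ := heq
    subst h2
    have e1 : g • ℓ b = w := hq
    have e2 : g • ℓ b' = w := hq'
    have e3 : ℓ b = ℓ b' := by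
      rw [← smul_left_cancel_iff g, e1, e2]
    have := hinj b b' h1 e3
    subst this
    rfl
  have key : fT p z = push _ hj (pull (fun q : ((pV (G := G) ℓ) ⁻¹' {w}) => q.1)
      Subtype.val_injective z) := by
    ext q
    rw [P1_fT_apply]
    by_cases hex : ∃ b, p b = q.1 ∧ q.2 • ℓ b = w
    · obtain ⟨b, hb, hw⟩ := hex
      have h1 := push_apply _ hj (pull (fun q : ((pV (G := G) ℓ) ⁻¹' {w}) => q.1)
        Subtype.val_injective z) ⟨(b, q.2), hw⟩
      simp only [pull_apply] at h1
      have h2 : ((p b, q.2) : ι × G) = q := by rw [hb]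
      rw [h2] at h1
      rw [h1, Finset.sum_eq_single b]
      · rw [if_pos hb]
      · intro b' _ hb'
        by_cases h3 : p b' = q.1
        · rw [if_pos h3]
          by_contra h4
          have h5 := hz (b', q.2) h4
          apply hb'
          apply hinj b' b (h3.trans hb.symm)
          rw [← smul_left_cancel_iff q.2, hw]
          exact h5
        · rw [if_neg h3]
      · intro h
        exact absurd (Finset.mem_univ _) h
    · push Not at hex
      rw [push_apply_of_notMem]
      · refine Finset.sum_eq_zero fun b _ => ?_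
        by_cases h3 : p b = q.1
        · rw [if_pos h3]
          by_contra h4
          exact hex b h3 (hz (b, q.2) h4)
        · rw [if_neg h3]
      · rintro ⟨⟨b, g⟩, hq⟩ h
        have h1 : p b = q.1 := congrArg Prod.fst h
        have h2 : g = q.2 := congrArg Prod.snd h
        subst h2
        exact hex b h1 hq
  rw [key]
  refine le_trans ?_ (norm_pull_le (fun q : ((pV (G := G) ℓ) ⁻¹' {w}) => q.1)
    Subtype.val_injective z)
  set y := pull (fun q : ((pV (G := G) ℓ) ⁻¹' {w}) => q.1) Subtype.val_injective z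
  have h1 : pull _ hj (push _ hj y) = y := by
    ext a
    rw [pull_apply, push_apply]
  have h2 : ⟪push _ hj y, push _ hj y⟫_ℂ = ⟪y, y⟫_ℂ := by
    conv_lhs => rw [push]
    rw [ContinuousLinearMap.adjoint_inner_left]
    change ⟪y, pull _ hj (push _ hj y)⟫_ℂ = _
    rw [h1]
  rw [inner_self_eq_norm_sq_to_K, inner_self_eq_norm_sq_to_K] at h2
  have h3 : ‖push _ hj y‖ ^ 2 = ‖y‖ ^ 2 := by exact_mod_cast h2
  exact le_of_eq ((pow_left_inj₀ (norm_nonneg _) (norm_nonneg _) two_ne_zero).mp h3)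

/-- P1: upper bound for the dimension of a family -/
theorem fam_upper (p : κ → ι) (ℓ : κ → M) (hinj : ∀ a b, p a = p b → ℓ a = ℓ b → a = b)
    {Z : Submodule ℂ (L2 κ G)} (hZ : CI Z) (hl : Loc (pV ℓ) Z) {X : Submodule ℂ (L2 ι G)}
    (hX : CI X) (h : ∀ z ∈ Z, fT p z ∈ X) : dm Z ≤ ∑ a, ltr X (p a, 1) := by
  have c1 : CompleteSpace Z := hZ.cl.completeSpace_coe
  have c2 : CompleteSpace X := hX.cl.completeSpace_coe
  unfold dm
  rw [vdim_eq_sum]
  refine Finset.sum_le_sum fun a _ => ?_
  rw [P1_ltr]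
  set z := Z.starProjection (dl (a, (1 : G))) with hz
  have hcut : cutF (pV ℓ) (ℓ a) (dl (a, (1 : G)) : L2 κ G) = dl (a, 1) := by
    ext q
    rw [cutF_apply, dl_apply]
    by_cases hq : q = (a, 1)
    · subst hq
      simp [pV]
    · simp [hq]
  have hz1 : cutF (pV ℓ) (ℓ a) z = z := by
    rw [hz, ← hl.proj, hcut]
  have hz2 : ∀ q : κ × G, z q ≠ 0 → q.2 • ℓ q.1 = ℓ a := by
    intro q hq
    by_contra hne
    apply hq
    rw [← hz1, cutF_apply, if_neg]
    exact hne
  have hzZ : z ∈ Z := Z.starProjection_apply_mem _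
  have hx0 : fT p z ∈ X := h z hzZ
  have hn : ‖fT p z‖ ≤ ‖z‖ := P1_norm p ℓ hinj (ℓ a) z hz2
  have hv : fT p z (p a, 1) = z (a, 1) := by
    rw [P1_fT_apply, Finset.sum_eq_single a]
    · rw [if_pos rfl]
    · intro b _ hb
      by_cases h3 : p b = p a
      · rw [if_pos h3]
        by_contra h4
        apply hb
        apply hinj b a h3
        have h5 := hz2 (b, 1) h4
        rwa [one_smul] at h5
      · rw [if_neg h3]
    · intro h
      exact absurd (Finset.mem_univ _) h
  have h1 : z (a, 1) = ((‖z‖ ^ 2 : ℝ) : ℂ) := by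
    rw [← inner_dl_left, hz, inner_proj]
  have h2 : fT p z (p a, 1) = ⟪X.starProjection (dl (p a, (1 : G))), fT p z⟫_ℂ := by
    rw [← inner_dl_left]
    have h3 := X.starProjection_inner_eq_zero (dl (p a, (1 : G))) _ hx0
    rw [inner_sub_left, sub_eq_zero] at h3
    exact h3
  have h3 : ‖z‖ ^ 2 ≤ ‖X.starProjection (dl (p a, (1 : G)))‖ * ‖z‖ := by
    have h4 := norm_inner_le_norm (𝕜 := ℂ) (X.starProjection (dl (p a, (1 : G)))) (fT p z)
    rw [← h2, hv, h1, Complex.norm_real, Real.norm_of_nonneg (by positivity)] at h4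
    exact h4.trans (mul_le_mul_of_nonneg_left hn (norm_nonneg _))
  have h4 : ‖z‖ ≤ ‖X.starProjection (dl (p a, (1 : G)))‖ := by
    by_cases h0 : ‖z‖ = 0
    · rw [h0]
      exact norm_nonneg _
    · have h5 : 0 < ‖z‖ := lt_of_le_of_ne (norm_nonneg _) (Ne.symm h0)
      rw [sq] at h3
      exact le_of_mul_le_mul_right h3 h5
  exact pow_le_pow_left₀ (norm_nonneg _) h4 2

end Fam

end Pool.Agent.EH
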