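import Pool.Agent.EH.P3

set_option autoImplicit false
set_option linter.unusedSectionVars false

noncomputable section

open scoped InnerProductSpace ENNReal Topology
open Classical Filter ContinuousLinearMap

namespace Pool.Agent.EH

open Pool.Agent.VN Pool.Agent.LFT Pool.Agent.HI

section Fam

variable {G : Type} [Group G] {ι κ μ M : Type} [Fintype ι] [Fintype κ] [Fintype μ] [MulAction G M]

lemma P4_fT (p : κ → ι) (y : L2 κ G) (i : ι) (g : G) :
    (fT p y) (i, g) = ∑ a : κ, if p a = i then y (a, g) else 0 := by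
  unfold fT
  rw [mulR_apply, ev_finsetSum]
  refine Finset.sum_congr rfl fun a _ => ?_
  split_ifs with h
  · rw [ev_single, inv_one, mul_one, one_mul]
  · rw [ev_zero]

lemma P4_fT_dl (p : κ → ι) (a : κ) (g : G) : fT p (dl (a, g)) = (dl (p a, g) : L2 ι G) := by
  ext q
  obtain ⟨i, h⟩ := q
  rw [P4_fT, dl_apply, Finset.sum_eq_single a]
  · rw [dl_apply]
    by_cases h1 : p a = i
    · subst h1
      rw [if_pos rfl]
      by_cases h2 : h = g
      · subst h2
        simp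
      · rw [if_neg (fun h3 => h2 (Prod.ext_iff.1 h3).2), if_neg (fun h3 => h2 (Prod.ext_iff.1 h3).2)]
    · rw [if_neg h1, if_neg (fun h3 => h1 (Prod.ext_iff.1 h3).1.symm)]
  · intro b _ hb
    rw [dl_apply, if_neg (fun h3 => hb (Prod.ext_iff.1 h3).1), ite_self]
  · intro h
    exact absurd (Finset.mem_univ _) h

/-- the inverse on the fibre -/
def P4_V (p : κ → ι) (ℓ : κ → M) (c : M) : L2 ι G →L[ℂ] L2 κ G :=
  cutF (pV ℓ) c ∘L ContinuousLinearMap.adjoint (fT p)

lemma P4_adj (p : κ → ι) (x : L2 ι G) (b : κ) (g : G) :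
    (ContinuousLinearMap.adjoint (fT p) x) (b, g) = x (p b, g) := by
  rw [← inner_dl_left, ContinuousLinearMap.adjoint_inner_right, P4_fT_dl, inner_dl_left]

lemma P4_V_apply (p : κ → ι) (ℓ : κ → M) (c : M) (x : L2 ι G) (b : κ) (g : G) :
    (P4_V p ℓ c x) (b, g) = if g • ℓ b = c then x (p b, g) else 0 := by
  unfold P4_V
  rw [ContinuousLinearMap.comp_apply, cutF_apply, P4_adj]
  rfl

lemma P4_inner (p : κ → ι) (ℓ : κ → M) (c : M) {y : L2 κ G} (hy : cutF (pV ℓ) c y = y)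
    (x : L2 ι G) : ⟪fT p y, x⟫_ℂ = ⟪y, P4_V p ℓ c x⟫_ℂ := by
  unfold P4_V
  rw [ContinuousLinearMap.comp_apply, ← inner_cut, hy, ContinuousLinearMap.adjoint_inner_right]

lemma P4_cut_zero {ℓ : κ → M} {c : M} {y : L2 κ G} (hy : cutF (pV ℓ) c y = y) {b : κ} {g : G}
    (h : g • ℓ b ≠ c) : y (b, g) = 0 := by
  rw [← hy, cutF_apply]
  exact if_neg h

lemma P4_VU (p : κ → ι) (ℓ : κ → M) (hinj : ∀ a b, p a = p b → ℓ a = ℓ b → a = b) (c : M)
    {y : L2 κ G} (hy : cutF (pV ℓ) c y = y) : P4_V p ℓ c (fT p y) = y := by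
  ext q
  obtain ⟨b, g⟩ := q
  rw [P4_V_apply]
  split_ifs with h
  · rw [P4_fT, Finset.sum_eq_single b]
    · rw [if_pos rfl]
    · intro b' _ hb'
      split_ifs with h1
      · apply P4_cut_zero hy
        intro h2
        apply hb'
        apply hinj _ _ h1
        rw [← h] at h2
        exact smul_left_cancel g h2
      · rfl
    · intro h1
      exact absurd (Finset.mem_univ _) h1
  · exact (P4_cut_zero hy h).symm

lemma P4_UV (p : κ → ι) (ℓ : κ → M) (hinj : ∀ a b, p a = p b → ℓ a = ℓ b → a = b) (c : M)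
    {x : L2 ι G} (hx : ∀ q : ι × G, x q ≠ 0 → ∃ a, p a = q.1 ∧ q.2 • ℓ a = c) :
    fT p (P4_V p ℓ c x) = x := by
  ext q
  obtain ⟨i, g⟩ := q
  rw [P4_fT]
  by_cases h : ∃ a, p a = i ∧ g • ℓ a = c
  · obtain ⟨a, ha, hga⟩ := h
    rw [Finset.sum_eq_single a]
    · rw [if_pos ha, P4_V_apply, if_pos hga, ha]
    · intro b _ hb
      split_ifs with h1
      · rw [P4_V_apply, if_neg]
        intro h2
        apply hb
        apply hinj _ _ (h1.trans ha.symm)
        rw [← hga] at h2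
        exact smul_left_cancel g h2
      · rfl
    · intro h1
      exact absurd (Finset.mem_univ _) h1
  · have h0 : x (i, g) = 0 := by
      by_contra h1
      exact h (hx (i, g) h1)
    rw [h0]
    refine Finset.sum_eq_zero fun b _ => ?_
    split_ifs with h1
    · rw [P4_V_apply, if_neg]
      intro h2
      exact h ⟨b, h1, h2⟩
    · rfl

lemma P4_XR_closed {X : Submodule ℂ (L2 ι G)} (hX : IsClosed (X : Set (L2 ι G))) (p : κ → ι)
    (ℓ : κ → M) (c : M) : IsClosed (XR X p ℓ c : Set (L2 ι G)) := by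
  have h : (XR X p ℓ c : Set (L2 ι G)) = (X : Set (L2 ι G)) ∩
      ⋂ q : ι × G, {x : L2 ι G | x q ≠ 0 → ∃ a, p a = q.1 ∧ q.2 • ℓ a = c} := by
    ext x
    constructor
    · rintro ⟨h1, h2⟩
      exact ⟨h1, Set.mem_iInter.2 h2⟩
    · rintro ⟨h1, h2⟩
      exact ⟨h1, Set.mem_iInter.1 h2⟩
  rw [h]
  refine hX.inter (isClosed_iInter fun q => ?_)
  by_cases hq : ∃ a, p a = q.1 ∧ q.2 • ℓ a = c
  · have h1 : {x : L2 ι G | x q ≠ 0 → ∃ a, p a = q.1 ∧ q.2 • ℓ a = c} = Set.univ := by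
      ext x
      simp only [Set.mem_setOf_eq, Set.mem_univ, iff_true]
      exact fun _ => hq
    rw [h1]
    exact isClosed_univ
  · have h1 : {x : L2 ι G | x q ≠ 0 → ∃ a, p a = q.1 ∧ q.2 • ℓ a = c} =
        (fun x : L2 ι G => ⟪dl q, x⟫_ℂ) ⁻¹' {0} := by
      ext x
      simp only [Set.mem_setOf_eq, Set.mem_preimage, Set.mem_singleton_iff, inner_dl_left]
      constructor
      · intro h2
        by_contra h3
        exact hq (h2 h3)
      · intro h2 h3
        exact absurd h2 h3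
    rw [h1]
    exact isClosed_singleton.preimage (continuous_const.inner continuous_id)

lemma P4_ltr {K : Submodule ℂ (L2 ι G)} [K.HasOrthogonalProjection] (q : ι × G) :
    ltr K q = ‖K.starProjection (dl q)‖ ^ 2 := by
  unfold ltr
  rw [infDist_eq_norm, norm_sub_proj_sq, norm_dl]
  ring

/-- P4: the dimension of a family -/
theorem dm_fam (p : κ → ι) (ℓ : κ → M) (hinj : ∀ a b, p a = p b → ℓ a = ℓ b → a = b)
    (A : μ → (ι × G →₀ ℂ)) {C : Finset M} (hC : CovC p ℓ A C) :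
    dm (kr (mulR (fAC p ℓ A C))) = ∑ a, ltr (XR (kr (mulR A)) p ℓ (ℓ a)) (p a, 1) := by
  set Y := kr (mulR (fAC p ℓ A C)) with hY
  set X := kr (mulR A) with hX
  have hmem : ∀ y, y ∈ Y ↔ ∀ c, fT p (cutF (pV ℓ) c y) ∈ X := mem_fam p ℓ hinj A hC
  have cY : CompleteSpace Y := (kr_closed _).completeSpace_coe
  have hYl : Loc (pV ℓ) Y := by
    intro y hy c
    rw [hmem] at hy ⊢
    intro c'
    rw [cutF_cutF]
    split_ifs with h
    · exact hy c'
    · rw [map_zero]
      exact X.zero_mem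
  unfold dm
  rw [vdim_eq_sum]
  refine Finset.sum_congr rfl fun a _ => ?_
  have cR : CompleteSpace (XR X p ℓ (ℓ a)) :=
    (P4_XR_closed (kr_closed _) p ℓ (ℓ a)).completeSpace_coe
  rw [P4_ltr]
  set z := Y.starProjection (dl (a, (1 : G))) with hz
  have hzY : z ∈ Y := Submodule.starProjection_apply_mem _ _
  have hcd : cutF (pV ℓ) (ℓ a) (dl (a, (1 : G)) : L2 κ G) = dl (a, 1) := by
    ext q
    rw [cutF_apply, dl_apply]
    by_cases hq : q = (a, 1)
    · subst hq
      rw [if_pos rfl, if_pos]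
      show (1 : G) • ℓ a = ℓ a
      exact one_smul _ _
    · rw [if_neg hq, ite_self]
  have hcz : cutF (pV ℓ) (ℓ a) z = z := by
    rw [hz, ← hYl.proj, hcd]
  have hUz : fT p z ∈ XR X p ℓ (ℓ a) := by
    refine ⟨?_, ?_⟩
    · have h1 := (hmem z).1 hzY (ℓ a)
      rwa [hcz] at h1
    · rintro ⟨i, g⟩ hq
      rw [P4_fT] at hq
      obtain ⟨b, -, hb⟩ := Finset.exists_ne_zero_of_sum_ne_zero hq
      split_ifs at hb with h1
      · refine ⟨b, h1, ?_⟩
        by_contra h2
        exact hb (P4_cut_zero hcz h2)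
      · exact absurd rfl hb
  have hproj : (XR X p ℓ (ℓ a)).starProjection (dl (p a, (1 : G))) = fT p z := by
    apply Submodule.eq_starProjection_of_mem_of_inner_eq_zero hUz
    rintro x ⟨hx, hx'⟩
    have hd : cutF (pV ℓ) (ℓ a) (dl (a, (1 : G)) - z) = dl (a, 1) - z := by
      rw [map_sub, hcd, hcz]
    rw [← P4_fT_dl, ← map_sub, P4_inner p ℓ (ℓ a) hd]
    apply Submodule.starProjection_inner_eq_zero
    rw [hmem]
    intro c
    have hcV : cutF (pV ℓ) c (P4_V p ℓ (ℓ a) x) =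
        if c = ℓ a then P4_V p ℓ (ℓ a) x else 0 := by
      unfold P4_V
      rw [ContinuousLinearMap.comp_apply, cutF_cutF]
      split_ifs with h
      · rw [h]
      · rfl
    rw [hcV]
    split_ifs with h
    · rw [P4_UV p ℓ hinj (ℓ a) hx']
      exact hx
    · rw [map_zero]
      exact X.zero_mem
  have hn : ⟪fT p z, fT p z⟫_ℂ = ⟪z, z⟫_ℂ := by
    rw [P4_inner p ℓ (ℓ a) hcz, P4_VU p ℓ hinj (ℓ a) hcz]
  rw [hproj]
  rw [inner_self_eq_norm_sq_to_K, inner_self_eq_norm_sq_to_K] at hn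
  exact_mod_cast hn.symm

end Fam

end Pool.Agent.EH
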