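import Pool.Agent.EH.P3
import Pool.Agent.EH.P4

set_option autoImplicit false
set_option linter.unusedSectionVars false

noncomputable section

open scoped InnerProductSpace ENNReal Topology
open Classical Filter ContinuousLinearMap

namespace Pool.Agent.EH

open Pool.Agent.VN Pool.Agent.LFT Pool.Agent.HI

section P10aux

variable {n : ℕ}

/-- the cell with directions `J` at the position `α` -/
def P10cell (R : ℕ) (J : Finset (Fin n)) (α : Fin n → ℕ) : Cell n :=
  ((fun l => (R + 1 : ℤ) - (if l ∈ J then 1 else 0) - α l, J) : Pt n × Finset (Fin n))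

lemma P10_cell_ext {c d : Cell n} (h1 : ∀ i, c.1 i = d.1 i) (h2 : c.2 = d.2) : c = d :=
  Prod.ext (funext h1) h2

lemma P10_smul_fst (g : Af n) (c : Cell n) (i : Fin n) :
    (g • c).1 i = g.tr i + c.1 (g.pm.symm i) := rfl

lemma P10_smul_snd (g : Af n) (c : Cell n) : (g • c).2 = c.2.map g.pm.toEmbedding := rfl

lemma P10cell_fst (R : ℕ) (J : Finset (Fin n)) (α : Fin n → ℕ) (l : Fin n) :
    (P10cell R J α).1 l = (R + 1 : ℤ) - (if l ∈ J then 1 else 0) - α l := rfl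

lemma P10cell_snd (R : ℕ) (J : Finset (Fin n)) (α : Fin n → ℕ) :
    (P10cell R J α).2 = J := rfl

lemma P10cell_inj (R : ℕ) {J J' : Finset (Fin n)} {α α' : Fin n → ℕ}
    (h : P10cell R J α = P10cell R J' α') : J = J' ∧ α = α' := by
  have h1 : J = J' := congrArg (fun c : Cell n => c.2) h
  subst h1
  refine ⟨rfl, funext fun l => ?_⟩
  have h2 := congrArg (fun c : Cell n => c.1 l) h
  simp only [P10cell_fst] at h2
  omega

lemma P10_key (R : ℕ) (J : Finset (Fin n)) (α : Fin n → ℕ) (g : Af n) (j : ℕ)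
    (hJ : J.card = j) (hα : ∀ i, α i ≤ mJ R J i) :
    (∃ J' α', J'.card = j ∧ (∀ i, α' i ≤ mJ R J' i) ∧ g • P10cell R J' α' = P10cell R J α) ↔
      ∀ i, -(α i : ℤ) ≤ g.tr i ∧ g.tr i ≤ ((mJ R J i - α i : ℕ) : ℤ) := by
  constructor
  · rintro ⟨J', α', h1, h2, h3⟩ i
    have e1 := congrArg (fun c : Cell n => c.1 i) h3
    simp only [P10_smul_fst, P10cell_fst] at e1
    have e2 : J'.map g.pm.toEmbedding = J := congrArg (fun c : Cell n => c.2) h3
    have e3 : i ∈ J ↔ g.pm.symm i ∈ J' := by rw [← e2, Finset.mem_map_equiv]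
    have h4 := h2 (g.pm.symm i)
    have h5 := hα i
    unfold mJ at h4 h5 ⊢
    by_cases h6 : i ∈ J
    · have h7 := e3.mp h6
      simp only [h6, h7, if_true] at e1 h4 h5 ⊢
      omega
    · have h7 : g.pm.symm i ∉ J' := fun h => h6 (e3.mpr h)
      simp only [h6, h7, if_false] at e1 h4 h5 ⊢
      omega
  · intro h
    have e3 : ∀ l, l ∈ J.map g.pm.symm.toEmbedding ↔ g.pm l ∈ J := by
      intro l
      rw [Finset.mem_map_equiv]
      rfl
    refine ⟨J.map g.pm.symm.toEmbedding, fun l => (g.tr (g.pm l) + α (g.pm l)).toNat, ?_, ?_, ?_⟩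
    · rw [Finset.card_map, hJ]
    · intro l
      have h4 := h (g.pm l)
      have h5 := hα (g.pm l)
      unfold mJ at h4 h5 ⊢
      by_cases h6 : g.pm l ∈ J
      · have h7 := (e3 l).mpr h6
        simp only [h6, h7, if_true] at h4 h5 ⊢
        omega
      · have h7 : l ∉ J.map g.pm.symm.toEmbedding := fun h => h6 ((e3 l).mp h)
        simp only [h6, h7, if_false] at h4 h5 ⊢
        omega
    · apply P10_cell_ext
      · intro i
        rw [P10_smul_fst, P10cell_fst, P10cell_fst]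
        have h4 := h i
        have h8 : g.pm (g.pm.symm i) = i := g.pm.apply_symm_apply i
        rw [h8]
        by_cases h6 : i ∈ J
        · have h7 : g.pm.symm i ∈ J.map g.pm.symm.toEmbedding := by
            rw [e3, h8]
            exact h6
          rw [if_pos h6, if_pos h7]
          omega
        · have h7 : g.pm.symm i ∉ J.map g.pm.symm.toEmbedding := by
            rw [e3, h8]
            exact h6
          rw [if_neg h6, if_neg h7]
          omega
      · rw [P10_smul_snd, P10cell_snd, P10cell_snd]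
        ext i
        rw [Finset.mem_map_equiv, e3]
        have h8 : g.pm (g.pm.symm i) = i := g.pm.apply_symm_apply i
        rw [h8]

lemma P10_finite (c : Cell n) : Finite (MulAction.stabilizer (Af n) c) := by
  apply Finite.of_injective (fun a : MulAction.stabilizer (Af n) c => a.1.pm)
  rintro ⟨a, ha⟩ ⟨b, hb⟩ h
  simp only at h
  rw [MulAction.mem_stabilizer_iff] at ha hb
  apply Subtype.ext
  refine Af.ext (funext fun i => ?_) h
  have h1 := congrArg (fun c : Cell n => c.1 i) ha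
  have h2 := congrArg (fun c : Cell n => c.1 i) hb
  simp only [P10_smul_fst] at h1 h2
  simp only
  rw [h] at h1
  linarith

end P10aux

section Cells

variable {Λ : Type} [Group Λ] {k : Subring ℂ} {n : ℕ} {ι μ : Type} [Fintype ι] [Fintype μ]

lemma P10_mem_Bx {m α : Fin n → ℕ} : α ∈ Bx m ↔ ∀ i, α i ≤ m i := by
  unfold Bx
  rw [Fintype.mem_piFinset]
  refine forall_congr' fun i => ?_
  rw [Finset.mem_range, Nat.lt_succ_iff]

/-- P10: the sums over the cells are integral -/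
theorem cells_int (θ : Λ →* Af n)
    (hθ : ∀ F : Subgroup (Af n), Finite F → AtiyahOver k (F.comap θ))
    (A : μ → (ι × Λ →₀ ℂ)) (hA : ∀ j, CoefIn k (A j)) (R j : ℕ) :
    ∃ z : ℤ, ∑ J ∈ Finset.powersetCard j (Finset.univ : Finset (Fin n)),
      FF θ (kr (mulR A)) (mJ R J) = z := by
  obtain ⟨K0, hK0⟩ : ∃ K0 : Finset (Σ _ : Finset (Fin n), (Fin n → ℕ)),
    K0 = (Finset.powersetCard j (Finset.univ : Finset (Fin n))).sigma fun J => Bx (mJ R J) :=
      ⟨_, rfl⟩
  have hK1 : ∀ c, c ∈ K0 ↔ c.1.card = j ∧ ∀ i, c.2 i ≤ mJ R c.1 i := by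
    intro c
    rw [hK0, Finset.mem_sigma, Finset.mem_powersetCard, P10_mem_Bx]
    exact ⟨fun h => ⟨h.1.2, h.2⟩, fun h => ⟨⟨Finset.subset_univ _, h.1⟩, h.2⟩⟩
  obtain ⟨ℓ, hℓ⟩ : ∃ ℓ : ι × K0 → Via θ (Cell n),
    ℓ = fun a => toVia θ (P10cell R a.2.1.1 a.2.1.2) := ⟨_, rfl⟩
  have hinj : ∀ x y : ι × K0, Prod.fst x = Prod.fst y → ℓ x = ℓ y → x = y := by
    rintro ⟨x1, ⟨⟨J, α⟩, hx⟩⟩ ⟨y1, ⟨⟨J', α'⟩, hy⟩⟩ h3 h4
    simp only at h3
    subst h3
    rw [hℓ] at h4
    obtain ⟨rfl, rfl⟩ := P10cell_inj R (h4 : P10cell R J α = P10cell R J' α')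
    rfl
  obtain ⟨C, hC⟩ : ∃ C : Finset (Via θ (Cell n)), CovC (Prod.fst : ι × K0 → ι) ℓ A C := by
    refine ⟨(Finset.univ : Finset μ).biUnion fun j => (A j).support.biUnion fun u =>
      Finset.univ.image fun a => u.2⁻¹ • ℓ a, ?_⟩
    intro j u hu a _
    exact Finset.mem_biUnion.mpr ⟨j, Finset.mem_univ _, Finset.mem_biUnion.mpr ⟨u, hu,
      Finset.mem_image.mpr ⟨a, Finset.mem_univ _, rfl⟩⟩⟩
  have h1 : LocOp k (fun a => (PUnit.unit, ℓ a))
      (fun r : μ × C => (PUnit.unit, r.2.1)) (mulR (fAC (Prod.fst : ι × K0 → ι) ℓ A C)) :=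
    fam_loc (N' := PUnit.{1}) (Prod.fst : ι × K0 → ι) ℓ A C (fun _ => PUnit.unit)
      (fun _ => PUnit.unit) hA fun j u _ => rfl
  have h2 := (Rat.kr h1).mapLab (Prod.snd : PUnit.{1} × Via θ (Cell n) → Via θ (Cell n))
    (fun _ _ => rfl)
  have h3 : ∀ m : Via θ (Cell n), AtiyahOver k (MulAction.stabilizer Λ m) := by
    intro m
    have e : MulAction.stabilizer Λ m =
        (MulAction.stabilizer (Af n) (ofVia m : Cell n)).comap θ := by
      ext g
      rw [MulAction.mem_stabilizer_iff, Subgroup.mem_comap, MulAction.mem_stabilizer_iff]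
      exact Iff.rfl
    rw [e]
    exact hθ _ (P10_finite _)
  obtain ⟨z, hz⟩ := Rat.int h3 h2
  refine ⟨z, ?_⟩
  rw [← hz, dm_fam _ ℓ hinj A hC, Fintype.sum_prod_type, Finset.sum_comm]
  have h4 : ∀ c : K0, ∀ i : ι, ltr (XR (kr (mulR A)) (Prod.fst : ι × K0 → ι) ℓ (ℓ (i, c)))
      (((i, c) : ι × K0).1, (1 : Λ)) =
      ltr (bx θ (kr (mulR A)) c.1.2 fun l => mJ R c.1.1 l - c.1.2 l) (i, 1) := by
    rintro ⟨⟨J, α⟩, hc⟩ i
    have hc' := (hK1 _).mp hc
    have e : XR (kr (mulR A)) (Prod.fst : ι × K0 → ι) ℓ (ℓ (i, ⟨⟨J, α⟩, hc⟩)) =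
        bx θ (kr (mulR A)) α fun l => mJ R J l - α l := by
      ext x
      refine and_congr Iff.rfl (forall_congr' fun q => imp_congr Iff.rfl ?_)
      rw [← P10_key R J α (θ q.2) j hc'.1 hc'.2]
      constructor
      · rintro ⟨⟨i', ⟨⟨J', α'⟩, hc2⟩⟩, -, h6⟩
        have hc2' := (hK1 _).mp hc2
        rw [hℓ] at h6
        exact ⟨J', α', hc2'.1, hc2'.2, h6⟩
      · rintro ⟨J', α', h5, h6, h7⟩
        refine ⟨(q.1, ⟨⟨J', α'⟩, (hK1 _).mpr ⟨h5, h6⟩⟩), rfl, ?_⟩
        rw [hℓ]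
        exact h7
    rw [e]
  rw [Finset.sum_congr rfl fun c _ => Finset.sum_congr rfl fun i _ => h4 c i]
  rw [Finset.sum_coe_sort K0 fun c => ∑ i : ι,
    ltr (bx θ (kr (mulR A)) c.2 fun l => mJ R c.1 l - c.2 l) (i, (1 : Λ)), hK0, Finset.sum_sigma]
  rfl

end Cells

end Pool.Agent.EH
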