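import Pool.Agent.EH.Defs

set_option autoImplicit false
set_option linter.unusedSectionVars false

noncomputable section

open scoped InnerProductSpace ENNReal Topology
open Classical Filter ContinuousLinearMap

namespace Pool.Agent.EH

open Pool.Agent.VN Pool.Agent.LFT Pool.Agent.HI

section Lead

variable {G : Type} [Group G] {k : Subring ℂ} {M κ : Type} [MulAction G M] [Fintype κ]

/-- the elements whose coordinates in a finite set vanish -/
def P5_Z (X : Submodule ℂ (L2 κ G)) (s : Finset κ) : Submodule ℂ (L2 κ G) :=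
  X ⊓ kr (crd (fun a : κ => a) (s : Set κ))

lemma P5_mem (X : Submodule ℂ (L2 κ G)) (s : Finset κ) (y : L2 κ G) :
    y ∈ P5_Z X s ↔ y ∈ X ∧ ∀ b ∈ s, ∀ g, y (b, g) = 0 := by
  unfold P5_Z
  rw [Submodule.mem_inf, mem_kr]
  refine and_congr_right fun _ => ?_
  constructor
  · intro h b hb g
    have h1 := congrArg (fun z : L2 κ G => z (b, g)) h
    simp only at h1
    rw [crd_apply, if_pos (Finset.mem_coe.mpr hb)] at h1
    exact h1
  · intro h
    ext q
    rw [crd_apply]
    split_ifs with hq
    · exact h q.1 (Finset.mem_coe.mp hq) q.2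
    · rfl

lemma P5_rat {lab : κ → M} {X : Submodule ℂ (L2 κ G)} (hX : Rat k lab X) (s : Finset κ) :
    Rat k lab (P5_Z X s) :=
  Rat.inf hX (Rat.kr (LocOp.crd _ _ fun _ _ => rfl))

/-- the step: the dimension drops by one if the new coordinate does not vanish -/
lemma P5_step (hI : Int0 k G M) {lab : κ → M} {X : Submodule ℂ (L2 κ G)} (hX : Rat k lab X)
    (s : Finset κ) (a : κ) :
    dm (P5_Z X s) = dm (P5_Z X (insert a s)) +
      if ∃ y ∈ P5_Z X s, ∃ g, y (a, g) ≠ 0 then 1 else 0 := by
  have hr := P5_rat hX s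
  set T : L2 κ G →L[ℂ] L2 Unit G := crd (fun _ : Unit => a) Set.univ with hT
  have hTl : LocOp k lab (fun _ : Unit => lab a) T := LocOp.crd _ _ fun _ _ => rfl
  have hTa : ∀ (y : L2 κ G) (q : Unit × G), T y q = y (a, q.2) := by
    intro y q
    rw [hT, crd_apply, if_pos (Set.mem_univ _)]
  have h1 := dm_imc hTl.equivar hr.ci
  have h2 : P5_Z X s ⊓ kr T = P5_Z X (insert a s) := by
    ext y
    rw [Submodule.mem_inf, P5_mem, P5_mem, mem_kr]
    constructor
    · rintro ⟨⟨hy, hs⟩, h0⟩
      refine ⟨hy, fun b hb g => ?_⟩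
      rcases Finset.mem_insert.mp hb with rfl | hb
      · have h3 := hTa y ((), g)
        rw [h0] at h3
        exact h3.symm
      · exact hs b hb g
    · rintro ⟨hy, hs⟩
      refine ⟨⟨hy, fun b hb g => hs b (Finset.mem_insert_of_mem hb) g⟩, ?_⟩
      ext q
      rw [hTa]
      exact hs a (Finset.mem_insert_self a s) q.2
  rw [h2] at h1
  have hri := Rat.imc hTl hr
  split_ifs with hl
  · obtain ⟨y, hy, g, hg⟩ := hl
    obtain ⟨z, hz⟩ := hI Unit inferInstance _ _ hri
    have h4 : dm (imc T (P5_Z X s)) ≤ 1 := by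
      have h := dm_le_card (imc T (P5_Z X s))
      simpa using h
    have h5 : 0 ≤ dm (imc T (P5_Z X s)) := dm_nonneg _
    have h6 : dm (imc T (P5_Z X s)) ≠ 0 := by
      intro h0
      have h7 := eq_bot_of_vdim_eq_zero hri.ci.inv hri.ci.cl h0
      have h8 : T y ∈ imc T (P5_Z X s) := mem_imc T hy
      rw [h7, Submodule.mem_bot] at h8
      apply hg
      have h9 := hTa y ((), g)
      rw [h8] at h9
      exact h9.symm
    have h7 : z = 1 := by
      rw [hz] at h4 h5 h6
      have h8 : z ≤ 1 := by exact_mod_cast h4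
      have h9 : 0 ≤ z := by exact_mod_cast h5
      have h10 : z ≠ 0 := by exact_mod_cast h6
      omega
    rw [hz, h7] at h1
    rw [← h1]
    push_cast
    ring
  · have h3 : imc T (P5_Z X s) = ⊥ := by
      rw [eq_bot_iff]
      refine imc_le CI.bot.cl fun y hy => ?_
      rw [Submodule.mem_bot]
      ext q
      rw [hTa]
      by_contra hne
      exact hl ⟨y, hy, q.2, hne⟩
    rw [h3, dm_bot, zero_add] at h1
    rw [← h1, add_zero]

/-- the count along a set of coordinates closed upwards -/
lemma P5_count (hI : Int0 k G M) {lab : κ → M} {X : Submodule ℂ (L2 κ G)} (hX : Rat k lab X)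
    {K : Type} [LinearOrder K] (key : κ → K) (hkey : Function.Injective key) (s : Finset κ)
    (hs : ∀ b ∈ s, ∀ a, key b < key a → a ∈ s) :
    dm X = dm (P5_Z X s) + ((s.filter fun a => ∃ y ∈ X, (∃ g, y (a, g) ≠ 0) ∧
      ∀ b g, key a < key b → y (b, g) = 0).card : ℝ) := by
  induction hn : s.card generalizing s with
  | zero =>
    rw [Finset.card_eq_zero] at hn
    subst hn
    rw [Finset.filter_empty, Finset.card_empty, Nat.cast_zero, add_zero]
    congr 1
    ext y
    rw [P5_mem]
    simp
  | succ n ih =>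
    have hne : s.Nonempty := by
      rw [← Finset.card_pos]
      omega
    obtain ⟨a, ha, hmin⟩ := Finset.exists_min_image s key hne
    have hup : ∀ b ∈ s.erase a, ∀ c, key b < key c → c ∈ s.erase a := by
      intro b hb c hc
      rw [Finset.mem_erase] at hb ⊢
      refine ⟨?_, hs b hb.2 c hc⟩
      rintro rfl
      exact absurd hc (not_lt.mpr (hmin b hb.2))
    have h1 := ih (s.erase a) hup (by rw [Finset.card_erase_of_mem ha]; omega)
    have h2 := P5_step hI hX (s.erase a) a
    rw [Finset.insert_erase ha] at h2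
    have h3 : (∃ y ∈ P5_Z X (s.erase a), ∃ g, y (a, g) ≠ 0) ↔
        ∃ y ∈ X, (∃ g, y (a, g) ≠ 0) ∧ ∀ b g, key a < key b → y (b, g) = 0 := by
      constructor
      · rintro ⟨y, hy, hg⟩
        rw [P5_mem] at hy
        refine ⟨y, hy.1, hg, fun b g hb => hy.2 b ?_ g⟩
        rw [Finset.mem_erase]
        refine ⟨?_, hs a ha b hb⟩
        rintro rfl
        exact lt_irrefl _ hb
      · rintro ⟨y, hy, hg, h0⟩
        refine ⟨y, ?_, hg⟩
        rw [P5_mem]
        refine ⟨hy, fun b hb g => h0 b g ?_⟩
        rw [Finset.mem_erase] at hb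
        refine lt_of_le_of_ne (hmin b hb.2) ?_
        intro h
        exact hb.1 (hkey h).symm
    simp only [h3] at h2
    set P : κ → Prop := fun a => ∃ y ∈ X, (∃ g, y (a, g) ≠ 0) ∧
      ∀ b g, key a < key b → y (b, g) = 0 with hP
    have h4 : ((s.filter P).card : ℝ) = (((s.erase a).filter P).card : ℝ) +
        if P a then 1 else 0 := by
      have h5 : s.filter P = (insert a (s.erase a)).filter P := by rw [Finset.insert_erase ha]
      rw [h5, Finset.filter_insert]
      split_ifs with hl
      · rw [Finset.card_insert_of_notMem (by simp)]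
        push_cast
        ring
      · rw [add_zero]
    rw [h1, h2, h4]
    simp only [hP]
    ring

/-- P5: if dimensions are integral, the dimension is the number of the leading coordinates -/
theorem dm_lead (hI : Int0 k G M) {lab : κ → M} {X : Submodule ℂ (L2 κ G)} (hX : Rat k lab X)
    {K : Type} [LinearOrder K] (key : κ → K) (hkey : Function.Injective key) :
    dm X = ((Finset.univ.filter fun a => ∃ y ∈ X, (∃ g, y (a, g) ≠ 0) ∧
      ∀ b g, key a < key b → y (b, g) = 0).card : ℝ) := by
  have h := P5_count hI hX key hkey Finset.univ fun _ _ a _ => Finset.mem_univ a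
  have h1 : P5_Z X Finset.univ = ⊥ := by
    rw [eq_bot_iff]
    intro y hy
    rw [P5_mem] at hy
    rw [Submodule.mem_bot]
    ext q
    exact hy.2 q.1 (Finset.mem_univ _) q.2
  rw [h1, dm_bot, zero_add] at h
  exact h

end Lead

end Pool.Agent.EH
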