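import Pool.Agent.EH.P3
import Pool.Agent.EH.P4
import Pool.Agent.EH.P5
import Pool.Agent.LFT.LF2

set_option autoImplicit false
set_option linter.unusedSectionVars false

noncomputable section

open scoped InnerProductSpace ENNReal Topology
open Classical Filter ContinuousLinearMap

namespace Pool.Agent.EH

open Pool.Agent.VN Pool.Agent.LFT Pool.Agent.HI

section Frames

variable {Λ : Type} [Group Λ] {k : Subring ℂ} {n : ℕ} {ι μ : Type} [Fintype ι] [Fintype μ]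

/-- the frames in a box: a permutation and a position -/
abbrev P11_Fr (m : Fin n → ℕ) : Type := Σ π : Equiv.Perm (Fin n), {α // α ∈ Bx (m ∘ π.symm)}

/-- the frame as an affine permutation -/
def P11_el (θ : Λ →* Af n) {m : Fin n → ℕ} (b : P11_Fr m) : Via θ (Af n) :=
  toVia θ (⟨fun l => -(b.2.1 l : ℤ), b.1⟩ : Af n)

lemma P11_mem_Bx {m α : Fin n → ℕ} : α ∈ Bx m ↔ ∀ l, α l ≤ m l := by
  unfold Bx
  rw [Fintype.mem_piFinset]
  simp

lemma P11_el_inj (θ : Λ →* Af n) {m : Fin n → ℕ} {b b' : P11_Fr m}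
    (h : P11_el θ b = P11_el θ b') : b = b' := by
  obtain ⟨π, α, hα⟩ := b
  obtain ⟨π', α', hα'⟩ := b'
  have h1 : (⟨fun l => -(α l : ℤ), π⟩ : Af n) = ⟨fun l => -(α' l : ℤ), π'⟩ := h
  have h2 : π = π' := congrArg Af.pm h1
  have h3 : (fun l => -(α l : ℤ)) = fun l => -(α' l : ℤ) := congrArg Af.tr h1
  have h4 : α = α' := by
    funext l
    have := congrFun h3 l
    omega
  subst h2
  subst h4
  rfl

lemma P11_smul_eq (θ : Λ →* Af n) {m : Fin n → ℕ} (g : Λ) (b b' : P11_Fr m) :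
    g • P11_el θ b' = P11_el θ b ↔
      b.1 = (θ g).pm * b'.1 ∧ ∀ l, (θ g).tr l + b.2.1 l = b'.2.1 ((θ g).pm.symm l) := by
  obtain ⟨π, α, hα⟩ := b
  obtain ⟨π', α', hα'⟩ := b'
  have h0 : g • P11_el θ (⟨π', α', hα'⟩ : P11_Fr m) = P11_el θ (⟨π, α, hα⟩ : P11_Fr m) ↔
      (θ g) * (⟨fun l => -(α' l : ℤ), π'⟩ : Af n) = ⟨fun l => -(α l : ℤ), π⟩ := Iff.rfl
  rw [h0, Af.ext_iff, funext_iff]
  simp only [af_mul_tr, af_mul_pm]
  constructor
  · rintro ⟨h1, h2⟩
    refine ⟨h2.symm, fun l => ?_⟩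
    have := h1 l
    omega
  · rintro ⟨h1, h2⟩
    refine ⟨fun l => ?_, h1.symm⟩
    have := h2 l
    omega

/-- the frames which occur -/
lemma P11_exists (θ : Λ →* Af n) {m : Fin n → ℕ} (g : Λ) (b : P11_Fr m) :
    (∃ b' : P11_Fr m, g • P11_el θ b' = P11_el θ b) ↔
      ∀ l, -(b.2.1 l : ℤ) ≤ (θ g).tr l ∧
        (θ g).tr l ≤ ((fun l => (m ∘ b.1.symm) l - b.2.1 l : Fin n → ℕ) l : ℕ) := by
  have hb := P11_mem_Bx.mp b.2.2
  constructor
  · rintro ⟨b', hb'⟩ l
    rw [P11_smul_eq] at hb'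
    obtain ⟨h1, h2⟩ := hb'
    have h3 := h2 l
    have h4 := P11_mem_Bx.mp b'.2.2 ((θ g).pm.symm l)
    have h5 := hb l
    have h6 : b.1.symm l = b'.1.symm ((θ g).pm.symm l) := by
      rw [h1]
      rfl
    simp only [Function.comp_apply] at h4 h5 ⊢
    rw [← h6] at h4
    omega
  · intro h
    refine ⟨⟨(θ g).pm⁻¹ * b.1, fun l => ((θ g).tr ((θ g).pm l) + b.2.1 ((θ g).pm l)).toNat,
      ?_⟩, ?_⟩
    · rw [P11_mem_Bx]
      intro l
      have h1 := h ((θ g).pm l)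
      have h5 := hb ((θ g).pm l)
      have h6 : ((θ g).pm⁻¹ * b.1).symm l = b.1.symm ((θ g).pm l) := rfl
      simp only [Function.comp_apply] at h1 h5 ⊢
      rw [h6]
      omega
    · rw [P11_smul_eq]
      refine ⟨by simp, fun l => ?_⟩
      have h1 := h l
      simp only [Equiv.apply_symm_apply]
      omega

/-- the order of the coordinates -/
def P11_keyP (θ : Λ →* Af n) (f : Equiv.Perm (Fin n) × ι → ℕ) (π : Equiv.Perm (Fin n))
    (q : ι × Λ) : Lex (Lex (Fin n → ℤ) × ℕ) :=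
  toLex (toLex fun l => (θ q.2).tr (π l), f (π⁻¹ * (θ q.2).pm, q.1))

/-- the order of the pairs of a coordinate and a frame -/
def P11_key (f : Equiv.Perm (Fin n) × ι → ℕ) {m : Fin n → ℕ} (a : ι × P11_Fr m) :
    Lex (Lex (Fin n → ℤ) × ℕ) :=
  toLex (toLex fun l => (a.2.2.1 (a.2.1 l) : ℤ), f (a.2.1⁻¹, a.1))

lemma P11_key_inj {f : Equiv.Perm (Fin n) × ι → ℕ} (hf : Function.Injective f) (m : Fin n → ℕ) :
    Function.Injective (P11_key f : ι × P11_Fr m → _) := by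
  rintro ⟨i, π, α, hα⟩ ⟨i', π', α', hα'⟩ h
  have h1 : ((toLex fun l => (α (π l) : ℤ) : Lex (Fin n → ℤ)), f (π⁻¹, i)) =
      ((toLex fun l => (α' (π' l) : ℤ) : Lex (Fin n → ℤ)), f (π'⁻¹, i')) := toLex_inj.mp h
  have h2 := hf (congrArg Prod.snd h1)
  have h3 : π = π' := inv_injective (congrArg Prod.fst h2)
  have h4 : i = i' := congrArg Prod.snd h2
  have h5 : (fun l => (α (π l) : ℤ)) = fun l => (α' (π' l) : ℤ) :=
    toLex_inj.mp (congrArg Prod.fst h1)
  subst h3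
  subst h4
  have h6 : α = α' := by
    funext l
    have := congrFun h5 (π.symm l)
    simp only [Equiv.apply_symm_apply] at this
    exact_mod_cast this
  subst h6
  rfl

lemma P11_lex_add (u v w : Fin n → ℤ) (c d : ℕ) :
    (toLex ((toLex u : Lex (Fin n → ℤ)), c) : Lex (Lex (Fin n → ℤ) × ℕ)) ≤
        toLex ((toLex v : Lex (Fin n → ℤ)), d) ↔
      (toLex ((toLex (fun l => u l + w l) : Lex (Fin n → ℤ)), c) : Lex (Lex (Fin n → ℤ) × ℕ)) ≤
        toLex ((toLex (fun l => v l + w l) : Lex (Fin n → ℤ)), d) := by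
  rw [Prod.Lex.toLex_le_toLex, Prod.Lex.toLex_le_toLex]
  have h1 : (toLex (fun l => u l + w l) : Lex (Fin n → ℤ)) = toLex u + toLex w := rfl
  have h2 : (toLex (fun l => v l + w l) : Lex (Fin n → ℤ)) = toLex v + toLex w := rfl
  simp only [h1, h2, add_lt_add_iff_right, add_left_inj]

/-- the comparison of the two orders -/
lemma P11_key_le (θ : Λ →* Af n) (f : Equiv.Perm (Fin n) × ι → ℕ) {m : Fin n → ℕ}
    {i i' : ι} {g : Λ} {b b' : P11_Fr m} (h : g • P11_el θ b' = P11_el θ b) :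
    P11_key f (i', b') ≤ P11_key f (i, b) ↔
      P11_keyP θ f b.1 (i', g) ≤ P11_keyP θ f b.1 (i, 1) := by
  rw [P11_smul_eq] at h
  obtain ⟨h1, h2⟩ := h
  unfold P11_key P11_keyP
  rw [P11_lex_add (fun l => (θ g).tr (b.1 l)) (fun l => (θ 1).tr (b.1 l))
    (fun l => (b.2.1 (b.1 l) : ℤ))]
  have e1 : (fun l => (b'.2.1 (b'.1 l) : ℤ)) = fun l => (θ g).tr (b.1 l) + (b.2.1 (b.1 l) : ℤ) := by
    funext l
    rw [h2 (b.1 l), h1]
    congr 2
    simp
  have e2 : (fun l => (b.2.1 (b.1 l) : ℤ)) =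
      fun l => (θ 1).tr (b.1 l) + (b.2.1 (b.1 l) : ℤ) := by
    funext l
    rw [map_one, af_one_tr, zero_add]
  have e3 : b'.1⁻¹ = b.1⁻¹ * (θ g).pm := by
    rw [h1]
    group
  have e4 : b.1⁻¹ * (θ 1).pm = b.1⁻¹ := by
    rw [map_one, af_one_pm, mul_one]
  simp only
  rw [e1, e3, e4]
  conv_lhs => rw [e2]

/-- the sets of pairs of vectors -/
def P11_E (θ : Λ →* Af n) (A : μ → (ι × Λ →₀ ℂ)) (f : Equiv.Perm (Fin n) × ι → ℕ)
    (π : Equiv.Perm (Fin n)) (i : ι) (α β : Fin n → ℕ) : Prop :=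
  ∃ x ∈ kr (mulR A), x (i, 1) ≠ 0 ∧ ∀ q : ι × Λ, x q ≠ 0 →
    (∀ l, -(α l : ℤ) ≤ (θ q.2).tr l ∧ (θ q.2).tr l ≤ β l) ∧
      P11_keyP θ f π q ≤ P11_keyP θ f π (i, 1)

lemma P11_E_up (θ : Λ →* Af n) (A : μ → (ι × Λ →₀ ℂ)) (f : Equiv.Perm (Fin n) × ι → ℕ)
    (π : Equiv.Perm (Fin n)) (i : ι) : UpC (P11_E θ A f π i) := by
  rintro α β α' β' hα hβ ⟨x, hx, hx1, hx2⟩
  refine ⟨x, hx, hx1, fun q hq => ⟨fun l => ?_, (hx2 q hq).2⟩⟩
  have h1 := (hx2 q hq).1 l
  have h2 : α l ≤ α' l := hα l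
  have h3 : β l ≤ β' l := hβ l
  omega

/-- the labels -/
def P11_l (θ : Λ →* Af n) {m : Fin n → ℕ} (a : ι × P11_Fr m) : Via θ (Af n) := P11_el θ a.2

lemma P11_hinj (θ : Λ →* Af n) {m : Fin n → ℕ} (a b : ι × P11_Fr m)
    (h1 : a.1 = b.1) (h2 : P11_l θ a = P11_l θ b) : a = b :=
  Prod.ext h1 (P11_el_inj θ h2)

lemma P11_fT {κ : Type} [Fintype κ] (p : κ → ι) (y : L2 κ Λ) (q : ι × Λ) :
    fT p y q = ∑ a : κ, if p a = q.1 then y (a, q.2) else 0 := by
  unfold fT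
  rw [mulR_apply, ev_finsetSum]
  refine Finset.sum_congr rfl fun a _ => ?_
  split_ifs with h
  · rw [ev_single, one_mul, inv_one, mul_one]
  · rw [ev_zero]

/-- the places which are needed -/
def P11_C (θ : Λ →* Af n) (A : μ → (ι × Λ →₀ ℂ)) (m : Fin n → ℕ) : Finset (Via θ (Af n)) :=
  Finset.univ.biUnion fun j : μ => (A j).support.biUnion fun u =>
    Finset.univ.image fun a : ι × P11_Fr m => u.2⁻¹ • P11_l θ a

lemma P11_cov (θ : Λ →* Af n) (A : μ → (ι × Λ →₀ ℂ)) (m : Fin n → ℕ) :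
    CovC (fun a : ι × P11_Fr m => a.1) (P11_l θ) A (P11_C θ A m) := by
  intro j u hu a _
  unfold P11_C
  rw [Finset.mem_biUnion]
  refine ⟨j, Finset.mem_univ _, ?_⟩
  rw [Finset.mem_biUnion]
  exact ⟨u, hu, Finset.mem_image_of_mem _ (Finset.mem_univ a)⟩

/-- the subspaces at the places -/
lemma P11_XR (θ : Λ →* Af n) (X : Submodule ℂ (L2 ι Λ)) {m : Fin n → ℕ} (a : ι × P11_Fr m) :
    XR X (fun a : ι × P11_Fr m => a.1) (P11_l θ) (P11_l θ a) =
      bx θ X a.2.2.1 fun l => (m ∘ a.2.1.symm) l - a.2.2.1 l := by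
  ext x
  have h : ∀ q : ι × Λ, (∃ a' : ι × P11_Fr m, a'.1 = q.1 ∧ q.2 • P11_l θ a' = P11_l θ a) ↔
      ∀ l, -(a.2.2.1 l : ℤ) ≤ (θ q.2).tr l ∧
        (θ q.2).tr l ≤ ((fun l => (m ∘ a.2.1.symm) l - a.2.2.1 l : Fin n → ℕ) l : ℕ) := by
    intro q
    rw [← P11_exists θ q.2 a.2]
    constructor
    · rintro ⟨a', -, h⟩
      exact ⟨a'.2, h⟩
    · rintro ⟨b', h⟩
      exact ⟨(q.1, b'), rfl, h⟩
  show (x ∈ X ∧ ∀ q : ι × Λ, x q ≠ 0 → ∃ a' : ι × P11_Fr m, a'.1 = q.1 ∧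
    q.2 • P11_l θ a' = P11_l θ a) ↔ (x ∈ X ∧ ∀ q : ι × Λ, x q ≠ 0 → _)
  refine and_congr_right fun _ => forall_congr' fun q => imp_congr_right fun _ => h q

lemma P11_sum {m : Fin n → ℕ} (F : ι → Equiv.Perm (Fin n) → (Fin n → ℕ) → ℝ) :
    ∑ a : ι × P11_Fr m, F a.1 a.2.1 a.2.2.1 =
      ∑ π : Equiv.Perm (Fin n), ∑ α ∈ Bx (m ∘ π.symm), ∑ i, F i π α := by
  rw [Fintype.sum_prod_type]
  simp only [Fintype.sum_sigma]
  rw [Finset.sum_comm]
  refine Finset.sum_congr rfl fun π _ => ?_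
  rw [Finset.sum_comm]
  exact Finset.sum_coe_sort (Bx (m ∘ π.symm)) fun α => ∑ i, F i π α

/-- the leading coordinates -/
lemma P11_lead (θ : Λ →* Af n) (A : μ → (ι × Λ →₀ ℂ)) (f : Equiv.Perm (Fin n) × ι → ℕ)
    {m : Fin n → ℕ} (a : ι × P11_Fr m) :
    (∃ y ∈ kr (mulR (fAC (fun a : ι × P11_Fr m => a.1) (P11_l θ) A (P11_C θ A m))),
      (∃ g, y (a, g) ≠ 0) ∧ ∀ b g, P11_key f a < P11_key f b → y (b, g) = 0) ↔
      P11_E θ A f a.2.1 a.1 a.2.2.1 fun l => (m ∘ a.2.1.symm) l - a.2.2.1 l := by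
  have hmem := mem_fam (fun a : ι × P11_Fr m => a.1) (P11_l θ) (P11_hinj θ) A (P11_cov θ A m)
  constructor
  · rintro ⟨y, hy, ⟨g0, hg0⟩, hlead⟩
    set z : L2 (ι × P11_Fr m) Λ := lt g0⁻¹ y with hz
    have hzY : z ∈ kr (mulR (fAC (fun a : ι × P11_Fr m => a.1) (P11_l θ) A (P11_C θ A m))) :=
      Invar.ker (mulR_equivar _) _ _ hy
    have hz1 : ∀ q, z q = y (q.1, g0 * q.2) := by
      intro q
      rw [hz, lt_apply, inv_inv]
    have hx := (hmem z).1 hzY (P11_l θ a)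
    have hxv : ∀ q : ι × Λ, fT (fun a : ι × P11_Fr m => a.1)
        (cutF (pV (P11_l θ)) (P11_l θ a) z) q =
        ∑ a' : ι × P11_Fr m, if a'.1 = q.1 then
          (if q.2 • P11_l θ a' = P11_l θ a then z (a', q.2) else 0) else 0 := by
      intro q
      rw [P11_fT]
      refine Finset.sum_congr rfl fun a' _ => ?_
      rw [cutF_apply]
      rfl
    refine ⟨_, hx, ?_, ?_⟩
    · rw [hxv, Finset.sum_eq_single a]
      · rw [if_pos rfl, one_smul, if_pos rfl, hz1, mul_one]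
        exact hg0
      · intro a' _ hne
        by_cases h1 : a'.1 = a.1
        · rw [if_pos h1, one_smul, if_neg]
          intro h2
          exact hne (P11_hinj θ a' a h1 h2)
        · rw [if_neg h1]
      · intro h
        exact absurd (Finset.mem_univ _) h
    · intro q hq
      rw [hxv] at hq
      obtain ⟨a', -, ha'⟩ := Finset.exists_ne_zero_of_sum_ne_zero hq
      have h1 : a'.1 = q.1 := by
        by_contra h1
        rw [if_neg h1] at ha'
        exact ha' rfl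
      rw [if_pos h1] at ha'
      have h2 : q.2 • P11_l θ a' = P11_l θ a := by
        by_contra h2
        rw [if_neg h2] at ha'
        exact ha' rfl
      rw [if_pos h2, hz1] at ha'
      have h3 : ¬ P11_key f a < P11_key f a' := fun h3 => ha' (hlead a' _ h3)
      refine ⟨(P11_exists θ q.2 a.2).1 ⟨a'.2, h2⟩, ?_⟩
      have h4 := (P11_key_le (i := a.1) (i' := a'.1) θ f (b := a.2) (b' := a'.2) h2).1
        (not_lt.1 h3)
      rw [h1] at h4
      exact h4
  · rintro ⟨x, hx, hx1, hx2⟩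
    set y : L2 (ι × P11_Fr m) Λ := cutF (pV (P11_l θ)) (P11_l θ a)
      (crd (fun a : ι × P11_Fr m => a.1) Set.univ x) with hy
    have hyv : ∀ q, y q = if q.2 • P11_l θ q.1 = P11_l θ a then x (q.1.1, q.2) else 0 := by
      intro q
      rw [hy, cutF_apply, crd_apply, if_pos (Set.mem_univ _)]
      rfl
    have hyx : fT (fun a : ι × P11_Fr m => a.1) y = x := by
      ext q
      rw [P11_fT]
      simp only [hyv]
      by_cases hq : x q = 0
      · rw [hq]
        refine Finset.sum_eq_zero fun a' _ => ?_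
        split_ifs with h1 h2
        · rw [h1]
          exact hq
        · rfl
        · rfl
      · obtain ⟨b', hb'⟩ := (P11_exists θ q.2 a.2).2 (hx2 q hq).1
        rw [Finset.sum_eq_single (q.1, b')]
        · rw [if_pos rfl, if_pos]
          exact hb'
        · intro a' _ hne
          by_cases h1 : a'.1 = q.1
          · rw [if_pos h1, if_neg]
            intro h2
            apply hne
            refine P11_hinj θ a' (q.1, b') h1 ?_
            have h3 : q.2 • P11_l θ a' = q.2 • P11_el θ b' := h2.trans hb'.symm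
            exact smul_left_cancel _ h3
          · rw [if_neg h1]
        · intro h
          exact absurd (Finset.mem_univ _) h
    refine ⟨y, ?_, ⟨1, ?_⟩, ?_⟩
    · rw [hmem]
      intro c
      rw [hy, cutF_cutF]
      split_ifs with hc
      · subst hc
        rw [← hy, hyx]
        exact hx
      · rw [map_zero]
        exact Submodule.zero_mem _
    · rw [hyv, one_smul, if_pos rfl]
      exact hx1
    · intro b g hlt
      by_contra hne
      rw [hyv] at hne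
      have h2 : g • P11_l θ b = P11_l θ a := by
        by_contra h2
        rw [if_neg h2] at hne
        exact hne rfl
      rw [if_pos h2] at hne
      have h3 := (hx2 _ hne).2
      have h4 := (P11_key_le (i := a.1) (i' := b.1) θ f (b := a.2) (b' := b.2) h2).2 h3
      exact absurd hlt (not_lt.2 h4)

lemma P11_int (θ : Λ →* Af n) (hN : AtiyahOver k ((⊥ : Subgroup (Af n)).comap θ)) :
    Int0 k Λ (Via θ (Af n)) := by
  intro κ _ lab X hX
  refine Rat.int (fun c => ?_) hX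
  have h : MulAction.stabilizer Λ c = (⊥ : Subgroup (Af n)).comap θ := by
    ext g
    rw [MulAction.mem_stabilizer_iff, Subgroup.mem_comap, Subgroup.mem_bot]
    have h1 : g • c = c ↔ θ g * (ofVia c : Af n) = ofVia c := Iff.rfl
    rw [h1, mul_eq_right]
  rw [h]
  exact hN

/-- P11: the sums of the local traces over boxes count pairs of vectors -/
theorem frames_count (θ : Λ →* Af n) (hN : AtiyahOver k ((⊥ : Subgroup (Af n)).comap θ))
    (A : μ → (ι × Λ →₀ ℂ)) (hA : ∀ j, CoefIn k (A j)) :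
    ∃ E : Equiv.Perm (Fin n) → ι → (Fin n → ℕ) → (Fin n → ℕ) → Prop,
      (∀ π i, UpC (E π i)) ∧ ∀ m : Fin n → ℕ,
        ∑ π : Equiv.Perm (Fin n), FF θ (kr (mulR A)) (m ∘ π)
          = ∑ π : Equiv.Perm (Fin n), ∑ i, (cnt (E π i) (m ∘ π) : ℝ) := by
  obtain ⟨f, hf⟩ : ∃ f : Equiv.Perm (Fin n) × ι → ℕ, Function.Injective f :=
    ⟨fun x => (Fintype.equivFin _ x : ℕ), fun x y h =>
      (Fintype.equivFin _).injective (Fin.val_injective h)⟩
  refine ⟨fun π i => P11_E θ A f π.symm i, fun π i => P11_E_up θ A f π.symm i, fun m => ?_⟩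
  have h1 := dm_fam (fun a : ι × P11_Fr m => a.1) (P11_l θ) (P11_hinj θ) A (P11_cov θ A m)
  simp only [P11_XR] at h1
  have h2 := P11_sum (m := m) fun (i : ι) π α => ltr (bx θ (kr (mulR A)) α
    fun l => (m ∘ π.symm) l - α l) (i, 1)
  rw [h2] at h1
  have hloc := fam_loc (k := k) (N' := PUnit) (fun a : ι × P11_Fr m => a.1) (P11_l θ) A
    (P11_C θ A m) (fun _ => PUnit.unit) (fun _ => PUnit.unit) hA (fun _ _ _ => rfl)
  have hrat : Rat k (P11_l θ) (kr (mulR (fAC (fun a : ι × P11_Fr m => a.1) (P11_l θ) A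
      (P11_C θ A m)))) := (Rat.kr hloc).mapLab Prod.snd fun g c => rfl
  have h3 := dm_lead (P11_int θ hN) hrat (P11_key f) (P11_key_inj hf m)
  simp only [P11_lead] at h3
  rw [Finset.card_filter] at h3
  push_cast at h3
  have h4 := P11_sum (m := m) fun (i : ι) π α => if P11_E θ A f π i α
    (fun l => (m ∘ π.symm) l - α l) then (1 : ℝ) else 0
  rw [h4] at h3
  have h5 : ∑ π : Equiv.Perm (Fin n), FF θ (kr (mulR A)) (m ∘ π.symm) =
      ∑ π : Equiv.Perm (Fin n), ∑ i, (cnt (P11_E θ A f π i) (m ∘ π.symm) : ℝ) := by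
    refine Eq.trans (h1.symm.trans h3) (Finset.sum_congr rfl fun π _ => ?_)
    rw [Finset.sum_comm]
    refine Finset.sum_congr rfl fun i _ => ?_
    unfold cnt
    rw [Finset.card_filter]
    push_cast
    rfl
  rw [← Equiv.sum_comp (Equiv.inv (Equiv.Perm (Fin n)))] at h5
  rw [← Equiv.sum_comp (Equiv.inv (Equiv.Perm (Fin n)))
    (fun π => ∑ i, (cnt (P11_E θ A f π i) (m ∘ π.symm) : ℝ))] at h5
  exact h5

end Frames

end Pool.Agent.EH
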