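import Pool.Agent.EH.Defs

set_option autoImplicit false
set_option linter.unusedSectionVars false

noncomputable section

open scoped InnerProductSpace ENNReal Topology
open Classical Filter ContinuousLinearMap

namespace Pool.Agent.EH

open Pool.Agent.VN Pool.Agent.LFT Pool.Agent.HI

section P12aux

/-- Dickson: an upward closed set of pairs only depends on the truncated coordinates. -/
private theorem P12_dickson {n : ℕ} (E : (Fin n → ℕ) → (Fin n → ℕ) → Prop) (hE : UpC E) :
    ∃ R0 : ℕ, ∀ α β, E α β → E (fun i => min (α i) R0) (fun i => min (β i) R0) := by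
  by_contra hc
  push Not at hc
  choose a b hab hn using hc
  obtain ⟨g, hg⟩ := (wellQuasiOrdered_le (α := (Fin n → ℕ) × (Fin n → ℕ))).exists_monotone_subseq
    (fun R => (a R, b R))
  set i := g 0 with hi
  set m : ℕ := (∑ l, a i l) + (∑ l, b i l) with hm
  have hgm : ∀ k, k ≤ g k := fun k => g.strictMono.le_apply
  have h1 := hg 0 m (Nat.zero_le _)
  have ha : a i ≤ a (g m) := h1.1
  have hb : b i ≤ b (g m) := h1.2
  refine hn (g m) (hE (a i) (b i) _ _ ?_ ?_ (hab i))
  · intro l
    refine le_min (ha l) ?_
    show a i l ≤ g m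
    have h2 : a i l ≤ ∑ l, a i l := Finset.single_le_sum (fun _ _ => Nat.zero_le _) (Finset.mem_univ l)
    have h3 := hgm m
    omega
  · intro l
    refine le_min (hb l) ?_
    show b i l ≤ g m
    have h2 : b i l ≤ ∑ l, b i l := Finset.single_le_sum (fun _ _ => Nat.zero_le _) (Finset.mem_univ l)
    have h3 := hgm m
    omega

/-- The one-dimensional identity. -/
private theorem P12_one (φ : ℕ → ℕ → ℤ) (R0 R : ℕ) (hR : R0 ≤ R)
    (h : ∀ a b a' b', min a R0 = min a' R0 → min b R0 = min b' R0 → φ a b = φ a' b') :
    ∑ a ∈ Finset.range (2 * R + 3), φ a (2 * R + 2 - a) -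
      ∑ a ∈ Finset.range (2 * R + 2), φ a (2 * R + 1 - a) = φ (R + 1) (R + 1) := by
  have e1 : 2 * R + 3 = (R + 1) + ((R + 1) + 1) := by ring
  have e2 : 2 * R + 2 = (R + 1) + (R + 1) := by ring
  have s1 : ∑ a ∈ Finset.range (2 * R + 3), φ a (2 * R + 2 - a) =
      ∑ a ∈ Finset.range (R + 1), φ a (2 * R + 2 - a) + (φ (R + 1) (R + 1) +
        ∑ a ∈ Finset.range (R + 1), φ (R + 2 + a) (2 * R + 2 - (R + 2 + a))) := by
    rw [e1, Finset.sum_range_add (fun a => φ a (2 * R + 2 - a)) (R + 1) ((R + 1) + 1),
      Finset.sum_range_succ' _ (R + 1)]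
    have a1 : φ (R + 1 + 0) (2 * R + 2 - (R + 1 + 0)) = φ (R + 1) (R + 1) := by
      have : 2 * R + 2 - (R + 1 + 0) = R + 1 := by omega
      rw [this, add_zero]
    have a2 : ∀ x, φ (R + 1 + (x + 1)) (2 * R + 2 - (R + 1 + (x + 1))) =
        φ (R + 2 + x) (2 * R + 2 - (R + 2 + x)) := by
      intro x
      have : R + 1 + (x + 1) = R + 2 + x := by ring
      rw [this]
    simp only [a1, a2]
    ring
  have s2 : ∑ a ∈ Finset.range (2 * R + 2), φ a (2 * R + 1 - a) =
      ∑ a ∈ Finset.range (R + 1), φ a (2 * R + 1 - a) +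
        ∑ a ∈ Finset.range (R + 1), φ (R + 1 + a) (2 * R + 1 - (R + 1 + a)) := by
    rw [e2, Finset.sum_range_add (fun a => φ a (2 * R + 1 - a)) (R + 1) (R + 1)]
  have t1 : ∑ a ∈ Finset.range (R + 1), φ a (2 * R + 2 - a) =
      ∑ a ∈ Finset.range (R + 1), φ a (2 * R + 1 - a) := by
    refine Finset.sum_congr rfl (fun a ha => ?_)
    rw [Finset.mem_range] at ha
    refine h _ _ _ _ rfl ?_
    omega
  have t2 : ∑ a ∈ Finset.range (R + 1), φ (R + 2 + a) (2 * R + 2 - (R + 2 + a)) =
      ∑ a ∈ Finset.range (R + 1), φ (R + 1 + a) (2 * R + 1 - (R + 1 + a)) := by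
    refine Finset.sum_congr rfl (fun a ha => ?_)
    rw [Finset.mem_range] at ha
    refine h _ _ _ _ ?_ ?_ <;> omega
  rw [s1, s2, t1, t2]
  ring

/-- One coordinate at a time. -/
private theorem P12_tensor {X : Type} [Fintype X] (w : X → ℤ) (x0 : X) : ∀ (n : ℕ)
    (G : (Fin n → X) → ℤ), (∀ (i : Fin n) (c : Fin n → X),
      ∑ x, w x * G (Function.update c i x) = G (Function.update c i x0)) →
    ∑ c : Fin n → X, (∏ i, w (c i)) * G c = G (fun _ => x0) := by
  intro n
  induction n with
  | zero =>
    intro G _
    rw [Fintype.sum_unique]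
    simp only [Finset.univ_eq_empty, Finset.prod_empty, one_mul]
    congr 1
    exact Subsingleton.elim _ _
  | succ n ih =>
    intro G hG
    have h1 : ∑ c : Fin (n + 1) → X, (∏ i, w (c i)) * G c =
        ∑ c : Fin n → X, (∏ i, w (c i)) * ∑ x, w x * G (Fin.cons x c) := by
      rw [← (Fin.insertNthEquiv (fun _ => X) 0).sum_comp, Fintype.sum_prod_type, Finset.sum_comm]
      refine Finset.sum_congr rfl (fun c _ => ?_)
      rw [Finset.mul_sum]
      refine Finset.sum_congr rfl (fun x _ => ?_)
      have hc : (Fin.insertNthEquiv (fun _ => X) 0) (x, c) = (Fin.cons x c : Fin (n + 1) → X) := by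
        simp [Fin.insertNthEquiv]
      rw [hc]
      simp only [Fin.prod_univ_succ, Fin.cons_zero, Fin.cons_succ]
      ring
    have h2 : ∀ c : Fin n → X, ∑ x, w x * G (Fin.cons x c) = G (Fin.cons x0 c) := by
      intro c
      have := hG 0 (Fin.cons x0 c)
      simpa only [Fin.update_cons_zero] using this
    rw [h1]
    simp only [h2]
    rw [ih (fun c => G (Fin.cons x0 c))]
    · congr 1
      funext i
      refine Fin.cases ?_ (fun i => ?_) i <;> simp
    · intro i c
      have := hG i.succ (Fin.cons x0 c)
      simpa only [← Fin.cons_update] using this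

end P12aux

section Count

variable {n : ℕ}

/-- P12: alternating sums of the numbers of pairs in an upward closed set -/
theorem alt_count (E : (Fin n → ℕ) → (Fin n → ℕ) → Prop) (hE : UpC E) :
    ∃ R0 : ℕ, ∀ R, R0 ≤ R → ∑ J : Finset (Fin n), (-1 : ℤ) ^ J.card * (cnt E (mJ R J) : ℤ)
      = if ∃ α β, E α β then 1 else 0 := by
  obtain ⟨R0, hR0⟩ := P12_dickson E hE
  have hiff : ∀ α β α' β' : Fin n → ℕ, (∀ i, min (α i) R0 = min (α' i) R0) →
      (∀ i, min (β i) R0 = min (β' i) R0) → (E α β ↔ E α' β') := by
    have key : ∀ α β α' β' : Fin n → ℕ, (∀ i, min (α i) R0 = min (α' i) R0) →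
      (∀ i, min (β i) R0 = min (β' i) R0) → E α β → E α' β' := by
      intro α β α' β' h1 h2 h
      refine hE _ _ _ _ ?_ ?_ (hR0 α β h)
      · intro i
        show min (α i) R0 ≤ α' i
        rw [h1]
        exact min_le_left _ _
      · intro i
        show min (β i) R0 ≤ β' i
        rw [h2]
        exact min_le_left _ _
    intro α β α' β' h1 h2
    exact ⟨key _ _ _ _ h1 h2, key _ _ _ _ (fun i => (h1 i).symm) (fun i => (h2 i).symm)⟩
  refine ⟨R0, fun R hR => ?_⟩
  -- the signed measure
  set mm : Bool → ℕ := fun b => if b = true then 2 * R + 1 else 2 * R + 2 with hmm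
  set w : Bool × Fin (2 * R + 3) → ℤ := fun x => if x.1 = true then
    (if x.2.val < 2 * R + 2 then -1 else 0) else 1 with hw
  set G : (Fin n → Bool × Fin (2 * R + 3)) → ℤ := fun c =>
    if E (fun i => (c i).2.val) (fun i => mm (c i).1 - (c i).2.val) then 1 else 0 with hG
  have hR1 : R + 1 < 2 * R + 3 := by omega
  have hstep : ∀ (i : Fin n) (c : Fin n → Bool × Fin (2 * R + 3)),
      ∑ x, w x * G (Function.update c i x) =
        G (Function.update c i (false, ⟨R + 1, hR1⟩)) := by
    intro i c
    set φ : ℕ → ℕ → ℤ := fun a b => if E (Function.update (fun l => (c l).2.val) i a)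
      (Function.update (fun l => mm (c l).1 - (c l).2.val) i b) then 1 else 0 with hφ
    have hφG : ∀ x : Bool × Fin (2 * R + 3), G (Function.update c i x) =
        φ x.2.val (mm x.1 - x.2.val) := by
      intro x
      have e1 : (fun l => ((Function.update c i x) l).2.val) =
          Function.update (fun l => (c l).2.val) i x.2.val := by
        funext l
        by_cases hl : l = i
        · subst hl; simp
        · simp [hl]
      have e2 : (fun l => mm ((Function.update c i x) l).1 - ((Function.update c i x) l).2.val) =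
          Function.update (fun l => mm (c l).1 - (c l).2.val) i (mm x.1 - x.2.val) := by
        funext l
        by_cases hl : l = i
        · subst hl; simp
        · simp [hl]
      simp only [hG, hφ]
      rw [e1, e2]
    have hφ' : ∀ a b a' b', min a R0 = min a' R0 → min b R0 = min b' R0 → φ a b = φ a' b' := by
      intro a b a' b' h1 h2
      simp only [hφ]
      refine if_congr (hiff _ _ _ _ ?_ ?_) rfl rfl
      · intro l
        by_cases hl : l = i
        · subst hl; simpa using h1
        · simp [hl]
      · intro l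
        by_cases hl : l = i
        · subst hl; simpa using h2
        · simp [hl]
    have h1 := P12_one φ R0 R hR hφ'
    rw [Fintype.sum_prod_type]
    simp only [hφG, Fintype.sum_bool]
    have hA : ∑ y : Fin (2 * R + 3), w (true, y) * φ y.val (mm true - y.val) =
        - ∑ a ∈ Finset.range (2 * R + 2), φ a (2 * R + 1 - a) := by
      have hy : ∀ y : Fin (2 * R + 3), w (true, y) * φ y.val (mm true - y.val) =
          (fun a => (if a < 2 * R + 2 then (-1 : ℤ) else 0) * φ a (2 * R + 1 - a)) y.val := by
        intro y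
        simp [hw, hmm]
      simp only [hy]
      rw [Fin.sum_univ_eq_sum_range (fun a => (if a < 2 * R + 2 then (-1 : ℤ) else 0) *
        φ a (2 * R + 1 - a)) (2 * R + 3)]
      rw [Finset.sum_range_succ]
      simp only [lt_irrefl, if_false, zero_mul, add_zero]
      rw [← Finset.sum_neg_distrib]
      refine Finset.sum_congr rfl (fun a ha => ?_)
      rw [Finset.mem_range] at ha
      rw [if_pos ha]
      ring
    have hB : ∑ y : Fin (2 * R + 3), w (false, y) * φ y.val (mm false - y.val) =
        ∑ a ∈ Finset.range (2 * R + 3), φ a (2 * R + 2 - a) := by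
      rw [← Fin.sum_univ_eq_sum_range (fun a => φ a (2 * R + 2 - a)) (2 * R + 3)]
      refine Finset.sum_congr rfl (fun a _ => ?_)
      simp [hw, hmm]
    rw [hA, hB]
    have h2 : mm false - (R + 1) = R + 1 := by
      simp only [hmm]
      simp
      omega
    rw [h2, ← h1]
    ring
  have htot := P12_tensor w (false, (⟨R + 1, hR1⟩ : Fin (2 * R + 3))) n G hstep
  have hval : G (fun _ => (false, (⟨R + 1, hR1⟩ : Fin (2 * R + 3)))) =
      if ∃ α β, E α β then 1 else 0 := by
    simp only [hG]
    refine if_congr ⟨fun h => ⟨_, _, h⟩, ?_⟩ rfl rfl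
    rintro ⟨α, β, h⟩
    refine hE _ _ _ _ ?_ ?_ (hR0 α β h)
    · intro i
      show min (α i) R0 ≤ R + 1
      exact (min_le_right _ _).trans (by omega)
    · intro i
      show min (β i) R0 ≤ mm false - (R + 1)
      have h2 : mm false - (R + 1) = R + 1 := by
        simp only [hmm]
        simp
        omega
      rw [h2]
      exact (min_le_right _ _).trans (by omega)
  rw [← hval, ← htot]
  -- regroup the sum
  have hJ : ∀ J : Finset (Fin n), (-1 : ℤ) ^ J.card * (cnt E (mJ R J) : ℤ) =
      ∑ α : Fin n → Fin (2 * R + 3), (∏ i, w (decide (i ∈ J), α i)) *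
        G (fun i => (decide (i ∈ J), α i)) := by
    intro J
    have hprod : ∀ α : Fin n → Fin (2 * R + 3), (∏ i, w (decide (i ∈ J), α i)) =
        if ∀ i, (α i).val ≤ mJ R J i then (-1 : ℤ) ^ J.card else 0 := by
      intro α
      split_ifs with hα
      · have : ∀ i, w (decide (i ∈ J), α i) = if i ∈ J then -1 else 1 := by
          intro i
          have := hα i
          simp only [mJ] at this
          by_cases hi : i ∈ J
          · rw [if_pos hi] at this
            have h3 : (α i).val < 2 * R + 2 := by omega
            simp [hw, hi, h3]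
          · simp [hw, hi]
        simp only [this]
        rw [Finset.prod_ite]
        simp
      · push Not at hα
        obtain ⟨i, hi⟩ := hα
        refine Finset.prod_eq_zero (Finset.mem_univ i) ?_
        simp only [mJ] at hi
        by_cases hiJ : i ∈ J
        · rw [if_pos hiJ] at hi
          have h3 : ¬ (α i).val < 2 * R + 2 := by omega
          simp [hw, hiJ, h3]
        · rw [if_neg hiJ] at hi
          have := (α i).2
          omega
    simp only [hprod]
    have hcnt : (cnt E (mJ R J) : ℤ) = ∑ α ∈ Bx (mJ R J),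
        if E α (fun l => mJ R J l - α l) then (1 : ℤ) else 0 := by
      unfold cnt
      rw [Finset.card_filter]
      push_cast
      rfl
    rw [hcnt, Finset.mul_sum]
    have hle : ∀ i, mJ R J i < 2 * R + 3 := by
      intro i
      simp only [mJ]
      split_ifs <;> omega
    have hsub : ∑ α : Fin n → Fin (2 * R + 3), (if ∀ i, (α i).val ≤ mJ R J i then
        (-1 : ℤ) ^ J.card else 0) * G (fun i => (decide (i ∈ J), α i)) =
        ∑ α ∈ Finset.univ.filter (fun α : Fin n → Fin (2 * R + 3) =>
          ∀ i, (α i).val ≤ mJ R J i), (-1 : ℤ) ^ J.card * G (fun i => (decide (i ∈ J), α i)) := by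
      rw [Finset.sum_filter]
      refine Finset.sum_congr rfl (fun α _ => ?_)
      split_ifs <;> simp
    rw [hsub]
    symm
    refine Finset.sum_bij (fun α _ => fun i => (α i).val) ?_ ?_ ?_ ?_
    · intro α hα
      rw [Finset.mem_filter] at hα
      simp only [Bx, Fintype.mem_piFinset, Finset.mem_range]
      intro i
      have := hα.2 i
      omega
    · intro α _ α' _ h
      funext i
      exact Fin.ext (congrFun h i)
    · intro α hα
      simp only [Bx, Fintype.mem_piFinset, Finset.mem_range] at hα
      refine ⟨fun i => ⟨α i, ?_⟩, ?_, rfl⟩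
      · have := hα i
        have := hle i
        omega
      · rw [Finset.mem_filter]
        refine ⟨Finset.mem_univ _, fun i => ?_⟩
        have := hα i
        show α i ≤ mJ R J i
        omega
    · intro α hα
      congr 1
      simp only [hG]
      have : (fun i => mm (decide (i ∈ J)) - (α i).val) = fun l => mJ R J l - (α l).val := by
        funext i
        simp only [hmm, mJ]
        by_cases hi : i ∈ J <;> simp [hi]
      rw [this]
  simp only [hJ]
  -- exchange
  have e : (Finset (Fin n)) × (Fin n → Fin (2 * R + 3)) ≃ (Fin n → Bool × Fin (2 * R + 3)) :=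
    { toFun := fun p i => (decide (i ∈ p.1), p.2 i)
      invFun := fun c => (Finset.univ.filter (fun i => (c i).1 = true), fun i => (c i).2)
      left_inv := by
        rintro ⟨J, α⟩
        simp
      right_inv := by
        intro c
        funext i
        simp }
  rw [← Fintype.sum_prod_type' (f := fun (J : Finset (Fin n)) (α : Fin n → Fin (2 * R + 3)) =>
    (∏ i, w (decide (i ∈ J), α i)) * G (fun i => (decide (i ∈ J), α i)))]
  refine Fintype.sum_bijective (fun p : (Finset (Fin n)) × (Fin n → Fin (2 * R + 3)) =>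
    (fun i => (decide (i ∈ p.1), p.2 i) : Fin n → Bool × Fin (2 * R + 3))) ?_ _ _ (fun p => rfl)
  constructor
  · rintro ⟨J, α⟩ ⟨J', α'⟩ h
    have h1 : ∀ i, (decide (i ∈ J), α i) = (decide (i ∈ J'), α' i) := fun i => congrFun h i
    refine Prod.ext ?_ ?_
    · ext i
      have := (Prod.ext_iff.1 (h1 i)).1
      simpa using this
    · funext i
      exact (Prod.ext_iff.1 (h1 i)).2
  · intro c
    refine ⟨(Finset.univ.filter (fun i => (c i).1 = true), fun i => (c i).2), ?_⟩
    funext i
    simp

end Count

end Pool.Agent.EH
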