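import Pool.Agent.EH.Defs

set_option autoImplicit false
set_option linter.unusedSectionVars false

noncomputable section

open scoped InnerProductSpace ENNReal Topology
open Classical Filter ContinuousLinearMap

namespace Pool.Agent.EH

open Pool.Agent.VN Pool.Agent.LFT Pool.Agent.HI

section Count

variable {n : ℕ}

theorem P13_upper (E : (Fin n → ℕ) → (Fin n → ℕ) → Prop) (M : ℕ) :
    (cnt E (fun _ => M) : ℝ) ≤ ((M : ℝ) + 1) ^ n := by
  have h1 : cnt E (fun _ => M) ≤ (M + 1) ^ n := by
    refine (Finset.card_filter_le _ _).trans (le_of_eq ?_)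
    rw [Bx, Fintype.card_piFinset]
    simp
  exact_mod_cast h1

theorem P13_lower (E : (Fin n → ℕ) → (Fin n → ℕ) → Prop) (hE : UpC E) {α β : Fin n → ℕ}
    (hαβ : E α β) {R : ℕ} (hα : ∀ i, α i ≤ R) (hβ : ∀ i, β i ≤ R) {M : ℕ} (hM : 2 * R ≤ M) :
    ((M : ℝ) + 1 - 2 * R) ^ n ≤ (cnt E (fun _ => M) : ℝ) := by
  have h1 : (Fintype.piFinset fun _ : Fin n => Finset.Icc R (M - R)) ⊆
      (Bx fun _ : Fin n => M).filter fun α => E α fun l => M - α l := by
    intro γ hγ
    rw [Fintype.mem_piFinset] at hγ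
    rw [Finset.mem_filter, Bx, Fintype.mem_piFinset]
    refine ⟨fun i => ?_, hE α β γ _ (fun i => ?_) (fun i => ?_) hαβ⟩
    · have := Finset.mem_Icc.1 (hγ i)
      rw [Finset.mem_range]
      omega
    · have := Finset.mem_Icc.1 (hγ i)
      exact (hα i).trans this.1
    · have := Finset.mem_Icc.1 (hγ i)
      have h2 := hβ i
      change β i ≤ M - γ i
      omega
  have h2 := Finset.card_le_card h1
  rw [Fintype.card_piFinset, Finset.prod_const, Nat.card_Icc, Finset.card_univ,
    Fintype.card_fin] at h2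
  have h3 : ((M : ℝ) + 1 - 2 * R) = ((M - R + 1 - R : ℕ) : ℝ) := by
    rw [Nat.cast_sub (by omega), Nat.cast_add, Nat.cast_sub (by omega)]
    push_cast
    ring
  rw [h3]
  exact_mod_cast h2

/-- P13: the density of an upward closed set of pairs -/
theorem lim_count (E : (Fin n → ℕ) → (Fin n → ℕ) → Prop) (hE : UpC E) :
    Tendsto (fun M : ℕ => (cnt E (fun _ => M) : ℝ) / ((M : ℝ) + 1) ^ n) atTop
      (𝓝 (if ∃ α β, E α β then 1 else 0)) := by
  by_cases h : ∃ α β, E α β
  · rw [if_pos h]
    obtain ⟨α, β, hαβ⟩ := h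
    obtain ⟨R, hα, hβ⟩ : ∃ R : ℕ, (∀ i, α i ≤ R) ∧ ∀ i, β i ≤ R :=
      ⟨∑ i, (α i + β i), fun i => le_trans (Nat.le_add_right _ _)
        (Finset.single_le_sum (f := fun i => α i + β i) (fun _ _ => Nat.zero_le _)
          (Finset.mem_univ i)), fun i => le_trans (Nat.le_add_left _ _)
        (Finset.single_le_sum (f := fun i => α i + β i) (fun _ _ => Nat.zero_le _)
          (Finset.mem_univ i))⟩
    have hlim : Tendsto (fun M : ℕ => (1 - (2 * (R : ℝ)) * (1 / ((M : ℝ) + 1))) ^ n) atTop
        (𝓝 1) := by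
      have h1 := (tendsto_one_div_add_atTop_nhds_zero_nat (𝕜 := ℝ)).const_mul (2 * (R : ℝ))
      have h2 := (h1.const_sub 1).pow n
      simpa using h2
    refine tendsto_of_tendsto_of_tendsto_of_le_of_le' hlim tendsto_const_nhds ?_ ?_
    · filter_upwards [eventually_ge_atTop (2 * R)] with M hM
      have hp : (0 : ℝ) < (M : ℝ) + 1 := by positivity
      rw [le_div_iff₀ (pow_pos hp n), ← mul_pow]
      refine le_trans (le_of_eq ?_) (P13_lower E hE hαβ hα hβ hM)
      congr 1
      field_simp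
    · refine Eventually.of_forall fun M => ?_
      have hp : (0 : ℝ) < (M : ℝ) + 1 := by positivity
      rw [div_le_one (pow_pos hp n)]
      exact P13_upper E M
  · rw [if_neg h]
    have h0 : ∀ M : ℕ, (cnt E (fun _ => M) : ℝ) / ((M : ℝ) + 1) ^ n = 0 := by
      intro M
      have h1 : cnt E (fun _ => M) = 0 := by
        rw [cnt, Finset.card_eq_zero, Finset.filter_eq_empty_iff]
        intro α _ hα
        exact h ⟨_, _, hα⟩
      rw [h1]
      simp
    simp only [h0]
    exact tendsto_const_nhds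

end Count

end Pool.Agent.EH
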