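import Pool.Agent.EH.P2
import Pool.Agent.EH.P4

set_option autoImplicit false
set_option linter.unusedSectionVars false

noncomputable section

open scoped InnerProductSpace ENNReal Topology
open Classical Filter ContinuousLinearMap

namespace Pool.Agent.EH

open Pool.Agent.VN Pool.Agent.LFT Pool.Agent.HI

section Vol

variable {Λ : Type} [Group Λ] {n : ℕ} {ι μ : Type} [Fintype ι] [Fintype μ]

lemma P14_ltr_mono {X Y : Submodule ℂ (L2 ι Λ)} (h : X ≤ Y) (q : ι × Λ) :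
    ltr X q ≤ ltr Y q := by
  unfold ltr
  have h1 : Metric.infDist (dl q) (Y : Set (L2 ι Λ)) ≤ Metric.infDist (dl q) (X : Set (L2 ι Λ)) :=
    Metric.infDist_le_infDist_of_subset h ⟨0, X.zero_mem⟩
  have h2 := Metric.infDist_nonneg (x := dl q) (s := (Y : Set (L2 ι Λ)))
  nlinarith

lemma P14_dm (X : Submodule ℂ (L2 ι Λ)) : dm X = ∑ i : ι, ltr X (i, 1) := rfl

lemma P14_bx_le (θ : Λ →* Af n) (X : Submodule ℂ (L2 ι Λ)) (α β : Fin n → ℕ) :
    bx θ X α β ≤ X := fun _ hx => hx.1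

lemma P14_card_Bx (M : ℕ) : (Bx (fun _ : Fin n => M)).card = (M + 1) ^ n := by
  unfold Bx
  rw [Fintype.card_piFinset]
  simp

lemma P14_mem_Bx {M : ℕ} {α : Fin n → ℕ} : α ∈ Bx (fun _ => M) ↔ ∀ l, α l ≤ M := by
  unfold Bx
  rw [Fintype.mem_piFinset]
  simp only [Finset.mem_range, Nat.lt_succ_iff]

/-- P14: upper bound -/
theorem ff_upper (θ : Λ →* Af n) {X : Submodule ℂ (L2 ι Λ)} (hX : CI X) (M : ℕ) :
    FF θ X (fun _ => M) ≤ ((M : ℝ) + 1) ^ n * dm X := by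
  unfold FF
  calc ∑ α ∈ Bx (fun _ : Fin n => M), ∑ i : ι, ltr (bx θ X α fun l => M - α l) (i, 1)
      ≤ ∑ α ∈ Bx (fun _ : Fin n => M), ∑ i : ι, ltr X (i, 1) :=
        Finset.sum_le_sum fun α _ => Finset.sum_le_sum fun i _ =>
          P14_ltr_mono (P14_bx_le θ X _ _) _
    _ = ((M : ℝ) + 1) ^ n * dm X := by
        rw [Finset.sum_const, P14_card_Bx, P14_dm, nsmul_eq_mul]
        push_cast
        rfl

/-- the index set of the families -/
abbrev P14_K (ι : Type) (n M : ℕ) : Type := ι × {α : Fin n → ℕ // α ∈ Bx (fun _ => M)}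

lemma P14_bdC {G ι κ μ M : Type} [Group G] [Fintype μ] [MulAction G M] {p : κ → ι}
    {ℓ : κ → M} {A : μ → (ι × G →₀ ℂ)} {C : Finset M} {r : μ × C} (h : r ∈ bdC p ℓ A C) :
    (∃ u ∈ (A r.1).support, ∃ a, p a = u.1 ∧ ℓ a = u.2 • r.2.1) ∧
      ∃ u ∈ (A r.1).support, ¬ ∃ a, p a = u.1 ∧ ℓ a = u.2 • r.2.1 :=
  (Finset.mem_filter.1 h).2

/-- the place of a vector -/
def P14_pt (θ : Λ →* Af n) (α : Fin n → ℕ) : Via θ (Pt n) :=
  toVia θ (fun l => -((α l : ℕ) : ℤ) : Pt n)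

/-- the places -/
def P14_l (θ : Λ →* Af n) (M : ℕ) (a : P14_K ι n M) : Via θ (Pt n) := P14_pt θ a.2.1

lemma P14_smul (θ : Λ →* Af n) (g : Λ) (x : Via θ (Pt n)) (l : Fin n) :
    (ofVia (g • x) : Pt n) l = (θ g).tr l + (ofVia x : Pt n) ((θ g).pm.symm l) := rfl

lemma P14_inj (θ : Λ →* Af n) (M : ℕ) (a b : P14_K ι n M) (h1 : a.1 = b.1)
    (h2 : P14_l θ M a = P14_l θ M b) : a = b := by
  refine Prod.ext h1 (Subtype.ext (funext fun l => ?_))
  have h3 : -((a.2.1 l : ℕ) : ℤ) = -((b.2.1 l : ℕ) : ℤ) := congrFun h2 l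
  omega

/-- the translate of a place is a place -/
lemma P14_exists (θ : Λ →* Af n) (M : ℕ) (g : Λ) (i : ι) (x : Via θ (Pt n)) :
    (∃ a : P14_K ι n M, a.1 = i ∧ g • P14_l θ M a = x) ↔
      ∀ l, (ofVia x : Pt n) l ≤ (θ g).tr l ∧ (θ g).tr l ≤ M + (ofVia x : Pt n) l := by
  constructor
  · rintro ⟨a, -, rfl⟩ l
    have h1 := P14_mem_Bx.1 a.2.2 ((θ g).pm.symm l)
    have h2 : (ofVia (g • P14_l θ M a) : Pt n) l =
        (θ g).tr l + -((a.2.1 ((θ g).pm.symm l) : ℕ) : ℤ) := rfl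
    rw [h2]
    omega
  · intro h
    refine ⟨(i, ⟨fun m => ((θ g).tr ((θ g).pm m) - (ofVia x : Pt n) ((θ g).pm m)).toNat,
      P14_mem_Bx.2 fun m => ?_⟩), rfl, ?_⟩
    · have := h ((θ g).pm m)
      omega
    · have h3 : ∀ l, (ofVia (g • P14_l θ M ((i, ⟨fun m => ((θ g).tr ((θ g).pm m) -
          (ofVia x : Pt n) ((θ g).pm m)).toNat, P14_mem_Bx.2 fun m => by
            have := h ((θ g).pm m)
            omega⟩) : P14_K ι n M)) : Pt n) l = (ofVia x : Pt n) l := by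
        intro l
        rw [P14_smul]
        show (θ g).tr l + -((((θ g).tr ((θ g).pm ((θ g).pm.symm l)) -
          (ofVia x : Pt n) ((θ g).pm ((θ g).pm.symm l))).toNat : ℕ) : ℤ) = _
        rw [Equiv.apply_symm_apply]
        have := h l
        omega
      exact funext h3

lemma P14_XR (θ : Λ →* Af n) (M : ℕ) (X : Submodule ℂ (L2 ι Λ)) (a : P14_K ι n M) :
    XR X Prod.fst (P14_l θ M) (P14_l θ M a) = bx θ X a.2.1 (fun l => M - a.2.1 l) := by
  have key : ∀ q : ι × Λ, (∃ b : P14_K ι n M, b.1 = q.1 ∧ q.2 • P14_l θ M b = P14_l θ M a) ↔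
      ∀ l, -((a.2.1 l : ℕ) : ℤ) ≤ (θ q.2).tr l ∧ (θ q.2).tr l ≤ ((M - a.2.1 l : ℕ) : ℤ) := by
    intro q
    rw [P14_exists]
    refine forall_congr' fun l => ?_
    have h1 := P14_mem_Bx.1 a.2.2 l
    have h2 : (ofVia (P14_l θ M a) : Pt n) l = -((a.2.1 l : ℕ) : ℤ) := rfl
    rw [h2]
    omega
  ext x
  constructor
  · rintro ⟨hx, h⟩
    exact ⟨hx, fun q hq => (key q).1 (h q hq)⟩
  · rintro ⟨hx, h⟩
    exact ⟨hx, fun q hq => (key q).2 (h q hq)⟩

/-- P14: lower bound -/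
theorem ff_lower (θ : Λ →* Af n) (A : μ → (ι × Λ →₀ ℂ)) :
    ∃ (c : ℝ) (r : ℕ), 0 ≤ c ∧ ∀ M : ℕ, 2 * r ≤ M →
      ((M : ℝ) + 1) ^ n * dm (kr (mulR A)) - c * (((M : ℝ) + 1) ^ n - ((M : ℝ) + 1 - 2 * r) ^ n)
        ≤ FF θ (kr (mulR A)) (fun _ => M) := by
  let T : Finset Λ := Finset.univ.biUnion fun j : μ =>
    ((A j).support ×ˢ (A j).support).image fun u => u.2.2 * u.1.2⁻¹
  let r : ℕ := T.sup fun g => Finset.univ.sup fun l => ((θ g).tr l).natAbs
  have hr : ∀ j, ∀ u ∈ (A j).support, ∀ u' ∈ (A j).support, ∀ l,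
      ((θ (u'.2 * u.2⁻¹)).tr l).natAbs ≤ r := by
    intro j u hu u' hu' l
    have h1 : u'.2 * u.2⁻¹ ∈ T := by
      refine Finset.mem_biUnion.2 ⟨j, Finset.mem_univ _, Finset.mem_image.2 ⟨(u, u'),
        Finset.mem_product.2 ⟨hu, hu'⟩, rfl⟩⟩
    refine le_trans ?_ (Finset.le_sup (f := fun g => Finset.univ.sup fun l =>
      ((θ g).tr l).natAbs) h1)
    exact Finset.le_sup (f := fun l => ((θ (u'.2 * u.2⁻¹)).tr l).natAbs) (Finset.mem_univ l)
  refine ⟨∑ j, ((A j).support.card : ℝ), r, Finset.sum_nonneg fun _ _ => Nat.cast_nonneg _,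
    fun M hM => ?_⟩
  let C : Finset (Via θ (Pt n)) := Finset.univ.biUnion fun j : μ =>
    (A j).support.biUnion fun u => Finset.univ.image fun a : P14_K ι n M =>
      u.2⁻¹ • P14_l θ M a
  have hC : CovC Prod.fst (P14_l θ M) A C := by
    intro j u hu a _
    exact Finset.mem_biUnion.2 ⟨j, Finset.mem_univ _, Finset.mem_biUnion.2 ⟨u, hu,
      Finset.mem_image.2 ⟨a, Finset.mem_univ _, rfl⟩⟩⟩
  have h1 := fam_lower Prod.fst (P14_l θ M) (P14_inj θ M) A C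
  have h2 := dm_fam Prod.fst (P14_l θ M) (P14_inj θ M) A hC
  rw [h2] at h1
  -- the two sums
  have h3 : ∑ a : P14_K ι n M, ltr (XR (kr (mulR A)) Prod.fst (P14_l θ M) (P14_l θ M a))
      (a.1, 1) = FF θ (kr (mulR A)) (fun _ => M) := by
    unfold FF
    rw [Fintype.sum_prod_type_right]
    rw [← Finset.sum_coe_sort (Bx (fun _ : Fin n => M))
      (fun α => ∑ i : ι, ltr (bx θ (kr (mulR A)) α fun l => M - α l) (i, 1))]
    refine Finset.sum_congr rfl fun α _ => Finset.sum_congr rfl fun i _ => ?_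
    rw [P14_XR]
  have h4 : ∑ a : P14_K ι n M, ltr (kr (mulR A)) (a.1, 1) =
      ((M : ℝ) + 1) ^ n * dm (kr (mulR A)) := by
    rw [Fintype.sum_prod_type_right]
    show ∑ α : {α : Fin n → ℕ // α ∈ Bx (fun _ => M)}, ∑ i : ι, ltr (kr (mulR A)) (i, 1) = _
    rw [Finset.sum_const, ← P14_dm, nsmul_eq_mul, Finset.card_univ, Fintype.card_coe,
      P14_card_Bx]
    push_cast
    rfl
  -- the boundary
  let Gd : Finset (Fin n → ℕ) := Fintype.piFinset fun _ => Finset.Icc r (M - r)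
  have hGd : ∀ α, α ∈ Gd ↔ ∀ l, r ≤ α l ∧ α l ≤ M - r := by
    intro α
    rw [Fintype.mem_piFinset]
    simp only [Finset.mem_Icc]
  have hGsub : Gd ⊆ Bx (fun _ => M) := by
    intro α hα
    rw [hGd] at hα
    exact P14_mem_Bx.2 fun l => by have := hα l; omega
  have hGcard : Gd.card = (M + 1 - 2 * r) ^ n := by
    rw [Fintype.card_piFinset]
    simp only [Nat.card_Icc, Finset.prod_const, Finset.card_univ, Fintype.card_fin]
    congr 1
    omega
  let Bd : Finset (Fin n → ℕ) := Bx (fun _ => M) \ Gd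
  have hBcard : (Bd.card : ℝ) = ((M : ℝ) + 1) ^ n - ((M : ℝ) + 1 - 2 * r) ^ n := by
    have e1 : Bd.card + Gd.card = (Bx (fun _ : Fin n => M)).card :=
      Finset.card_sdiff_add_card_eq_card hGsub
    rw [hGcard, P14_card_Bx] at e1
    have e2 : ((Bd.card : ℕ) : ℝ) + ((M + 1 - 2 * r : ℕ) : ℝ) ^ n = ((M : ℝ) + 1) ^ n := by
      exact_mod_cast e1
    rw [Nat.cast_sub (by omega)] at e2
    push_cast at e2
    linarith
  have h5 : (bdC Prod.fst (P14_l (ι := ι) θ M) A C).card ≤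
      (Finset.univ.sigma fun j : μ => (A j).support ×ˢ Bd).card := by
    let f : μ × C → μ × Via θ (Pt n) := fun r => (r.1, r.2.1)
    have hf : Function.Injective f := by
      rintro ⟨j, c⟩ ⟨j', c'⟩ h
      have e1 : j = j' := congrArg Prod.fst h
      have e2 : c.1 = c'.1 := congrArg Prod.snd h
      rw [e1, Subtype.ext e2]
    rw [← Finset.card_image_of_injective _ hf]
    refine le_trans (Finset.card_le_card (t := (Finset.univ.sigma fun j : μ =>
      (A j).support ×ˢ Bd).image fun z => (z.1, z.2.1.2⁻¹ •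
        P14_pt θ z.2.2)) ?_) Finset.card_image_le
    intro z hz
    obtain ⟨⟨j, c⟩, hb, rfl⟩ := Finset.mem_image.1 hz
    obtain ⟨⟨u, hu, a, ha, hac⟩, u', hu', hna⟩ := P14_bdC hb
    have hac' : P14_l θ M a = u.2 • c.1 := hac
    refine Finset.mem_image.2 ⟨⟨j, (u, a.2.1)⟩, Finset.mem_sigma.2 ⟨Finset.mem_univ _,
      Finset.mem_product.2 ⟨hu, ?_⟩⟩, ?_⟩
    · refine Finset.mem_sdiff.2 ⟨a.2.2, fun hg => hna ?_⟩
      have hg' : ∀ l, r ≤ a.2.1 l ∧ a.2.1 l ≤ M - r := (hGd _).1 hg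
      have e1 := hr j u hu u' hu'
      -- the place `u'.2 • c`
      have e2 : u'.2 • c.1 = (u'.2 * u.2⁻¹) • P14_l θ M a := by
        rw [hac', smul_smul]
        congr 1
        group
      have e3 : ∃ b : P14_K ι n M, b.1 = u'.1 ∧ (1 : Λ) • P14_l θ M b = u'.2 • c.1 := by
        rw [P14_exists]
        intro l
        rw [e2, P14_smul, map_one, af_one_tr]
        have e4 : (ofVia (P14_l θ M a) : Pt n) ((θ (u'.2 * u.2⁻¹)).pm.symm l) =
          -((a.2.1 ((θ (u'.2 * u.2⁻¹)).pm.symm l) : ℕ) : ℤ) := rfl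
        rw [e4]
        have e5 := e1 l
        have e6 := hg' ((θ (u'.2 * u.2⁻¹)).pm.symm l)
        omega
      obtain ⟨b, hb1, hb2⟩ := e3
      rw [one_smul] at hb2
      exact ⟨b, hb1, hb2⟩
    · show (j, u.2⁻¹ • P14_l θ M a) = (j, c.1)
      rw [hac', inv_smul_smul]
  have h6 : ((bdC Prod.fst (P14_l (ι := ι) θ M) A C).card : ℝ) ≤
      (∑ j, ((A j).support.card : ℝ)) * (((M : ℝ) + 1) ^ n - ((M : ℝ) + 1 - 2 * r) ^ n) := by
    rw [← hBcard, Finset.sum_mul]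
    refine (Nat.cast_le.2 h5).trans (le_of_eq ?_)
    rw [Finset.card_sigma, Nat.cast_sum]
    refine Finset.sum_congr rfl fun j _ => ?_
    rw [Finset.card_product, Nat.cast_mul]
  rw [h3] at h1
  have h7 : ∑ a : P14_K ι n M, ltr (kr (mulR A)) (Prod.fst a, 1) =
      ((M : ℝ) + 1) ^ n * dm (kr (mulR A)) := h4
  rw [h7] at h1
  linarith

end Vol

end Pool.Agent.EH
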