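import Pool.Agent.EH.P10
import Pool.Agent.EH.P11
import Pool.Agent.EH.P12
import Pool.Agent.EH.P13
import Pool.Agent.EH.P14

set_option autoImplicit false
set_option linter.unusedSectionVars false

noncomputable section

open scoped InnerProductSpace ENNReal Topology
open Classical Filter ContinuousLinearMap

namespace Pool.Agent.EH

open Pool.Agent.VN Pool.Agent.LFT Pool.Agent.HI

section Moody

variable {Λ : Type} [Group Λ] {k : Subring ℂ} {n : ℕ} {ι μ : Type} [Fintype ι] [Fintype μ]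

lemma mJ_comp (R : ℕ) (J : Finset (Fin n)) (π : Equiv.Perm (Fin n)) :
    mJ R J ∘ π = mJ R (J.map (π.symm : Fin n ≃ Fin n).toEmbedding) := by
  funext i
  have h : (i ∈ J.map (π.symm : Fin n ≃ Fin n).toEmbedding) ↔ π i ∈ J := by
    rw [Finset.mem_map_equiv, Equiv.symm_symm]
  simp only [Function.comp_apply, mJ, h]

/-- alternating sums over sets of directions are invariant under permutations -/
lemma sum_perm_J (π : Equiv.Perm (Fin n)) (R : ℕ) (f : (Fin n → ℕ) → ℝ) :
    ∑ J : Finset (Fin n), (-1 : ℝ) ^ J.card * f (mJ R J ∘ π)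
      = ∑ J : Finset (Fin n), (-1 : ℝ) ^ J.card * f (mJ R J) := by
  refine Fintype.sum_equiv (Equiv.finsetCongr (π.symm : Fin n ≃ Fin n)) _ _ fun J => ?_
  rw [mJ_comp, Equiv.finsetCongr_apply, Finset.card_map]

lemma ratio_tendsto (r : ℕ) : Tendsto (fun M : ℕ =>
    (((M : ℝ) + 1) ^ n - ((M : ℝ) + 1 - 2 * r) ^ n) / ((M : ℝ) + 1) ^ n) atTop (𝓝 0) := by
  have h1 : Tendsto (fun M : ℕ => (2 * (r : ℝ)) * (1 / ((M : ℝ) + 1))) atTop (𝓝 0) := by
    have := tendsto_one_div_add_atTop_nhds_zero_nat (𝕜 := ℝ)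
    simpa using this.const_mul (2 * (r : ℝ))
  have h2 : Tendsto (fun M : ℕ => 1 - (1 - (2 * (r : ℝ)) * (1 / ((M : ℝ) + 1))) ^ n) atTop
      (𝓝 (1 - (1 - 0) ^ n)) := (tendsto_const_nhds.sub ((tendsto_const_nhds.sub h1).pow n))
  have h3 : (1 : ℝ) - (1 - 0) ^ n = 0 := by simp
  rw [h3] at h2
  refine h2.congr fun M => ?_
  have hM : ((M : ℝ) + 1) ≠ 0 := by positivity
  have h4 : (1 - (2 * (r : ℝ)) * (1 / ((M : ℝ) + 1))) = ((M : ℝ) + 1 - 2 * r) / ((M : ℝ) + 1) := by
    field_simp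
  rw [h4, div_pow, sub_div, div_self (pow_ne_zero n hM)]

theorem int_kr (θ : Λ →* Af n)
    (hθ : ∀ F : Subgroup (Af n), Finite F → AtiyahOver k (F.comap θ))
    (A : μ → (ι × Λ →₀ ℂ)) (hA : ∀ j, CoefIn k (A j)) : ∃ z : ℤ, dm (kr (mulR A)) = z := by
  obtain ⟨E, hE, hcount⟩ := frames_count θ (hθ ⊥ inferInstance) A hA
  choose R0 hR0 using fun π i => alt_count (E π i) (hE π i)
  set X := kr (mulR A) with hX
  have hXci : CI X := CI.kr (mulR_equivar A)
  set R : ℕ := Finset.univ.sup fun x : Equiv.Perm (Fin n) × ι => R0 x.1 x.2 with hR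
  have hRle : ∀ π i, R0 π i ≤ R := fun π i =>
    Finset.le_sup (f := fun x : Equiv.Perm (Fin n) × ι => R0 x.1 x.2) (Finset.mem_univ (π, i))
  set P : ℝ := (Fintype.card (Equiv.Perm (Fin n)) : ℝ) with hP
  have hP0 : 0 < P := by
    rw [hP]
    exact_mod_cast Fintype.card_pos
  set s : ℝ := ∑ π : Equiv.Perm (Fin n), ∑ i, (if ∃ α β, E π i α β then (1 : ℝ) else 0) with hs
  -- the density
  have h1 : s = P * dm X := by
    have hl1 : Tendsto (fun M : ℕ => ∑ π : Equiv.Perm (Fin n), ∑ i,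
        (cnt (E π i) (fun _ => M) : ℝ) / ((M : ℝ) + 1) ^ n) atTop (𝓝 s) := by
      rw [hs]
      refine tendsto_finset_sum _ fun π _ => tendsto_finset_sum _ fun i _ => ?_
      exact lim_count (E π i) (hE π i)
    have heq : ∀ M : ℕ, ∑ π : Equiv.Perm (Fin n), ∑ i,
        (cnt (E π i) (fun _ => M) : ℝ) / ((M : ℝ) + 1) ^ n
          = P * (FF θ X (fun _ => M) / ((M : ℝ) + 1) ^ n) := by
      intro M
      have h2 := hcount fun _ => M
      have h3 : ∀ π : Equiv.Perm (Fin n), ((fun _ : Fin n => M) ∘ π) = fun _ => M := fun _ => rfl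
      simp only [h3] at h2
      rw [Finset.sum_const, Finset.card_univ, nsmul_eq_mul, ← hP] at h2
      simp only [← Finset.sum_div]
      rw [← h2, mul_div_assoc]
    have hl2 : Tendsto (fun M : ℕ => P * (FF θ X (fun _ => M) / ((M : ℝ) + 1) ^ n)) atTop
        (𝓝 (P * dm X)) := by
      refine Tendsto.const_mul P ?_
      obtain ⟨c, r, hc, hlow⟩ := ff_lower θ A
      have hlo : Tendsto (fun M : ℕ => dm X - c *
          ((((M : ℝ) + 1) ^ n - ((M : ℝ) + 1 - 2 * r) ^ n) / ((M : ℝ) + 1) ^ n)) atTop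
          (𝓝 (dm X)) := by
        have := (ratio_tendsto (n := n) r).const_mul c
        rw [mul_zero] at this
        simpa using tendsto_const_nhds.sub this
      refine tendsto_of_tendsto_of_tendsto_of_le_of_le' hlo tendsto_const_nhds ?_ ?_
      · filter_upwards [eventually_ge_atTop (2 * r)] with M hM
        have h3 := hlow M hM
        have hM0 : 0 < ((M : ℝ) + 1) ^ n := by positivity
        rw [le_div_iff₀ hM0]
        have h4 : (dm X - c * ((((M : ℝ) + 1) ^ n - ((M : ℝ) + 1 - 2 * r) ^ n) /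
            ((M : ℝ) + 1) ^ n)) * ((M : ℝ) + 1) ^ n
            = ((M : ℝ) + 1) ^ n * dm X - c * (((M : ℝ) + 1) ^ n - ((M : ℝ) + 1 - 2 * r) ^ n) := by
          field_simp
        rw [h4]
        exact h3
      · filter_upwards with M
        have hM0 : 0 < ((M : ℝ) + 1) ^ n := by positivity
        rw [div_le_iff₀ hM0, mul_comm (dm X)]
        exact ff_upper θ hXci M
    exact tendsto_nhds_unique hl1 (hl2.congr fun M => (heq M).symm)
  -- the alternating sum
  have h2 : P * ∑ J : Finset (Fin n), (-1 : ℝ) ^ J.card * FF θ X (mJ R J) = s := by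
    have h3 : ∀ π : Equiv.Perm (Fin n), ∑ J : Finset (Fin n), (-1 : ℝ) ^ J.card *
        FF θ X (mJ R J ∘ π) = ∑ J : Finset (Fin n), (-1 : ℝ) ^ J.card * FF θ X (mJ R J) :=
      fun π => sum_perm_J π R (FF θ X)
    have h4 : P * ∑ J : Finset (Fin n), (-1 : ℝ) ^ J.card * FF θ X (mJ R J)
        = ∑ π : Equiv.Perm (Fin n), ∑ J : Finset (Fin n), (-1 : ℝ) ^ J.card *
          FF θ X (mJ R J ∘ π) := by
      rw [Finset.sum_congr rfl fun π _ => h3 π, Finset.sum_const, Finset.card_univ, nsmul_eq_mul]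
    rw [h4, Finset.sum_comm]
    have h5 : ∀ J : Finset (Fin n), ∑ π : Equiv.Perm (Fin n), (-1 : ℝ) ^ J.card *
        FF θ X (mJ R J ∘ π) = ∑ π : Equiv.Perm (Fin n), ∑ i, (-1 : ℝ) ^ J.card *
          (cnt (E π i) (mJ R J ∘ π) : ℝ) := by
      intro J
      rw [← Finset.mul_sum, hcount, Finset.mul_sum]
      exact Finset.sum_congr rfl fun π _ => Finset.mul_sum _ _ _
    rw [Finset.sum_congr rfl fun J _ => h5 J, Finset.sum_comm, hs]
    refine Finset.sum_congr rfl fun π _ => ?_
    rw [Finset.sum_comm]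
    refine Finset.sum_congr rfl fun i _ => ?_
    rw [sum_perm_J π R fun m => (cnt (E π i) m : ℝ)]
    have h6 := hR0 π i R (hRle π i)
    have h7 := congrArg (fun z : ℤ => (z : ℝ)) h6
    simp only [Int.cast_sum, Int.cast_mul, Int.cast_pow, Int.cast_neg, Int.cast_one,
      Int.cast_natCast] at h7
    rw [h7]
    split_ifs <;> simp
  have h3 : dm X = ∑ J : Finset (Fin n), (-1 : ℝ) ^ J.card * FF θ X (mJ R J) := by
    have h4 : P * ∑ J : Finset (Fin n), (-1 : ℝ) ^ J.card * FF θ X (mJ R J) = P * dm X := by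
      rw [h2, h1]
    exact (mul_left_cancel₀ hP0.ne' h4).symm
  -- integrality of the parts
  choose z hz using fun j => cells_int θ hθ A hA R j
  refine ⟨∑ j ∈ Finset.range (n + 1), (-1) ^ j * z j, ?_⟩
  rw [h3]
  have h4 : (Finset.univ : Finset (Finset (Fin n)))
      = (Finset.range (n + 1)).biUnion fun j =>
        Finset.powersetCard j (Finset.univ : Finset (Fin n)) := by
    ext J
    simp only [Finset.mem_univ, Finset.mem_biUnion, Finset.mem_range, Finset.mem_powersetCard,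
      Finset.subset_univ, true_and, true_iff]
    exact ⟨J.card, Nat.lt_succ_of_le (by simpa using Finset.card_le_univ J), rfl⟩
  rw [h4, Finset.sum_biUnion]
  · push_cast
    refine Finset.sum_congr rfl fun j _ => ?_
    rw [← hz j, Finset.mul_sum]
    refine Finset.sum_congr rfl fun J hJ => ?_
    rw [(Finset.mem_powersetCard.mp hJ).2]
  · intro j _ j' _ hjj'
    exact Finset.disjoint_left.mpr fun J h5 h6 => hjj'
      ((Finset.mem_powersetCard.mp h5).2.symm.trans (Finset.mem_powersetCard.mp h6).2)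

/-- the Atiyah conjecture passes along homomorphisms to groups of affine permutations -/
theorem atiyah_af (θ : Λ →* Af n)
    (hθ : ∀ F : Subgroup (Af n), Finite F → AtiyahOver k (F.comap θ)) : AtiyahOver k Λ := by
  intro m n' A hA
  obtain ⟨z, hz⟩ := int_kr θ hθ (colF A) fun j p => colF_coef hA _ ⟨j, rfl⟩ p
  refine ⟨z, ?_⟩
  rw [kerDim_eq, ← hz]
  unfold dm
  rw [← ker_mulR]

end Moody

end Pool.Agent.EH
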