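import Pool.Agent.EH.Defs

set_option autoImplicit false
set_option linter.unusedSectionVars false

noncomputable section

open scoped InnerProductSpace ENNReal Topology
open Classical Filter ContinuousLinearMap

namespace Pool.Agent.EH

open Pool.Agent.VN Pool.Agent.LFT Pool.Agent.HI

section Foel

/-- the affine permutations as pairs -/
def P9_e (n : ℕ) : (Fin n → ℤ) × Equiv.Perm (Fin n) ≃ Af n where
  toFun x := ⟨x.1, x.2⟩
  invFun a := (a.tr, a.pm)
  left_inv _ := rfl
  right_inv _ := rfl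

/-- the affine permutations with translation vector in a cube -/
def P9_Q (n M : ℕ) : Finset (Af n) :=
  ((Fintype.piFinset fun _ : Fin n => Finset.Icc (-(M : ℤ)) M) ×ˢ
    (Finset.univ : Finset (Equiv.Perm (Fin n)))).map (P9_e n).toEmbedding

lemma P9_mem (n M : ℕ) (a : Af n) :
    a ∈ P9_Q n M ↔ ∀ i, -(M : ℤ) ≤ a.tr i ∧ a.tr i ≤ M := by
  unfold P9_Q
  rw [Finset.mem_map]
  constructor
  · rintro ⟨x, hx, rfl⟩ i
    rw [Finset.mem_product, Fintype.mem_piFinset] at hx
    exact Finset.mem_Icc.mp (hx.1 i)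
  · intro h
    refine ⟨(a.tr, a.pm), ?_, rfl⟩
    rw [Finset.mem_product, Fintype.mem_piFinset]
    exact ⟨fun i => Finset.mem_Icc.mpr (h i), Finset.mem_univ _⟩

lemma P9_card (n M : ℕ) : (P9_Q n M).card = (2 * M + 1) ^ n * n.factorial := by
  unfold P9_Q
  rw [Finset.card_map, Finset.card_product, Fintype.card_piFinset]
  rw [Finset.prod_const, Finset.card_univ, Finset.card_univ, Fintype.card_fin,
    Fintype.card_perm, Fintype.card_fin, Int.card_Icc]
  congr 2
  omega

lemma P9_bad (n r k : ℕ) (s : Af n) (hs : ∀ i, (s.tr i).natAbs ≤ r) :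
    ((P9_Q n (r + k)).filter fun a => s * a ∉ P9_Q n (r + k)).card
      ≤ (P9_Q n (r + k)).card - (P9_Q n k).card := by
  have hsub : P9_Q n k ⊆ P9_Q n (r + k) := by
    intro a ha
    rw [P9_mem] at ha ⊢
    intro i
    have := ha i
    push_cast
    constructor <;> omega
  rw [← Finset.card_sdiff_of_subset hsub]
  apply Finset.card_le_card
  intro a ha
  rw [Finset.mem_filter] at ha
  rw [Finset.mem_sdiff]
  refine ⟨ha.1, fun h => ha.2 ?_⟩
  rw [P9_mem] at h ⊢
  intro i
  rw [af_mul_tr]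
  have h1 := h (s.pm.symm i)
  have h2 := hs i
  push_cast
  constructor <;> omega

lemma P9_ratio (n r : ℕ) (ε : ℝ) (hε : 0 < ε) : ∃ k : ℕ,
    (((P9_Q n (r + k)).card - (P9_Q n k).card : ℕ) : ℝ) ≤ ε * ((P9_Q n (r + k)).card : ℝ) := by
  obtain ⟨k, hk⟩ := exists_nat_ge ((n : ℝ) * (2 * r) / ε)
  refine ⟨k, ?_⟩
  have h1 : (P9_Q n k).card ≤ (P9_Q n (r + k)).card := by
    rw [P9_card, P9_card]
    apply Nat.mul_le_mul_right
    apply Nat.pow_le_pow_left
    omega
  rw [Nat.cast_sub h1, P9_card, P9_card]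
  push_cast
  have hf : (0 : ℝ) < n.factorial := by exact_mod_cast Nat.factorial_pos n
  set A : ℝ := 2 * ((r : ℝ) + k) + 1 with hA
  have hApos : 0 < A := by positivity
  have h2 : (2 * (k : ℝ) + 1) = A * (1 + (-(2 * r) / A)) := by
    field_simp
    rw [hA]; ring
  have h3 : (1 : ℝ) + n * (-(2 * r) / A) ≤ (1 + (-(2 * r) / A)) ^ n := by
    apply one_add_mul_le_pow
    rw [le_div_iff₀ hApos, hA]
    have : (0 : ℝ) ≤ k := Nat.cast_nonneg k
    have : (0 : ℝ) ≤ r := Nat.cast_nonneg r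
    nlinarith
  have h4 : (n : ℝ) * (2 * r) ≤ ε * A := by
    rw [div_le_iff₀ hε] at hk
    have : (0 : ℝ) ≤ r := Nat.cast_nonneg r
    nlinarith
  have h5 : (1 : ℝ) - ε ≤ 1 + n * (-(2 * r) / A) := by
    have : (n : ℝ) * (2 * r) / A ≤ ε := by
      rw [div_le_iff₀ hApos]; exact h4
    have h6 : (n : ℝ) * (-(2 * r) / A) = -((n : ℝ) * (2 * r) / A) := by ring
    rw [h6]; linarith
  have h6 : (1 - ε) * A ^ n ≤ (2 * (k : ℝ) + 1) ^ n := by
    rw [h2, mul_pow, mul_comm]
    exact mul_le_mul_of_nonneg_left (h5.trans h3) (by positivity)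
  have h7 : A ^ n * (n.factorial : ℝ) - (2 * (k : ℝ) + 1) ^ n * n.factorial
      ≤ ε * (A ^ n * n.factorial) := by
    nlinarith
  exact h7

/-- P9: twisted products with the group of affine permutations -/
theorem foel_tw {G B W : Type} [Group G] [Group B] [MulAction G W] {c : G → W → B} (hc : Coc c)
    {n : ℕ} (p : B →* Af n) {Γ : Type} [Group Γ] (π : Γ →* G) {U : Type} [MulAction Γ U] :
    Foel Γ (fun x : Via π (Tw hc (Via p (Af n))) × U =>
      ((toVia π (ofVia x.1).1, x.2) : Via π W × U)) := by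
  intro T F ε hε
  -- the radius
  set r : ℕ := (F ×ˢ T).sup fun x => Finset.univ.sup fun i : Fin n =>
    ((p (c (π x.1) (ofVia x.2.1))).tr i).natAbs with hr
  have hrle : ∀ g ∈ F, ∀ w ∈ T, ∀ i, ((p (c (π g) (ofVia w.1))).tr i).natAbs ≤ r := by
    intro g hg w hw i
    have h1 : ((p (c (π g) (ofVia w.1))).tr i).natAbs ≤ Finset.univ.sup fun i : Fin n =>
        ((p (c (π g) (ofVia w.1))).tr i).natAbs :=
      Finset.le_sup (f := fun i : Fin n => ((p (c (π g) (ofVia w.1))).tr i).natAbs)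
        (Finset.mem_univ i)
    refine h1.trans ?_
    exact Finset.le_sup (f := fun x : Γ × (Via π W × U) => Finset.univ.sup fun i : Fin n =>
      ((p (c (π x.1) (ofVia x.2.1))).tr i).natAbs)
      (Finset.mem_product.mpr ⟨hg, hw⟩ : (g, w) ∈ F ×ˢ T)
  obtain ⟨k, hk⟩ := P9_ratio n r ε hε
  set Q := P9_Q n (r + k) with hQ
  let e : Fin Q.card ≃ Q := Q.equivFin.symm
  refine ⟨Q.card, fun w j => (toVia π (mkTw hc (ofVia w.1) (toVia p (e j).1)), w.2), ?_, ?_, ?_, ?_⟩
  · rw [hQ, P9_card]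
    positivity
  · intro w j
    rfl
  · intro w j j' h
    have h1 : (e j).1 = (e j').1 := congrArg (fun x : Via π (Tw hc (Via p (Af n))) × U =>
      (ofVia (ofVia x.1).2 : Af n)) h
    exact e.injective (Subtype.ext h1)
  · intro g hg w hw _
    refine le_trans ?_ hk
    have h2 := P9_bad n r k (p (c (π g) (ofVia w.1))) (hrle g hg w hw)
    refine le_trans ?_ (Nat.cast_le.mpr h2)
    rw [Nat.cast_le]
    refine Finset.card_le_card_of_injOn (fun j => (e j).1) ?_ ?_
    · intro j hj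
      rw [Finset.coe_filter] at hj
      have hj2 := hj.2
      rw [Finset.coe_filter]
      refine ⟨(e j).2, fun hmem => hj2 ?_⟩
      refine ⟨e.symm ⟨_, hmem⟩, ?_⟩
      show (toVia π (mkTw hc (ofVia (g • w).1) (toVia p (e (e.symm ⟨_, hmem⟩)).1)), (g • w).2) = _
      rw [Equiv.apply_symm_apply]
      rfl
    · intro j _ j' _ h
      exact e.injective (Subtype.ext h)

end Foel

end Pool.Agent.EH
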