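import Pool.Agent.EH.P8
import Pool.Agent.EH.P9
import Pool.Agent.EH.P15
import Pool.Agent.EH.P17

set_option autoImplicit false
set_option linter.unusedSectionVars false

noncomputable section

open scoped InnerProductSpace ENNReal Topology
open Classical Filter ContinuousLinearMap

namespace Pool.Agent.EH

open Pool.Agent.VN Pool.Agent.LFT Pool.Agent.HI

section Aff

variable {k : Subring ℂ}

lemma atiyah_of_int0' {G : Type} [Group G] (h : Int0 k G Unit) : AtiyahOver k G := by
  intro m n A hA
  have h1 : Rat k (fun _ : Fin m => ()) (kr (mulR (colF A))) :=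
    Rat.kr (lab' := fun _ : Fin n => ()) ⟨colF A, fun j p => colF_coef hA _ ⟨j, rfl⟩ p,
      fun _ _ _ => rfl, rfl⟩
  obtain ⟨z, hz⟩ := h _ inferInstance _ _ h1
  refine ⟨z, ?_⟩
  rw [kerDim_eq, ← hz]
  unfold dm
  rw [← ker_mulR]

/-- groups over a group with the inductive property satisfy the conjecture -/
lemma atiyah_of_pb {Λ B : Type} [Group Λ] [Group B] (h : Pool.Agent.HE.PB k B) (π : Λ →* B)
    (hπ : AtiyahOver k π.ker) : AtiyahOver k Λ := by
  have h1 : Coc (fun (g : B) (_ : Unit) => g) := ⟨fun _ _ _ => rfl, fun _ _ _ h => h⟩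
  have h2 := (h B Unit _ h1 Λ π hπ).1 Unit
  exact atiyah_of_int0' (Int0.of_map (M' := Via π Unit × Unit)
    (fun _ => ((toVia _ (), ()))) (fun _ _ => rfl) h2)

/-- the integrality -/
lemma int_aff {B : Type} [Group B] {n : ℕ} (p : B →* Af n)
    (h : ∀ F : Subgroup (Af n), Finite F → Pool.Agent.HE.PB k (F.comap p)) {G W : Type} [Group G]
    [MulAction G W] {c : G → W → B} (hc : Coc c) {Γ : Type} [Group Γ] {π : Γ →* G}
    (hπ : AtiyahOver k π.ker) (U : Type) [MulAction Γ U] : Int0 k Γ (Via π W × U) := by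
  intro ι _ lab X hX
  refine Rat.int ?_ hX
  rintro ⟨w, u⟩
  have hw : ∀ γ : MulAction.stabilizer Γ ((w, u) : Via π W × U), π γ.1 • ofVia w = ofVia w := by
    intro γ
    have h1 : γ.1 • ((w, u) : Via π W × U) = (w, u) := γ.2
    exact congrArg Prod.fst h1
  let c' : MulAction.stabilizer Γ ((w, u) : Via π W × U) →* B :=
    { toFun := fun γ => c (π γ.1) (ofVia w)
      map_one' := by
        show c (π 1) (ofVia w) = 1
        rw [map_one, hc.one]
      map_mul' := fun γ γ' => by
        show c (π (γ.1 * γ'.1)) (ofVia w) = _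
        rw [map_mul, hc.mul, hw γ'] }
  have hc' : ∀ γ, c' γ = 1 → π γ.1 = 1 := fun γ hγ => hc.inj _ _ (hw γ) hγ
  refine atiyah_af (p.comp c') fun F hF => ?_
  -- the preimage of a finite subgroup
  let f : F.comap (p.comp c') →* F.comap p :=
    { toFun := fun γ => ⟨c' γ.1, γ.2⟩
      map_one' := Subtype.ext (map_one c')
      map_mul' := fun γ γ' => Subtype.ext (map_mul c' _ _) }
  refine atiyah_of_pb (h F hF) f ?_
  let j : f.ker →* π.ker :=
    { toFun := fun x => ⟨x.1.1.1, hc' x.1.1 (congrArg Subtype.val x.2)⟩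
      map_one' := rfl
      map_mul' := fun _ _ => rfl }
  refine AtiyahOver.of_injective hπ j ?_
  intro a b hab
  have h1 : (j a).1 = (j b).1 := by rw [hab]
  exact Subtype.ext (Subtype.ext (Subtype.ext h1))

/-- the inductive property passes along homomorphisms to groups of affine permutations -/
theorem pb_aff {B : Type} [Group B] {n : ℕ} (p : B →* Af n)
    (h : ∀ F : Subgroup (Af n), Finite F → Pool.Agent.HE.PB k (F.comap p)) :
    Pool.Agent.HE.PB k B := by
  intro G W _ _ c hc
  -- the twisted product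
  have hTw : Pool.Agent.HE.Good k G (Tw hc (Via p (Af n))) := by
    refine Pool.Agent.HE.good_sigma (C := Quotient (MulAction.orbitRel B (Via p (Af n))))
      (fun x => Quotient.mk (MulAction.orbitRel B (Via p (Af n))) x.2) ?_ ?_
    · intro g x
      exact Quotient.sound (s := MulAction.orbitRel B (Via p (Af n))) ⟨c g x.1, rfl⟩
    · intro c0
      obtain ⟨v, rfl⟩ := Quotient.exists_rep c0
      refine ⟨Tw hc (MulAction.orbit B v), inferInstance, fun x => mkTw hc x.1 x.2.1,
        fun g x => rfl, ?_, ?_, ?_⟩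
      · rintro ⟨w, y⟩ ⟨w', y'⟩ hx
        have h2 : w = w' := congrArg (fun x : Tw hc (Via p (Af n)) => x.1) hx
        have h3 : y.1 = y'.1 := congrArg (fun x : Tw hc (Via p (Af n)) => x.2) hx
        exact Prod.ext h2 (Subtype.ext h3)
      · rintro ⟨w, y⟩ hw
        have h2 : y ∈ MulAction.orbit B v := Quotient.exact hw
        exact ⟨mkTw hc w ⟨y, h2⟩, rfl⟩
      · refine Pool.Agent.HE.good_tw hc (⟨v, MulAction.mem_orbit_self v⟩ : MulAction.orbit B v) ?_
          ((⊥ : Subgroup (Af n)).comap p) ?_ (h ⊥ inferInstance)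
        · rintro ⟨y, b, rfl⟩
          exact ⟨b, rfl⟩
        · ext g
          rw [MulAction.mem_stabilizer_iff, Subgroup.mem_comap, Subgroup.mem_bot]
          constructor
          · intro h2
            have h3 : p g * ofVia v = ofVia v := congrArg Subtype.val h2
            exact mul_eq_right.mp h3
          · intro h2
            refine Subtype.ext ?_
            show p g * ofVia v = ofVia v
            rw [h2, one_mul]
  intro Γ _ π hπ
  refine ⟨fun U _ => int_aff p h hc hπ U, ?_⟩
  intro X _ hX U _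
  have hF := foel_tw hc p (π.comp (rh X Γ)) (U := U)
  have hI : ∀ (V : Type) [MulAction (Sd X Γ) V],
      Int0 k (Sd X Γ) (V × (Via (π.comp (rh X Γ)) (Tw hc (Via p (Af n))) × U)) := by
    intro V _
    have h1 := (hTw (Sd X Γ) (π.comp (rh X Γ)) (Pool.Agent.HE.ker_ext hπ hX)).1 (V × U)
    exact Int0.of_map (M' := Via (π.comp (rh X Γ)) (Tw hc (Via p (Af n))) × (V × U))
      (fun x => (x.2.1, (x.1, x.2.2))) (fun g m => rfl) h1
  exact af_foel (ta_smul X Γ) (tb_smul X Γ) (fun g m => rfl) hF ((hTw Γ π hπ).2 X hX U)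
    (hI (TA X Γ)) (hI (TB X Γ))

theorem st_af (n : ℕ) : St k (Af n) := fun _ _ p h => pb_aff p h

end Aff

end Pool.Agent.EH
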