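import Pool.Agent.EH.Sier
import Pool.Agent.EH.Main

/-!
The partition lemma: one of the relations T, not T has the partition property.
-/

set_option autoImplicit false

open Cardinal Order

namespace Pool.Agent.EH

section

variable {R : Type} [LinearOrder R] [WellFoundedLT R]

theorem exists_inj (R : Type) : ∃ E : (succ ((2 : Cardinal.{0}) ^ #R)).ord.ToType →
    (succ ((2 : Cardinal.{0}) ^ #R)).ord.ToType → (R → Bool), ∀ z, Set.InjOn (E z) (Set.Iio z) := by
  classical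
  have h : ∀ z : (succ ((2 : Cardinal.{0}) ^ #R)).ord.ToType,
      ∃ e : (succ ((2 : Cardinal.{0}) ^ #R)).ord.ToType → (R → Bool), Set.InjOn e (Set.Iio z) := by
    intro z
    have h1 : #(Set.Iio z) ≤ #(R → Bool) := by
      refine (mk_Iio_le _ z).trans ?_
      simp
    obtain ⟨e⟩ := (Cardinal.le_def _ _).mp h1
    refine ⟨fun x => if hx : x ∈ Set.Iio z then e ⟨x, hx⟩ else fun _ => true, ?_⟩
    intro a ha b hb hab
    simp only [dif_pos ha, dif_pos hb] at hab
    have := e.injective hab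
    exact congrArg Subtype.val this
  choose E hE using h
  exact ⟨E, hE⟩

/-- partition lemma -/
theorem exists_partProp (hR : #R = 2 ^ (ℵ₀ : Cardinal.{0})) :
    ∃ T : (succ ((2 : Cardinal.{0}) ^ #R)).ord.ToType → (succ ((2 : Cardinal.{0}) ^ #R)).ord.ToType →
      (succ ((2 : Cardinal.{0}) ^ #R)).ord.ToType → Prop, PartProp T := by
  classical
  have hR0 : ℵ₀ ≤ #R := by
    rw [hR]
    exact (cantor _).le
  have h2R : ℵ₀ ≤ (2 : Cardinal.{0}) ^ #R := hR0.trans (cantor _).le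
  obtain ⟨E, hE⟩ := exists_inj R
  by_contra hcon
  push Not at hcon
  have hA := hcon (fun x y z => lexlt (E z x) (E z y))
  have hB := hcon (fun x y z => ¬ lexlt (E z x) (E z y))
  unfold PartProp at hA hB
  rw [not_forall] at hA hB
  obtain ⟨F1, hF1⟩ := hA
  obtain ⟨F0, hF0⟩ := hB
  -- end-homogeneous sequence
  have hset : #(Set ℕ) = #R := by
    rw [hR, mk_set, mk_nat]
  obtain ⟨z, x, hxz, hmono, hx⟩ := end_homog (R := R)
    (X := (succ ((2 : Cardinal.{0}) ^ #R)).ord.ToType) (A := (Set ℕ × Set ℕ) × Prop) hR0 (by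
      rw [mk_prod, mk_prod]
      simp only [lift_id]
      rw [hset, mk_Prop]
      refine mul_le_of_le h2R (mul_le_of_le h2R (cantor _).le (cantor _).le) ?_
      exact (natCast_lt_aleph0 (n := 2)).le.trans h2R)
    (bdd_of_small h2R)
    (fun a b c => ((F0 a c, F1 a c), lexlt (E c a) (E c b)))
  set rho : (succ #R).ord.ToType → (R → Bool) := fun xi => E z (x xi) with hrho
  have hrinj : Function.Injective rho := by
    intro a b hab
    exact hmono.injective (hE z (hxz a) (hxz b) hab)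
  set g : (succ #R).ord.ToType → (succ #R).ord.ToType → Prop := fun a b => lexlt (rho a) (rho b) with hg
  have hF0x : ∀ a b, a < b → F0 (x a) (x b) = F0 (x a) z := by
    intro a b hab
    exact congrArg (fun p => p.1.1) (hx b a a hab hab)
  have hF1x : ∀ a b, a < b → F1 (x a) (x b) = F1 (x a) z := by
    intro a b hab
    exact congrArg (fun p => p.1.2) (hx b a a hab hab)
  have hTx : ∀ a b c, a < c → b < c → (lexlt (E (x c) (x a)) (E (x c) (x b)) ↔ g a b) := by
    intro a b c hac hbc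
    exact iff_of_eq (congrArg (fun p => p.2) (hx c a b hac hbc))
  -- no homogeneous sets of full size
  have hno1 : ∀ J : Set (succ #R).ord.ToType, #R < #J →
      ¬ ∀ eta ∈ J, ∀ xi ∈ J, eta < xi → ¬ (¬ g eta xi) := by
    intro J hJ h
    refine no_increasing hR0 rho ⊤ J hJ ?_
    intro a ha b hb hab
    exact (lexlt_iff _ _).mp (not_not.mp (h a ha b hb hab))
  have hno0 : ∀ J : Set (succ #R).ord.ToType, #R < #J →
      ¬ ∀ eta ∈ J, ∀ xi ∈ J, eta < xi → ¬ g eta xi := by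
    intro J hJ h
    refine no_increasing hR0 (fun xi e => !(rho xi e)) ⊤ J hJ ?_
    intro a ha b hb hab
    refine (lexlt_iff _ _).mp (lexlt_not _ _ ?_)
    rcases lexlt_total (rho a) (rho b) (fun hh => hab.ne (hrinj hh)) with h1 | h1
    · exact absurd h1 (h a ha b hb hab)
    · exact h1
  -- constant colours
  have hTh : #((succ #R).ord.ToType) = succ #R := mk_Th _
  obtain ⟨⟨S0, S1⟩, hI⟩ := infinite_pigeonhole_card (θ := succ #R)
    (fun xi : (succ #R).ord.ToType => (F0 (x xi) z, F1 (x xi) z)) (by rw [hTh])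
    (hR0.trans (le_succ _)) (by
      rw [(isRegular_succ hR0).cof_ord, mk_prod]
      simp only [lift_id]
      rw [hset, mul_eq_self hR0]
      exact lt_succ _)
  set I : Set (succ #R).ord.ToType :=
    (fun xi : (succ #R).ord.ToType => (F0 (x xi) z, F1 (x xi) z)) ⁻¹' {(S0, S1)} with hIdef
  have hIlarge : #R < #I := lt_of_lt_of_le (lt_succ _) hI
  have hI0 : ∀ a ∈ I, F0 (x a) z = S0 := fun a ha => congrArg Prod.fst (show _ = (S0, S1) from ha)
  have hI1 : ∀ a ∈ I, F1 (x a) z = S1 := fun a ha => congrArg Prod.snd (show _ = (S0, S1) from ha)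
  obtain ⟨e0, he0, hJ1⟩ := exists_nbr hR0 g hno0 I hIlarge
  obtain ⟨e1, he1, hJ2⟩ := exists_nbr hR0 (fun a b => ¬ g a b) hno1 _ hJ1
  obtain ⟨H, hHJ, hHu, hH⟩ := exists_homog (k := #R) (by rw [hR]) g _ hJ2
  have hHI : ∀ a ∈ H, a ∈ I := fun a ha => (hHJ ha).1.1
  have hH0 : ∀ a ∈ H, e0 < a ∧ g e0 a := fun a ha => (hHJ ha).1.2
  have hH1 : ∀ a ∈ H, e1 < a ∧ ¬ g e1 a := fun a ha => (hHJ ha).2
  have hximg : ¬ (x '' H).Countable := by
    intro hc
    have h1 := hc.preimage_of_injOn (f := x) hmono.injective.injOn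
    rw [Set.preimage_image_eq _ hmono.injective] at h1
    exact hHu h1
  rcases hH with hH | hH
  · -- colour 1 on H: star with centre e1 for F0
    refine hF0 ⟨x e1, x '' H, S0, hximg, ?_, ?_, ?_, ?_, ?_⟩
    · rintro _ ⟨a, ha, rfl⟩
      exact hmono (hH1 a ha).1
    · rintro _ ⟨a, ha, rfl⟩
      rw [hF0x _ _ (hH1 a ha).1]
      exact hI0 _ he1.1
    · rintro _ ⟨a, ha, rfl⟩ _ ⟨b, hb, rfl⟩ hab
      rw [hF0x _ _ (hmono.lt_iff_lt.mp hab)]
      exact hI0 _ (hHI a ha)
    · rintro _ ⟨a, ha, rfl⟩ _ ⟨b, hb, rfl⟩ hab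
      have hab' := hmono.lt_iff_lt.mp hab
      rw [hTx e1 a b ((hH1 a ha).1.trans hab') hab']
      exact (hH1 a ha).2
    · rintro _ ⟨a, ha, rfl⟩ _ ⟨b, hb, rfl⟩ _ ⟨c, hc, rfl⟩ hab hbc
      have hab' := hmono.lt_iff_lt.mp hab
      have hbc' := hmono.lt_iff_lt.mp hbc
      exact not_not.mpr ((hTx a b c (hab'.trans hbc') hbc').mpr (hH a ha b hb hab'))
  · -- colour 0 on H: star with centre e0 for F1
    refine hF1 ⟨x e0, x '' H, S1, hximg, ?_, ?_, ?_, ?_, ?_⟩
    · rintro _ ⟨a, ha, rfl⟩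
      exact hmono (hH0 a ha).1
    · rintro _ ⟨a, ha, rfl⟩
      rw [hF1x _ _ (hH0 a ha).1]
      exact hI1 _ he0
    · rintro _ ⟨a, ha, rfl⟩ _ ⟨b, hb, rfl⟩ hab
      rw [hF1x _ _ (hmono.lt_iff_lt.mp hab)]
      exact hI1 _ (hHI a ha)
    · rintro _ ⟨a, ha, rfl⟩ _ ⟨b, hb, rfl⟩ hab
      have hab' := hmono.lt_iff_lt.mp hab
      exact (hTx e0 a b ((hH0 a ha).1.trans hab') hab').mpr (hH0 a ha).2
    · rintro _ ⟨a, ha, rfl⟩ _ ⟨b, hb, rfl⟩ _ ⟨c, hc, rfl⟩ hab hbc
      have hab' := hmono.lt_iff_lt.mp hab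
      have hbc' := hmono.lt_iff_lt.mp hbc
      exact fun hh => hH a ha b hb hab' ((hTx a b c (hab'.trans hbc') hbc').mp hh)

end

/-- The Erdos-Hajnal problem: a K4-free graph which is not a countable union of triangle-free graphs. -/
theorem erdos_hajnal :
    ∃ (V : Type) (G : SimpleGraph V), G.CliqueFree 4 ∧ ∀ c : Sym2 V → ℕ, ∃ x y z : V,
      G.Adj x y ∧ G.Adj y z ∧ G.Adj x z ∧ c s(x, y) = c s(y, z) ∧ c s(y, z) = c s(x, z) := by
  obtain ⟨T, hT⟩ := exists_partProp (R := ((2 : Cardinal.{0}) ^ (ℵ₀ : Cardinal.{0})).ord.ToType)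
    (by simp)
  exact main_of_partition T hT

end Pool.Agent.EH
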