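import Pool.Agent.EH.End

/-!
Subsets of the successor cardinal, the Sierpinski colouring and neighbourhoods.
-/

set_option autoImplicit false

open Cardinal Order

namespace Pool.Agent.EH

/-- small sets are strictly bounded in a successor cardinal -/
theorem bdd_of_small {k : Cardinal.{0}} (hk : ℵ₀ ≤ k) (S : Set (succ k).ord.ToType) (hS : #S ≤ k) :
    ∃ z, ∀ s ∈ S, s < z := by
  by_contra hcon
  push Not at hcon
  have hcof : IsCofinal S := by
    intro a
    obtain ⟨s, hs, h⟩ := hcon a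
    exact ⟨s, hs, h⟩
  have h1 := Order.cof_le hcof
  rw [Ordinal.cof_toType, (isRegular_succ hk).cof_ord] at h1
  exact absurd (h1.trans hS) (not_le.mpr (lt_succ k))

theorem mk_Th (k : Cardinal.{0}) : #((succ k).ord.ToType) = succ k := by simp

theorem mk_Iio_le (k : Cardinal.{0}) (b : (succ k).ord.ToType) : #(Set.Iio b) ≤ k := by
  have h1 : #(Set.Iio b) < succ k := by
    have h2 := Cardinal.mk_Iio_lt b (by simp)
    simpa using h2
  exact lt_succ_iff.mp h1

/-- large sets are unbounded -/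
theorem unbdd_of_large {k : Cardinal.{0}} (hk : ℵ₀ ≤ k) (J : Set (succ k).ord.ToType) (hJ : k < #J)
    (b : (succ k).ord.ToType) : ∃ x ∈ J, b < x := by
  by_contra hcon
  push Not at hcon
  have h1 : J ⊆ Set.Iio b ∪ {b} := by
    intro x hx
    rcases lt_or_eq_of_le (hcon x hx) with h | h
    · exact Or.inl h
    · exact Or.inr h
  have h2 : #J ≤ k := by
    refine (mk_le_mk_of_subset h1).trans ((mk_union_le _ _).trans ?_)
    refine add_le_of_le hk (mk_Iio_le k b) ?_
    simp only [mk_fintype, Fintype.card_unique, Nat.cast_one]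
    exact one_le_aleph0.trans hk
  exact absurd hJ (not_lt.mpr h2)

section

variable {R : Type} [LinearOrder R] [WellFoundedLT R]

/-- lexicographic order below d -/
def lexB (d : WithTop R) (a b : R → Bool) : Prop :=
  ∃ e : R, (e : WithTop R) < d ∧ (∀ f < e, a f = b f) ∧ a e = false ∧ b e = true

def lexlt (a b : R → Bool) : Prop :=
  ∃ e : R, (∀ f < e, a f = b f) ∧ a e = false ∧ b e = true

theorem lexlt_iff (a b : R → Bool) : lexlt a b ↔ lexB ⊤ a b := by
  constructor
  · rintro ⟨e, h1, h2, h3⟩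
    exact ⟨e, WithTop.coe_lt_top e, h1, h2, h3⟩
  · rintro ⟨e, -, h1, h2, h3⟩
    exact ⟨e, h1, h2, h3⟩

theorem lexlt_total (a b : R → Bool) (h : a ≠ b) : lexlt a b ∨ lexlt b a := by
  have hne : {e | a e ≠ b e}.Nonempty := Function.ne_iff.mp h
  let m := WellFounded.min (wellFounded_lt (α := R)) {e | a e ≠ b e} hne
  have hm : a m ≠ b m := WellFounded.min_mem (wellFounded_lt (α := R)) {e | a e ≠ b e} hne
  have hlt : ∀ f < m, a f = b f := by
    intro f hf
    by_contra hcon
    exact WellFounded.not_lt_min (wellFounded_lt (α := R)) {e | a e ≠ b e} hcon hf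
  cases ha : a m with
  | false =>
    left
    refine ⟨m, hlt, ha, ?_⟩
    cases hb : b m with
    | false => exact absurd (ha.trans hb.symm) hm
    | true => rfl
  | true =>
    right
    refine ⟨m, fun f hf => (hlt f hf).symm, ?_, ha⟩
    cases hb : b m with
    | false => rfl
    | true => exact absurd (ha.trans hb.symm) hm

theorem lexlt_not (a b : R → Bool) (h : lexlt b a) :
    lexlt (fun e => !(a e)) (fun e => !(b e)) := by
  obtain ⟨e, h1, h2, h3⟩ := h
  refine ⟨e, fun f hf => ?_, by simp [h3], by simp [h2]⟩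
  change (!(a f)) = (!(b f))
  rw [h1 f hf]

/-- no increasing sequence of length (card R)+ in the lexicographic order -/
theorem no_increasing (hR : ℵ₀ ≤ #R) (rho : (succ #R).ord.ToType → (R → Bool)) :
    ∀ (d : WithTop R) (J : Set (succ #R).ord.ToType), #R < #J →
      ¬ ∀ eta ∈ J, ∀ xi ∈ J, eta < xi → lexB d (rho eta) (rho xi) := by
  intro d
  induction d using WellFoundedLT.induction with
  | ind d ih =>
    intro J hJ hinc
    -- successor in J
    have hsucc : ∀ xi : J, ∃ z ∈ J, (xi : (succ #R).ord.ToType) < z ∧ ∀ y ∈ J, xi.1 < y → z ≤ y := by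
      intro xi
      have hne : {z | z ∈ J ∧ xi.1 < z}.Nonempty := by
        obtain ⟨x, hx, h⟩ := unbdd_of_large hR J hJ xi.1
        exact ⟨x, hx, h⟩
      let m := WellFounded.min (wellFounded_lt (α := (succ #R).ord.ToType)) _ hne
      have hm := WellFounded.min_mem (wellFounded_lt (α := (succ #R).ord.ToType)) _ hne
      refine ⟨m, hm.1, hm.2, ?_⟩
      intro y hy hlt
      by_contra hcon
      exact WellFounded.not_lt_min (wellFounded_lt (α := (succ #R).ord.ToType)) {z | z ∈ J ∧ xi.1 < z}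
        ⟨hy, hlt⟩ (not_le.mp hcon)
    choose nx hnx1 hnx2 hnx3 using hsucc
    have hd : ∀ xi : J, lexB d (rho xi) (rho (nx xi)) := fun xi => hinc _ xi.2 _ (hnx1 xi) (hnx2 xi)
    choose dd hd1 hd2 hd3 hd4 using hd
    obtain ⟨e, he⟩ := infinite_pigeonhole_card_lt dd hJ (hR.trans hJ.le)
    let J' : Set (succ #R).ord.ToType := Subtype.val '' (dd ⁻¹' {e})
    have hJ' : #R < #J' := by
      have : #J' = #(dd ⁻¹' {e}) := mk_image_eq Subtype.val_injective
      rw [this]
      exact he
    have hlt : (e : WithTop R) < d := by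
      have hne : (dd ⁻¹' {e}).Nonempty := by
        rw [← Set.nonempty_coe_sort, ← mk_ne_zero_iff]
        exact (zero_le.trans_lt he).ne'
      obtain ⟨xi, hxi⟩ := hne
      have : dd xi = e := hxi
      rw [← this]
      exact hd1 xi
    refine ih e hlt J' hJ' ?_
    rintro _ ⟨xi, hxi, rfl⟩ _ ⟨ze, hze, rfl⟩ hxz
    have e1 : dd xi = e := hxi
    have e2 : dd ze = e := hze
    obtain ⟨d0, h0, h1, h2, h3⟩ := hinc _ xi.2 _ ze.2 hxz
    refine ⟨d0, ?_, h1, h2, h3⟩
    rw [WithTop.coe_lt_coe]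
    by_contra hcon
    have hcon' : e ≤ d0 := not_lt.mp hcon
    -- rho xi and rho ze agree below e
    have a1 : ∀ f < e, rho xi f = rho ze f := fun f hf => h1 f (lt_of_lt_of_le hf hcon')
    have a2 : ∀ f < e, rho xi f = rho (nx xi) f := by
      intro f hf
      exact hd2 xi f (by rw [e1]; exact hf)
    have a3 : rho xi e = false := by rw [← e1]; exact hd3 xi
    have a4 : rho (nx xi) e = true := by rw [← e1]; exact hd4 xi
    have a5 : rho ze e = false := by rw [← e2]; exact hd3 ze
    rcases lt_or_eq_of_le (hnx3 xi _ ze.2 hxz) with h | h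
    · obtain ⟨d1, -, b1, b2, b3⟩ := hinc _ (hnx1 xi) _ ze.2 h
      rcases lt_trichotomy d1 e with hh | hh | hh
      · rw [← a2 d1 hh] at b2
        rw [← a1 d1 hh] at b3
        rw [b2] at b3
        cases b3
      · subst hh
        rw [a4] at b2
        cases b2
      · have := b1 e hh
        rw [a4, a5] at this
        cases this
    · rw [h, a5] at a4
      cases a4

end

/-- neighbourhoods -/
theorem exists_nbr {k : Cardinal.{0}} (hk : ℵ₀ ≤ k) (g : (succ k).ord.ToType → (succ k).ord.ToType → Prop)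
    (hg : ∀ J : Set (succ k).ord.ToType, k < #J → ¬ ∀ eta ∈ J, ∀ xi ∈ J, eta < xi → ¬ g eta xi)
    (J : Set (succ k).ord.ToType) (hJ : k < #J) :
    ∃ eta ∈ J, k < #({xi | xi ∈ J ∧ eta < xi ∧ g eta xi} : Set (succ k).ord.ToType) := by
  classical
  by_contra hcon
  push Not at hcon
  have hb : ∀ eta : J, ∃ b, ∀ xi ∈ J, eta.1 < xi → g eta.1 xi → xi < b := by
    intro eta
    obtain ⟨b, hb⟩ := bdd_of_small hk _ (hcon eta.1 eta.2)
    exact ⟨b, fun xi h1 h2 h3 => hb xi ⟨h1, h2, h3⟩⟩
  choose be hbe using hb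
  obtain ⟨x, hx⟩ := exists_rec (Th := (succ k).ord.ToType) (C := J) (· < ·) wellFounded_lt
    (fun xi u c => ∀ eta (h : eta < xi), (u eta h).1 < c.1 ∧ be (u eta h) < c.1) (by
      intro xi u
      have hsm : #(Set.range (fun eta : Set.Iio xi => max (u eta.1 eta.2).1 (be (u eta.1 eta.2)))) ≤ k :=
        mk_range_le.trans (mk_Iio_le k xi)
      obtain ⟨z, hz⟩ := bdd_of_small hk _ hsm
      obtain ⟨c, hc, hzc⟩ := unbdd_of_large hk J hJ z
      refine ⟨⟨c, hc⟩, ?_⟩
      intro eta h
      have h1 := hz _ ⟨⟨eta, h⟩, rfl⟩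
      rw [max_lt_iff] at h1
      exact ⟨h1.1.trans hzc, h1.2.trans hzc⟩)
  have hmono : StrictMono (fun xi => (x xi).1) := fun a b hab => (hx b a hab).1
  refine hg (Set.range (fun xi => (x xi).1)) ?_ ?_
  · rw [mk_range_eq _ hmono.injective, mk_Th]
    exact lt_succ k
  · rintro _ ⟨a, rfl⟩ _ ⟨b, rfl⟩ hab hgab
    have hab' : a < b := hmono.lt_iff_lt.mp hab
    have h1 := hbe (x a) (x b).1 (x b).2 hab hgab
    exact absurd (hx b a hab').2 (not_lt.mpr h1.le)

/-- Erdos-Rado for pairs: an uncountable homogeneous set -/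
theorem exists_homog {k : Cardinal.{0}} (hk : (2 : Cardinal.{0}) ^ (ℵ₀ : Cardinal.{0}) ≤ k)
    (g : (succ k).ord.ToType → (succ k).ord.ToType → Prop)
    (J : Set (succ k).ord.ToType) (hJ : k < #J) :
    ∃ H : Set (succ k).ord.ToType, H ⊆ J ∧ ¬ H.Countable ∧
      ((∀ a ∈ H, ∀ b ∈ H, a < b → g a b) ∨ (∀ a ∈ H, ∀ b ∈ H, a < b → ¬ g a b)) := by
  classical
  have hk0 : ℵ₀ ≤ k := (cantor _).le.trans hk
  have hnat : #ℕ = ℵ₀ := mk_nat
  obtain ⟨z, x, hxz, hmono, hx⟩ := end_homog (R := ℕ) (X := J) (A := Prop)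
    (by rw [hnat]) (by
      rw [mk_Prop, hnat]
      exact (power_le_power_left two_ne_zero (one_le_aleph0 : (1 : Cardinal.{0}) ≤ ℵ₀)).trans' (by simp))
    (by
      intro S hS
      have h1 : #(Subtype.val '' S : Set (succ k).ord.ToType) ≤ k := by
        refine mk_image_le.trans (hS.trans ?_)
        rw [hnat]
        exact hk
      obtain ⟨b, hb⟩ := bdd_of_small hk0 _ h1
      obtain ⟨c, hc, hbc⟩ := unbdd_of_large hk0 J hJ b
      refine ⟨⟨c, hc⟩, ?_⟩
      intro s hs
      have := (hb s.1 ⟨s, hs, rfl⟩).trans hbc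
      exact this)
    (fun a _ b => g a.1 b.1)
  have hunc : Uncountable ((succ #ℕ).ord.ToType) := by
    rw [← aleph0_lt_mk_iff]
    simp
  obtain ⟨p, hp⟩ := exists_uncountable_fiber (fun xi : (succ #ℕ).ord.ToType => g (x xi).1 z.1) (by
    rw [mk_Prop]
    exact (natCast_lt_aleph0 (n := 2)).trans (by simp))
  let f : (succ #ℕ).ord.ToType → (succ k).ord.ToType := fun xi => (x xi).1
  have hf : Function.Injective f := Subtype.val_injective.comp hmono.injective
  refine ⟨f '' ((fun xi : (succ #ℕ).ord.ToType => g (x xi).1 z.1) ⁻¹' {p}), ?_, ?_, ?_⟩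
  · rintro _ ⟨xi, -, rfl⟩
    exact (x xi).2
  · intro hc
    have h1 := hc.preimage_of_injOn (f := f) hf.injOn
    rw [Set.preimage_image_eq _ hf] at h1
    exact (not_countable_iff.mpr hp) h1.to_subtype
  · have key : ∀ a b, a < b → g (f a) (f b) = g (f a) z.1 := by
      intro a b hab
      exact hx b a a hab hab
    by_cases hpp : p
    · left
      rintro _ ⟨a, ha, rfl⟩ _ ⟨b, hb, rfl⟩ hab
      have hab' : a < b := hmono.lt_iff_lt.mp hab
      rw [key a b hab']
      have : g (x a).1 z.1 = p := ha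
      change g (x a).1 z.1
      rw [this]
      exact hpp
    · right
      rintro _ ⟨a, ha, rfl⟩ _ ⟨b, hb, rfl⟩ hab
      have hab' : a < b := hmono.lt_iff_lt.mp hab
      rw [key a b hab']
      have : g (x a).1 z.1 = p := ha
      change ¬ g (x a).1 z.1
      rw [this]
      exact hpp

end Pool.Agent.EH
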