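import Mathlib

/-!
A K4-free graph with an extension property over index type I:
every I-indexed family of vertices f and every S with f '' S triangle-free has a vertex
different from all f j and adjacent exactly to those f j which lie in f '' S.
-/

set_option autoImplicit false

namespace Pool.Agent.EH

inductive V (I L : Type) : Type
  | leaf (l : L) : V I L
  | node (l : L) (S : Set I) (f : I → V I L) : V I L

variable {I L : Type}

/-- The down-neighbourhood. -/
def down : V I L → Set (V I L)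
  | .leaf _ => ∅
  | .node _ S f => {x | (∃ i ∈ S, x = f i) ∧
      ¬ ∃ i ∈ S, ∃ j ∈ S, ∃ k ∈ S, (f i ∈ down (f j) ∨ f j ∈ down (f i)) ∧
        (f i ∈ down (f k) ∨ f k ∈ down (f i)) ∧ (f j ∈ down (f k) ∨ f k ∈ down (f j))}

/-- Immediate subterm. -/
def Sub (x y : V I L) : Prop := ∃ l S f i, y = V.node l S f ∧ x = f i

theorem sub_wf : WellFounded (Sub : V I L → V I L → Prop) := by
  refine ⟨fun y => ?_⟩
  induction y with
  | leaf l =>
    refine ⟨_, ?_⟩
    rintro x ⟨l', S, f, i, h, -⟩
    cases h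
  | node l S f ih =>
    refine ⟨_, ?_⟩
    rintro x ⟨l', S', f', i, h, rfl⟩
    cases h
    exact ih i

theorem sub_of_mem_down {x y : V I L} (h : x ∈ down y) : Sub x y := by
  cases y with
  | leaf l => simp [down] at h
  | node l S f =>
    rw [down] at h
    obtain ⟨⟨i, hi, rfl⟩, -⟩ := h
    exact ⟨l, S, f, i, rfl, rfl⟩

/-- The graph. -/
def G (I L : Type) : SimpleGraph (V I L) where
  Adj x y := x ∈ down y ∨ y ∈ down x
  symm := ⟨fun _ _ h => h.symm⟩
  loopless := ⟨fun x h => by
    have : Sub x x := h.elim sub_of_mem_down sub_of_mem_down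
    exact (sub_wf.irrefl.irrefl x) this⟩

theorem adj_iff {x y : V I L} : (G I L).Adj x y ↔ (x ∈ down y ∨ y ∈ down x) := Iff.rfl

/-- no triangle in the down-neighbourhood -/
theorem down_triangleFree (y a b c : V I L) (ha : a ∈ down y) (hb : b ∈ down y) (hc : c ∈ down y)
    (hab : (G I L).Adj a b) (hac : (G I L).Adj a c) (hbc : (G I L).Adj b c) : False := by
  cases y with
  | leaf l => simp [down] at ha
  | node l S f =>
    rw [down] at ha hb hc
    obtain ⟨⟨i, hi, rfl⟩, h⟩ := ha
    obtain ⟨⟨j, hj, rfl⟩, -⟩ := hb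
    obtain ⟨⟨k, hk, rfl⟩, -⟩ := hc
    exact h ⟨i, hi, j, hj, k, hk, hab, hac, hbc⟩

instance subIWF : IsWellFounded (V I L) Sub := ⟨sub_wf⟩

theorem cliqueFree : (G I L).CliqueFree 4 := by
  classical
  intro t ht
  have hne : t.Nonempty := by
    rw [← Finset.card_pos, ht.card_eq]; norm_num
  obtain ⟨m, hm, hmax⟩ := t.exists_max_image (fun x => IsWellFounded.rank (Sub (I := I) (L := L)) x) hne
  have key : ∀ x ∈ t, x ≠ m → x ∈ down m := by
    intro x hx hxm
    have hadj : (G I L).Adj x m := ht.isClique hx hm hxm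
    rcases hadj with h | h
    · exact h
    · exfalso
      have h1 := IsWellFounded.rank_lt_of_rel (sub_of_mem_down h)
      exact absurd (hmax x hx) (not_le.mpr h1)
  have hcard : (t.erase m).card = 3 := by
    rw [Finset.card_erase_of_mem hm, ht.card_eq]
  obtain ⟨a, b, c, hab, hac, hbc, hs⟩ := Finset.card_eq_three.mp hcard
  have ha : a ∈ t.erase m := by rw [hs]; simp
  have hb : b ∈ t.erase m := by rw [hs]; simp
  have hc : c ∈ t.erase m := by rw [hs]; simp
  rw [Finset.mem_erase] at ha hb hc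
  exact down_triangleFree m a b c (key a ha.2 ha.1) (key b hb.2 hb.1) (key c hc.2 hc.1)
    (ht.isClique ha.2 hb.2 hab) (ht.isClique ha.2 hc.2 hac) (ht.isClique hb.2 hc.2 hbc)

theorem mem_down_node {l : L} {S : Set I} {f : I → V I L} {x : V I L}
    (h : ¬ ∃ i ∈ S, ∃ j ∈ S, ∃ k ∈ S, (G I L).Adj (f i) (f j) ∧ (G I L).Adj (f i) (f k) ∧
      (G I L).Adj (f j) (f k)) :
    x ∈ down (V.node l S f) ↔ ∃ i ∈ S, x = f i := by
  rw [down]
  constructor
  · rintro ⟨h1, -⟩
    exact h1
  · intro h1
    exact ⟨h1, h⟩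

/-- Extension property. -/
theorem exists_ext (f : I → V I (Set (I × Option I))) (S : Set I)
    (h : ¬ ∃ i ∈ S, ∃ j ∈ S, ∃ k ∈ S, (G I (Set (I × Option I))).Adj (f i) (f j) ∧
      (G I (Set (I × Option I))).Adj (f i) (f k) ∧ (G I (Set (I × Option I))).Adj (f j) (f k)) :
    ∃ y, (∀ j, y ≠ f j) ∧
      ∀ j, (G I (Set (I × Option I))).Adj (f j) y ↔ ∃ i ∈ S, f j = f i := by
  classical
  by_contra hcon
  push Not at hcon
  -- witness function
  have hw : ∀ l : Set (I × Option I), ∃ p : I × Option I,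
      (p.2 = none ∧ V.node l S f = f p.1) ∨
      (∃ i, p.2 = some i ∧ ∃ l' S' g, f p.1 = V.node l' S' g ∧ V.node l S f = g i) := by
    intro l
    by_cases h1 : ∃ j, V.node l S f = f j
    · obtain ⟨j, hj⟩ := h1
      exact ⟨(j, none), Or.inl ⟨rfl, hj⟩⟩
    · push Not at h1
      obtain ⟨j, hj⟩ := hcon (V.node l S f) h1
      have hj2 : V.node l S f ∈ down (f j) := by
        by_contra hnot
        have : (G I (Set (I × Option I))).Adj (f j) (V.node l S f) ↔ ∃ i ∈ S, f j = f i := by
          rw [adj_iff, mem_down_node h]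
          constructor
          · rintro (h2 | h2)
            · exact h2
            · exact absurd h2 hnot
          · intro h2
            exact Or.inl h2
        rcases hj with ⟨h3, h4⟩ | ⟨h3, h4⟩
        · obtain ⟨i, hi, h5⟩ := this.mp h3
          exact h4 i hi h5
        · exact h3 (this.mpr h4)
      obtain ⟨l', S', g, i, h6, h7⟩ := sub_of_mem_down hj2
      exact ⟨(j, some i), Or.inr ⟨i, rfl, l', S', g, h6, h7⟩⟩
  choose w hw using hw
  refine Function.cantor_injective w ?_
  intro l1 l2 h12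
  have e1 := hw l1
  have e2 := hw l2
  rw [← h12] at e2
  have : V.node l1 S f = V.node l2 S f := by
    rcases e1 with ⟨a1, b1⟩ | ⟨i1, a1, l1', S1, g1, c1, d1⟩
    · rcases e2 with ⟨a2, b2⟩ | ⟨i2, a2, l2', S2, g2, c2, d2⟩
      · rw [b1, b2]
      · rw [a1] at a2; cases a2
    · rcases e2 with ⟨a2, b2⟩ | ⟨i2, a2, l2', S2, g2, c2, d2⟩
      · rw [a1] at a2; cases a2
      · rw [a1] at a2
        cases a2
        rw [c1] at c2
        cases c2
        rw [d1, d2]
  cases this
  rfl

end Pool.Agent.EH
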